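import Pool.Agent.Q56.CP.Coh
import Pool.Agent.Q56.FD.Slope

/-!
# Splittings from the strong form of the Tate conjecture and nilpotence
-/

set_option autoImplicit false
set_option linter.unusedSectionVars false

open CategoryTheory AlgebraicGeometry

universe u v w

namespace Pool.Agent.Q56.CP

open Module Polynomial Pool.Agent.H914 Pool.Agent.H914.VarClass Pool.Agent.H914.VarClass.Obj
  Pool.Agent.W492.BB Pool.Agent.W550.Corr Pool.Agent.TH133 Pool.Agent.W484.CH Pool.Agent.Q56.FD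

variable {k : Type u} [Field k] {𝒱 : VarClass k} {C : TheoryData.{u, v, 0} 𝒱 ℚ} {K : Type w}
  [Field K] [CharZero K] {H : WeilTheoryData.{u, v, w} C K} [hC : IsChowProj C]
  [hH : IsWeilProj H] {X Y : 𝒱.Obj}

section ring

variable {f : X ⟶ X}

lemma fr_mem (f : X ⟶ X) : fr C f ∈ cor0 C X := W484.CH.cograph_mem f

lemma actH_fr (f : X ⟶ X) : actH C X H (fr C f) = hF H f :=
  LinearMap.ext fun x => act_cl_cograph f x

lemma actH_aeval (f : X ⟶ X) (P : ℚ[X]) :
    actH C X H (aeval (fr C f) P) = aeval (hF H f) (P.map (algebraMap ℚ K)) := by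
  rw [Polynomial.aeval_def, Polynomial.hom_eval₂, actH_fr, Polynomial.aeval_def,
    Polynomial.eval₂_map]
  congr 1
  exact Subsingleton.elim _ _

lemma powC_eq (G : Cor C X) (n : ℕ) : G ^ n = powC C (X := X) G n := by
  induction n with
  | zero => rfl
  | succ n ih =>
    rw [pow_succ', ih]
    rfl

lemma nilp_of_act (hN : Nilpotence H X) {G : Cor C X} (hG : G ∈ cor0 C X)
    (h0 : actH C X H G = 0) : IsNilpotent G := by
  obtain ⟨n, hn⟩ := hN G hG fun a => LinearMap.congr_fun h0 a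
  exact ⟨n, (powC_eq G n).trans hn⟩

lemma aeval_fr_mem (f : X ⟶ X) (P : ℚ[X]) : aeval (fr C f) P ∈ cor0 C X := by
  have h1 : aeval (fr C f) P = ((aeval (⟨fr C f, fr_mem f⟩ : cor0 C X) P : cor0 C X) : Cor C X) :=
    (Polynomial.aeval_algHom_apply (cor0 C X).val ⟨fr C f, fr_mem f⟩ P)
  rw [h1]
  exact Subtype.property _

end ring

section proj

variable {m : ℕ} {D E : Fin m → C.A X} {j : ℕ}

lemma projE_mem (hD : ∀ t, D t ∈ C.gr X j) (hE : ∀ t, E t ∈ C.gr X ((X.dim : ℤ) - j)) :
    projE C D E ∈ cor0 C X := by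
  change (∑ t, C.ext (E t) (D t)) ∈ C.gr (X.prod X) X.dim
  refine Submodule.sum_mem _ fun t _ => ?_
  have h1 := ext_mem' (hE t) (hD t)
  rwa [sub_add_cancel] at h1

lemma act_cl_cl (Γ : C.A (X.prod Y)) (z : C.A X) :
    H.act (H.cl Γ) (H.cl z) = H.cl (C.act Γ z) := by
  rw [H.toTheoryData.act_apply, C.act_apply, H.cl_push, map_mul (H.cl (X := X.prod Y)), H.cl_pull]

lemma actH_projE (hDE : ∀ t u, HasDegree C (E u * D t) (if t = u then 1 else 0)) {x : H.A X}
    (hx : x ∈ Submodule.span K (Set.range fun t => H.cl (D t))) :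
    actH C X H (projE C D E) x = x := by
  induction hx using Submodule.span_induction with
  | mem y hy =>
    obtain ⟨u, rfl⟩ := hy
    change H.act (X := X) (Y := X) (H.cl (∑ t, C.ext (E t) (D t))) (H.cl (D u)) = H.cl (D u)
    rw [act_cl_cl]
    congr 1
    have h1 : C.act (∑ t, C.ext (E t) (D t)) (D u) = ∑ t, C.act (C.ext (E t) (D t)) (D u) :=
      act_sum C _ _ _
    rw [h1]
    rw [Finset.sum_congr rfl fun t _ => act_ext' (hDE u t)]
    simp
  | zero => rw [map_zero]
  | add x y _ _ hx hy => rw [map_add, hx, hy]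
  | smul a x _ hx => rw [map_smul, hx]

end proj

section split

variable {f : X ⟶ X} {q : ℕ}

/-- Operators and powers of linear factors. -/
lemma ker_of_factor {V : Type*} [AddCommGroup V] [Module K V] {F : Module.End K V} {c : K}
    {P : K[X]} {n : ℕ} (h : aeval F ((Polynomial.X - Polynomial.C c) ^ n * P) = 0) (w : V) :
    ((F - c • (1 : Module.End K V)) ^ n) (aeval F P w) = 0 := by
  rw [map_mul, map_pow, map_sub, aeval_X, aeval_C, Algebra.algebraMap_eq_smul_one] at h
  exact LinearMap.congr_fun h w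

/-- **Splittings.** -/
theorem split_of [Module.Finite K (H.A X)] (hq : 1 < q) (hf : IsFrobenius C f q)
    (hW : Weights H f q) (hN : Nilpotence H X) {χ : ℚ[X]} (hχ0 : χ ≠ 0)
    (hχ : aeval (hF H f) (χ.map (algebraMap ℚ K)) = 0) (hT : ∀ j, StrongTateAt H f q j) (j : ℕ) :
    Split C f q j := by
  have hdual : ∃ (m : ℕ) (D E : Fin m → C.A X), (∀ t, D t ∈ C.gr X j) ∧
      (∀ t, E t ∈ C.gr X ((X.dim : ℤ) - j)) ∧
      (∀ t u, HasDegree C (E u * D t) (if t = u then 1 else 0)) ∧
      aSpan H X j ≤ Submodule.span K (Set.range fun t => H.cl (D t)) := by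
    rcases le_or_gt j X.dim with hj | hj
    · exact exists_dual hq hf hW hj (hT _)
    · refine ⟨0, Fin.elim0, Fin.elim0, fun t => t.elim0, fun t => t.elim0, fun t => t.elim0, ?_⟩
      have h1 : aSpan H X j ≤ ⊥ := by
        refine Submodule.span_le.2 ?_
        rintro _ ⟨z, hz, rfl⟩
        rw [hC.gr_top X j z hz (by exact_mod_cast hj), map_zero]
        exact Submodule.zero_mem _
      exact h1.trans bot_le
  obtain ⟨m, D, E, hD, hE, hDE, hspan⟩ := hdual
  obtain ⟨P, hP, hPn⟩ :=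
    Polynomial.exists_eq_pow_rootMultiplicity_mul_and_not_dvd χ hχ0 ((q : ℚ) ^ j)
  refine ⟨m, D, E, hD, hE, P, ?_, ?_⟩
  · intro h
    exact hPn (Polynomial.dvd_iff_isRoot.2 h)
  · apply nilp_of_act hN
    · exact mul_mem (sub_mem (one_mem _) (projE_mem hD hE)) (aeval_fr_mem f P)
    · rw [map_mul, map_sub, map_one]
      refine LinearMap.ext fun w => ?_
      rw [Module.End.mul_apply, LinearMap.sub_apply, Module.End.one_apply, LinearMap.zero_apply,
        actH_aeval]
      have h1 : aeval (hF H f) ((Polynomial.X - Polynomial.C ((q : K) ^ j)) ^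
          (rootMultiplicity ((q : ℚ) ^ j) χ) * P.map (algebraMap ℚ K)) = 0 := by
        have h2 := hχ
        rw [hP, Polynomial.map_mul, Polynomial.map_pow, Polynomial.map_sub, Polynomial.map_X,
          Polynomial.map_C, map_pow, map_natCast] at h2
        exact h2
      have h4 := ker_of_factor h1 w
      have h5 := hspan (strong_span hq hW (hT j) h4)
      rw [actH_projE hDE h5, sub_self]

end split

/-! ### Polynomials -/

section poly

variable {f : X ⟶ X}

/-- The product of the polynomials in the degrees `0, …, 2 dim X`. -/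
noncomputable def chi (X : 𝒱.Obj) (Q : ℕ → ℤ[X]) : ℤ[X] :=
  ∏ i ∈ Finset.range (2 * X.dim + 1), Q i

lemma chi_kills {Q : ℕ → ℤ[X]}
    (hQ : ∀ i ≤ 2 * X.dim, ∀ x ∈ H.gr X i, aeval (hF H f) (Q i) x = 0) :
    aeval (hF H f) (chi X Q) = 0 := by
  apply ext_gr H
  intro i x hx
  rw [LinearMap.zero_apply]
  by_cases hx0 : x = 0
  · rw [hx0, map_zero]
  have h1 := nonneg_of_mem H hx hx0
  obtain ⟨i, rfl⟩ := Int.eq_ofNat_of_zero_le h1
  by_cases hi : i ≤ 2 * X.dim
  · have h2 : chi X Q = (∏ l ∈ (Finset.range (2 * X.dim + 1)).erase i, Q l) * Q i :=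
      (Finset.prod_erase_mul _ _ (Finset.mem_range.2 (by omega))).symm
    rw [h2, map_mul, Module.End.mul_apply, hQ i hi x hx, map_zero]
  · rw [gr_top H (by omega)] at hx
    exact absurd ((Submodule.mem_bot _).1 hx) hx0

lemma aeval_map_rat (P : ℤ[X]) :
    aeval (hF H f) ((P.map (algebraMap ℤ ℚ)).map (algebraMap ℚ K)) = aeval (hF H f) P := by
  rw [Polynomial.map_map, Polynomial.aeval_def, Polynomial.eval₂_map, Polynomial.aeval_def]
  congr 1
  exact Subsingleton.elim _ _

/-- A polynomial relation for the Frobenius endomorphism in the ring of correspondences. -/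
theorem exists_relation (hN : Nilpotence H X) {Q : ℕ → ℤ[X]} (hQ0 : ∀ i ≤ 2 * X.dim, Q i ≠ 0)
    (hQ : ∀ i ≤ 2 * X.dim, ∀ x ∈ H.gr X i, aeval (hF H f) (Q i) x = 0) :
    ∃ P : ℚ[X], P ≠ 0 ∧ aeval (fr C f) P = 0 ∧
      ∀ α : Qb, aeval α P = 0 → ∃ i ≤ 2 * X.dim, aeval α (Q i) = 0 := by
  have hchi0 : chi X Q ≠ 0 := Finset.prod_ne_zero_iff.2 fun i hi =>
    hQ0 i (by rw [Finset.mem_range] at hi; omega)
  have h0 : actH C X H (aeval (fr C f) ((chi X Q).map (algebraMap ℤ ℚ))) = 0 := by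
    rw [actH_aeval, aeval_map_rat, chi_kills hQ]
  obtain ⟨n, hn⟩ := nilp_of_act hN (aeval_fr_mem f _) h0
  refine ⟨((chi X Q).map (algebraMap ℤ ℚ)) ^ n, ?_, ?_, ?_⟩
  · exact pow_ne_zero _ ((Polynomial.map_ne_zero_iff (algebraMap ℤ ℚ).injective_int).2 hchi0)
  · rw [map_pow, hn]
  · intro α hα
    rw [map_pow] at hα
    have h1 := eq_zero_of_pow_eq_zero hα
    rw [Polynomial.aeval_map_algebraMap, chi, map_prod, Finset.prod_eq_zero_iff] at h1
    obtain ⟨i, hi, h2⟩ := h1
    exact ⟨i, by rw [Finset.mem_range] at hi; omega, h2⟩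

end poly

end Pool.Agent.Q56.CP
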