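import Pool.Agent.Q56.FD.Slope

/-!
# Common eigenvectors of commuting operators over the rational numbers
-/

set_option autoImplicit false

namespace Pool.Agent.Q56.CP

open Polynomial Pool.Agent.Q56.FD

open scoped IsMulCommutative in
/-- Commuting operators on a nonzero vector space over `ℚ`, each annihilated by a nonzero
polynomial: there are a nonzero vector `z` and algebraic numbers `α i`, roots of the polynomials,
such that a relation `∏ α i = c` with rational `c` holds if and only if it is satisfied by the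
operators acting on `z`. -/
theorem exists_common {ι : Type*} [Finite ι] {V : Type*} [AddCommGroup V] [Module ℚ V]
    [Nontrivial V] (φ : ι → Module.End ℚ V) (hφ : ∀ i j, φ i * φ j = φ j * φ i) (p : ι → ℚ[X])
    (hp : ∀ i, p i ≠ 0) (hpφ : ∀ i, aeval (φ i) (p i) = 0) :
    ∃ (z : V) (α : ι → Qb), z ≠ 0 ∧ (∀ i, aeval (α i) (p i) = 0) ∧
      ∀ (l : List ι) (c : ℚ), (l.map α).prod = algebraMap ℚ Qb c ↔ (l.map φ).prod z = c • z := by
  classical
  set s : Set (Module.End ℚ V) := Set.range φ with hs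
  have hcomm : ∀ a ∈ s, ∀ b ∈ s, a * b = b * a := by
    rintro _ ⟨i, rfl⟩ _ ⟨j, rfl⟩
    exact hφ i j
  have hmc := Algebra.isMulCommutative_adjoin ℚ hcomm
  let ρ : MvPolynomial ι ℚ →ₐ[ℚ] Algebra.adjoin ℚ s :=
    MvPolynomial.aeval fun i => ⟨φ i, Algebra.subset_adjoin ⟨i, rfl⟩⟩
  let ρ' : MvPolynomial ι ℚ →ₐ[ℚ] Module.End ℚ V := (Algebra.adjoin ℚ s).val.comp ρ
  have hρX : ∀ i, ρ' (MvPolynomial.X i) = φ i := by
    intro i
    change ((ρ (MvPolynomial.X i) : Algebra.adjoin ℚ s) : Module.End ℚ V) = φ i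
    rw [MvPolynomial.aeval_X]
  let _ : Module (MvPolynomial ι ℚ) V := Module.compHom V ρ'.toRingHom
  have hsm : ∀ (f : MvPolynomial ι ℚ) (v : V), f • v = ρ' f v := fun _ _ => rfl
  obtain ⟨P, hP⟩ := associatedPrimes.nonempty (MvPolynomial ι ℚ) V
  obtain ⟨hprime, x, hx⟩ := isAssociatedPrime_iff.1 hP
  have hmem : ∀ f : MvPolynomial ι ℚ, f ∈ P ↔ ρ' f x = 0 := by
    intro f
    rw [hx, Submodule.mem_colon_singleton, Submodule.mem_bot, hsm]
  have hpP : ∀ i, aeval (MvPolynomial.X i : MvPolynomial ι ℚ) (p i) ∈ P := by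
    intro i
    rw [hmem, ← Polynomial.aeval_algHom_apply, hρX, hpφ, LinearMap.zero_apply]
  -- the quotient is algebraic over the rational numbers
  let mk : MvPolynomial ι ℚ →ₐ[ℚ] (MvPolynomial ι ℚ ⧸ P) := Ideal.Quotient.mkₐ ℚ P
  have hint : ∀ f : MvPolynomial ι ℚ, IsIntegral ℚ (mk f) := by
    intro f
    induction f using MvPolynomial.induction_on with
    | C a => exact isIntegral_algebraMap (R := ℚ) (A := MvPolynomial ι ℚ ⧸ P) (x := a)
    | add f g hf hg => rw [map_add]; exact hf.add hg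
    | mul_X f i hf =>
      rw [map_mul]
      refine hf.mul ?_
      have h1 : IsAlgebraic ℚ (mk (MvPolynomial.X i)) := by
        refine ⟨p i, hp i, ?_⟩
        rw [Polynomial.aeval_algHom_apply]
        exact Ideal.Quotient.eq_zero_iff_mem.2 (hpP i)
      exact h1.isIntegral
  have hInt : Algebra.IsIntegral ℚ (MvPolynomial ι ℚ ⧸ P) := by
    constructor
    intro y
    obtain ⟨f, rfl⟩ := Ideal.Quotient.mk_surjective y
    exact hint f
  have hfield : IsField (MvPolynomial ι ℚ ⧸ P) :=
    isField_of_isIntegral_of_isField' (R := ℚ) (Field.toIsField ℚ)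
  let e : (MvPolynomial ι ℚ ⧸ P) →ₐ[ℚ] Qb := IsAlgClosed.lift
  have he : Function.Injective e := by
    let _ := hfield.toField
    exact (e : (MvPolynomial ι ℚ ⧸ P) →+* Qb).injective
  refine ⟨x, fun i => e (mk (MvPolynomial.X i)), ?_, fun i => ?_, fun l c => ?_⟩
  · intro h0
    apply hprime.ne_top
    rw [Ideal.eq_top_iff_one, hmem, h0, map_zero]
  · rw [Polynomial.aeval_algHom_apply, Polynomial.aeval_algHom_apply]
    rw [show mk (aeval (MvPolynomial.X i) (p i)) = 0 from
      Ideal.Quotient.eq_zero_iff_mem.2 (hpP i), map_zero]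
  · have h0 : ((l.map fun i => (MvPolynomial.X i : MvPolynomial ι ℚ)).prod -
        algebraMap ℚ _ c) ∈ P ↔ (l.map φ).prod x = c • x := by
      have h4 : (⇑ρ' ∘ fun i => (MvPolynomial.X i : MvPolynomial ι ℚ)) = φ := by
        funext i
        exact hρX i
      rw [hmem, map_sub, map_list_prod, List.map_map, AlgHom.commutes, LinearMap.sub_apply,
        Module.algebraMap_end_apply, sub_eq_zero, h4]
    rw [← h0]
    have h1 : e (mk ((l.map fun i => (MvPolynomial.X i : MvPolynomial ι ℚ)).prod -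
        algebraMap ℚ _ c)) = (l.map fun i => e (mk (MvPolynomial.X i))).prod -
          algebraMap ℚ Qb c := by
      rw [map_sub, map_sub, map_list_prod, map_list_prod, List.map_map, List.map_map,
        AlgHom.commutes, AlgHom.commutes]
      rfl
    rw [← sub_eq_zero, ← h1]
    constructor
    · intro h2
      exact Ideal.Quotient.eq_zero_iff_mem.1 (he (h2.trans (map_zero e).symm))
    · intro h2
      rw [show mk _ = 0 from Ideal.Quotient.eq_zero_iff_mem.2 h2, map_zero]

end Pool.Agent.Q56.CP
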