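import Pool.Agent.Q56.CP.Prod
import Pool.Agent.Q56.CP.Eig

/-!
# Vanishing of a theory on products, from splittings
-/

set_option autoImplicit false
set_option linter.unusedSectionVars false

open CategoryTheory AlgebraicGeometry

universe u v w

namespace Pool.Agent.Q56.CP

open Module Polynomial Pool.Agent.H914 Pool.Agent.H914.VarClass Pool.Agent.H914.VarClass.Obj
  Pool.Agent.W492.BB Pool.Agent.W550.Corr Pool.Agent.TH133 Pool.Agent.W484.CH Pool.Agent.Q56.FD

variable {k : Type u} [Field k] {𝒱 : VarClass k}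

/-! ### Blocks -/

section blocks

variable {ι : Type} {X : ι → 𝒱.Obj} {Z Z' A Y : 𝒱.Obj} {pr : ∀ i, Z ⟶ X i}
  {Fr : ∀ X : 𝒱.Obj, X ⟶ X}

/-- The product over a one-element set. -/
lemma IsProd.single (X : ι → 𝒱.Obj) (i : ι) :
    ∃ prA : ∀ j : {j // j ∈ ({i} : Finset ι)}, X i ⟶ X j,
      IsProd (fun j : {j // j ∈ ({i} : Finset ι)} => X j) (X i) prA := by
  refine ⟨fun j => eqToHom (by rw [Finset.mem_singleton.1 j.2]), ?_, ?_⟩
  · intro W f
    refine ⟨f ⟨i, Finset.mem_singleton_self i⟩, fun j => ?_⟩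
    obtain ⟨j, hj⟩ := j
    obtain rfl := Finset.mem_singleton.1 hj
    rw [eqToHom_refl, Category.comp_id]
  · intro W g g' hh
    have := hh ⟨i, Finset.mem_singleton_self i⟩
    rwa [eqToHom_refl, Category.comp_id, Category.comp_id] at this

/-- The two possible positions of a block. -/
lemma exists_block [Finite ι] (h : IsProd X Z pr)
    (hnat : ∀ {X Y : 𝒱.Obj} (f : X ⟶ Y), Fr X ≫ f = f ≫ Fr Y) {B : Finset ι} {φ : Z ⟶ Z}
    (hφ : IsPF Fr pr B φ) {prA : ∀ i : {i // i ∈ B}, A ⟶ X i}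
    (hA : IsProd (fun i : {i // i ∈ B} => X i) A prA) :
    ((∀ i, i ∈ B) ∧ ∃ (g : A ⟶ Z) (f : Z ⟶ A), g ≫ f = 𝟙 A ∧ f ≫ g = 𝟙 Z ∧
      Fr A ≫ g = g ≫ φ) ∨
    (Nonempty {i // ¬ i ∈ B} ∧ ∃ (Y : 𝒱.Obj) (prY : ∀ i : {i // ¬ i ∈ B}, Y ⟶ X i)
      (g : A.prod Y ⟶ Z) (f : Z ⟶ A.prod Y),
      IsProd (fun i : {i // ¬ i ∈ B} => X i) Y prY ∧ g ≫ f = 𝟙 _ ∧ f ≫ g = 𝟙 Z ∧
      prodMap (Fr A) (𝟙 Y) ≫ g = g ≫ φ) := by
  by_cases hB : ∀ i, i ∈ B
  · left
    refine ⟨hB, ?_⟩
    have hA' : IsProd X A (fun i => prA ⟨i, hB i⟩) := by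
      refine ⟨fun f => ?_, fun hh => hA.ext fun i => hh i⟩
      obtain ⟨g, hg⟩ := hA.lift fun i => f i
      exact ⟨g, fun i => hg ⟨i, hB i⟩⟩
    obtain ⟨g, f, h1, h2, h3, -⟩ := hA'.iso h
    refine ⟨g, f, h1, h2, ?_⟩
    have h4 : IsPF Fr (fun i => prA ⟨i, hB i⟩) B (Fr A) :=
      ⟨fun i _ => hnat _, fun i hi => absurd (hB i) hi⟩
    exact hφ.iso h h4 h3
  · right
    push Not at hB
    obtain ⟨i, hi⟩ := hB
    have hne : Nonempty {i // ¬ i ∈ B} := ⟨⟨i, hi⟩⟩
    obtain ⟨Y, prY, hY⟩ := IsProd.exists_prod {i // ¬ i ∈ B} hne fun i => X i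
    have hm := IsProd.merge (X := X) (p := (· ∈ B)) hA hY
    obtain ⟨g, f, h1, h2, h3, -⟩ := hm.iso h
    exact ⟨hne, Y, prY, g, f, hY, h1, h2,
      hφ.iso h (IsPF.merge hnat prA prY) h3⟩

end blocks

variable {C : TheoryData.{u, v, 0} 𝒱 ℚ} [hC : IsChowProj C] {T : CorrData C}
  (hT : IsCorrTheory T)

/-! ### Injective pull-backs -/

section inj

variable {X Y Z : 𝒱.Obj}

include hT

lemma pullT_injective_of_iso {f : X ⟶ Y} {g : Y ⟶ X} (h : g ≫ f = 𝟙 Y) :
    Function.Injective (pullT T f) := by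
  intro a b hab
  have h1 : ∀ c : T.M Y, pullT T g (pullT T f c) = c := by
    intro c
    rw [← pullT_comp hT, h, pullT_id hT]
  rw [← h1 a, hab, h1]

lemma pullT_snd_injective (X Y : 𝒱.Obj) : Function.Injective (pullT T (snd X Y)) := by
  obtain ⟨a, ha, -, ha2⟩ := exists_deg_one C X
  have h0 : C.cograph (snd X Y) = extBy C Y (1 : C.A X) := by
    rw [extBy, map_one]
    rfl
  have h2 : C.comp (extBy C Y (1 : C.A X)) (pairBy C Y a) = dg C Y := by
    rw [comp_extBy_pairBy C a 1 (chow_mul_comm _ _) 1 (by rw [one_mul, ha2 Y, one_smul]),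
      one_smul]
  intro z z' hz
  have h3 : ∀ z : T.M Y, T.act (pairBy C Y a) (pullT T (snd X Y) z) = z := by
    intro z
    rw [pullT, h0, ← hT.act_comp, h2]
    exact hT.act_id z
  rw [← h3 z, hz, h3]

lemma pullT_fst_injective (X Y : 𝒱.Obj) : Function.Injective (pullT T (fst X Y)) := by
  have h1 : fst X Y = sw X Y ≫ snd Y X := (lift_snd _ _).symm
  intro z z' hz
  rw [h1, pullT_comp hT, pullT_comp hT] at hz
  exact pullT_snd_injective hT Y X (pullT_injective_of_iso hT (f := sw X Y) (g := sw Y X) sw_sw hz)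

end inj

/-! ### Operators on the graded pieces -/

section opr

variable {Z : 𝒱.Obj}

/-- The pull-back on a graded piece. -/
noncomputable def opr (φ : Z ⟶ Z) (r : ℤ) : Module.End ℚ (T.gr Z r) :=
  (pullT T φ).restrict fun _ hm => pullT_mem hT φ hm

lemma opr_apply (φ : Z ⟶ Z) (r : ℤ) (z : T.gr Z r) :
    (opr hT φ r z : T.M Z) = pullT T φ z := rfl

lemma opr_comm {φ ψ : Z ⟶ Z} (h : φ ≫ ψ = ψ ≫ φ) (r : ℤ) :
    opr hT φ r * opr hT ψ r = opr hT ψ r * opr hT φ r := by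
  refine LinearMap.ext fun z => Subtype.ext ?_
  change pullT T φ (pullT T ψ z) = pullT T ψ (pullT T φ z)
  rw [← pullT_comp hT, ← pullT_comp hT, h]

lemma aeval_opr (φ : Z ⟶ Z) (r : ℤ) (P : ℚ[X]) (z : T.gr Z r) :
    (aeval (opr hT φ r) P z : T.M Z) = aeval (pullT T φ) P (z : T.M Z) := by
  induction P using Polynomial.induction_on' with
  | add p q hp hq => rw [map_add, map_add, LinearMap.add_apply, LinearMap.add_apply,
      Submodule.coe_add, hp, hq]
  | monomial n a =>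
    have h1 : ∀ n : ℕ, (((opr hT φ r) ^ n) z : T.M Z) = ((pullT T φ) ^ n) (z : T.M Z) := by
      intro n
      induction n with
      | zero => rfl
      | succ n ih => rw [pow_succ', pow_succ', Module.End.mul_apply, Module.End.mul_apply,
          opr_apply, ih]
    rw [aeval_monomial, aeval_monomial, Module.End.mul_apply, Module.End.mul_apply,
      Module.algebraMap_end_apply, Module.algebraMap_end_apply, Submodule.coe_smul, h1]

lemma aeval_intertwine {V V' : Type*} [AddCommGroup V] [Module ℚ V] [AddCommGroup V']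
    [Module ℚ V'] {φ : Module.End ℚ V} {φ' : Module.End ℚ V'} {g : V →ₗ[ℚ] V'}
    (h : ∀ z, φ' (g z) = g (φ z)) (P : ℚ[X]) (z : V) :
    aeval φ' P (g z) = g (aeval φ P z) := by
  induction P using Polynomial.induction_on' with
  | add p q hp hq => rw [map_add, map_add, LinearMap.add_apply, LinearMap.add_apply,
      map_add, hp, hq]
  | monomial n a =>
    have h1 : ∀ n : ℕ, (φ' ^ n) (g z) = g ((φ ^ n) z) := by
      intro n
      induction n with
      | zero => rfl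
      | succ n ih => rw [pow_succ', pow_succ', Module.End.mul_apply, Module.End.mul_apply,
          ih, h]
    rw [aeval_monomial, aeval_monomial, Module.End.mul_apply, Module.End.mul_apply,
      Module.algebraMap_end_apply, Module.algebraMap_end_apply, map_smul, h1]

end opr

section self

variable {A Z0 : 𝒱.Obj} {f : A ⟶ A} {q : ℕ}

include hT

/-- The splitting lemma for `A` itself. -/
lemma eq_zero_of_split_self {j : ℕ} (hq : 1 < q) (hpow : ActsAsPower T f q) (hs : Split C f q j)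
    (h0 : T.gr Z0 0 = ⊥) {r : ℤ} {z : T.M A} (hz : z ∈ T.gr A r)
    (hf : pullT T f z = ((q : ℚ) ^ j) • z) : z = 0 := by
  by_contra hz0
  have hq0 : (q : ℚ) ≠ 0 := by exact_mod_cast (by omega : q ≠ 0)
  have hrj : r = j := by
    have h4 : pullT T f z = ((q : ℚ) ^ r) • z := hpow r _ hz
    rw [hf] at h4
    have h5 : ((q : ℚ) ^ j - (q : ℚ) ^ r) • z = 0 := by
      rw [sub_smul, h4, sub_self]
    have h6 := (smul_eq_zero.1 h5).resolve_right hz0
    rw [sub_eq_zero, ← zpow_natCast] at h6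
    have h7 : (1 : ℚ) < q := by exact_mod_cast hq
    exact (zpow_right_injective₀ (by linarith) h7.ne' h6).symm
  subst hrj
  apply hz0
  apply pullT_fst_injective hT A Z0
  rw [map_zero]
  refine eq_zero_of_split hT hs (r := (j : ℤ)) (Y := Z0) ?_ (pullT_mem hT _ hz) ?_
  · rw [sub_self]
    exact h0
  · rw [← pullT_comp hT, prodMap_fst, pullT_comp hT, hf, map_smul]

/-- If the motive of `A` splits for all eigenvalues, the theory vanishes. -/
lemma vanish_self (hq : 1 < q) (hpow : ActsAsPower T f q) (hs : ∀ j, Split C f q j)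
    (h0 : T.gr Z0 0 = ⊥) {r : ℤ} (hr : 0 ≤ r) : T.gr A r = ⊥ := by
  rw [eq_bot_iff]
  intro z hz
  obtain ⟨j, rfl⟩ := Int.eq_ofNat_of_zero_le hr
  have h4 : pullT T f z = ((q : ℚ) ^ (j : ℤ)) • z := hpow j _ hz
  rw [zpow_natCast] at h4
  exact (Submodule.mem_bot _).2 (eq_zero_of_split_self hT hq hpow (hs j) h0 hz h4)

end self

section main

variable {Fr : ∀ X : 𝒱.Obj, X ⟶ X}
  (hnat : ∀ {X Y : 𝒱.Obj} (f : X ⟶ Y), Fr X ≫ f = f ≫ Fr Y)

include hT hnat

/-- Polynomial relations for the Frobenius endomorphism of one factor. -/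
lemma aeval_pf {ι : Type} [Finite ι] {X : ι → 𝒱.Obj} {Z : 𝒱.Obj} {pr : ∀ i, Z ⟶ X i}
    (h : IsProd X Z pr) {i : ι} {φ : Z ⟶ Z} (hφ : IsPF Fr pr {i} φ) {P : ℚ[X]}
    (hP : aeval (fr C (Fr (X i))) P = 0) (z : T.M Z) : aeval (pullT T φ) P z = 0 := by
  obtain ⟨prA, hA⟩ := IsProd.single X i
  rcases exists_block h hnat hφ hA with ⟨-, g, f, h1, h2, h3⟩ | ⟨-, Y, prY, g, f, -, h1, h2, h3⟩
  · apply pullT_injective_of_iso hT h2
    rw [map_zero, ← aeval_intertwine (φ' := tau0 hT (X i) (fr C (Fr (X i)))),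
      Polynomial.aeval_algHom_apply, hP, map_zero, LinearMap.zero_apply]
    intro z
    rw [tau0_fr, ← pullT_comp hT, ← pullT_comp hT, h3]
  · apply pullT_injective_of_iso hT h2
    rw [map_zero, ← aeval_intertwine (φ' := tau hT (X i) Y (fr C (Fr (X i)))),
      Polynomial.aeval_algHom_apply, hP, map_zero, LinearMap.zero_apply]
    intro z
    rw [tau_fr, ← pullT_comp hT, ← pullT_comp hT, h3]

omit hnat in
/-- Products of the operators. -/
lemma list_opr {ι : Type} {X : ι → 𝒱.Obj} {Z : 𝒱.Obj} {pr : ∀ i, Z ⟶ X i}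
    (h : IsProd X Z pr) {φ : ι → (Z ⟶ Z)} (hφ : ∀ i, IsPF Fr pr {i} (φ i)) (r : ℤ)
    (z : T.gr Z r) : ∀ (l : List ι), l.Nodup → ∀ (B : Finset ι), (∀ i, i ∈ B ↔ i ∈ l) →
    ∀ ψ : Z ⟶ Z, IsPF Fr pr B ψ →
      (((l.map fun i => opr hT (φ i) r).prod z : T.gr Z r) : T.M Z) = pullT T ψ z := by
  classical
  intro l
  induction l with
  | nil =>
    intro _ B hB ψ hψ
    have hB0 : B = ∅ := Finset.eq_empty_of_forall_notMem fun i hi => by
      have := (hB i).1 hi
      simp at this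
    subst hB0
    rw [hψ.unique h IsPF.empty, pullT_id hT]
    rfl
  | cons i l ih =>
    intro hnd B hB ψ hψ
    rw [List.nodup_cons] at hnd
    obtain ⟨ψ', hψ'⟩ := exists_PF (Fr := Fr) h l.toFinset
    have hil : i ∉ l.toFinset := by rw [List.mem_toFinset]; exact hnd.1
    have hBe : B = insert i l.toFinset := by
      ext j
      rw [hB, List.mem_cons, Finset.mem_insert, List.mem_toFinset]
    subst hBe
    have h1 := hψ'.insert hil (hφ i)
    have h2 : ψ' ≫ φ i = φ i ≫ ψ' := by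
      refine h.ext fun j => ?_
      rw [Category.assoc, Category.assoc]
      by_cases hji : j = i
      · subst hji
        rw [(hφ j).1 j (Finset.mem_singleton_self j), hψ'.2 j hil,
          ← Category.assoc, hψ'.2 j hil, (hφ j).1 j (Finset.mem_singleton_self j)]
      · have hjs : j ∉ ({i} : Finset ι) := by rwa [Finset.mem_singleton]
        rw [(hφ i).2 j hjs]
        by_cases hjl : j ∈ l.toFinset
        · rw [hψ'.1 j hjl, ← Category.assoc, (hφ i).2 j hjs]
        · rw [hψ'.2 j hjl, (hφ i).2 j hjs]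
    rw [hψ.unique h h1, h2, pullT_comp hT, List.map_cons, List.prod_cons, Module.End.mul_apply,
      opr_apply, ih hnd.2 l.toFinset (fun j => List.mem_toFinset) ψ' hψ']

variable {q : ℕ} (hq : 1 < q) (hpow : ∀ X, ActsAsPower T (Fr X) q)

/-- The combinatorial hypothesis: every relation between the eigenvalues contains a block for which
the motive splits, unless the theory is known to vanish on the product. -/
def HasBlocks (T : CorrData C) (Fr : ∀ X : 𝒱.Obj, X ⟶ X) (q : ℕ)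
    (𝒜 : ∀ ι : Type, (ι → 𝒱.Obj) → Prop) (R : 𝒱.Obj → Set Qb) : Prop :=
  ∀ (ι : Type) [Fintype ι] [Nonempty ι] (X : ι → 𝒱.Obj), 𝒜 ι X → ∀ α : ι → Qb,
    (∀ i, α i ∈ R (X i)) → ∀ r : ℤ, ∏ i, α i = (q : Qb) ^ r →
    (∀ (Z : 𝒱.Obj) (pr : ∀ i, Z ⟶ X i), IsProd X Z pr → T.gr Z r = ⊥) ∨
    ∃ B : Finset ι, B.Nonempty ∧ (∃ j : ℕ, ∏ i ∈ B, α i = (q : Qb) ^ j ∧
      ∀ (A : 𝒱.Obj) (prA : ∀ i : {i // i ∈ B}, A ⟶ X i),
        IsProd (fun i : {i // i ∈ B} => X i) A prA → Split C (Fr A) q j) ∧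
      (Nonempty {i // ¬ i ∈ B} → 𝒜 {i // ¬ i ∈ B} fun i => X i)

include hq hpow in
/-- **The vanishing theorem.** -/
theorem vanish_gen {𝒜 : ∀ ι : Type, (ι → 𝒱.Obj) → Prop} {R : 𝒱.Obj → Set Qb}
    (hB : HasBlocks T Fr q 𝒜 R)
    (hpoly : ∀ (ι : Type) (X : ι → 𝒱.Obj), 𝒜 ι X → ∀ i, ∃ P : ℚ[X], P ≠ 0 ∧
      aeval (fr C (Fr (X i))) P = 0 ∧ ∀ α : Qb, aeval α P = 0 → α ∈ R (X i))
    {Z0 : 𝒱.Obj} (h0 : T.gr Z0 0 = ⊥) :
    ∀ (n : ℕ) (ι : Type) [Fintype ι] [Nonempty ι], Fintype.card ι = n → ∀ X : ι → 𝒱.Obj,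
      𝒜 ι X → ∀ (Z : 𝒱.Obj) (pr : ∀ i, Z ⟶ X i), IsProd X Z pr →
      ∀ r : ℤ, T.gr Z r = ⊥ := by
  classical
  intro n
  induction n using Nat.strong_induction_on with
  | _ n ih =>
  intro ι _ _ hn X hX Z pr h r
  by_contra hne
  have hnt : Nontrivial (T.gr Z r) := by
    rw [Submodule.nontrivial_iff_ne_bot]
    exact hne
  choose φ hφ using fun i : ι => exists_PF (Fr := Fr) h {i}
  choose P hP0 hP hPR using hpoly ι X hX
  obtain ⟨z, α, hz0, hα, hrel⟩ := exists_common (fun i => opr hT (φ i) r)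
    (fun i j => opr_comm hT ((hφ i).comm h (hφ j)) r) (fun i => P i)
    (fun i => hP0 _) (fun i => LinearMap.ext fun z => Subtype.ext (by
      rw [aeval_opr]
      exact aeval_pf hT hnat h (hφ i) (hP _) _))
  have hz0' : (z : T.M Z) ≠ 0 := fun h => hz0 (Subtype.ext h)
  have hq0 : (q : ℚ) ≠ 0 := by exact_mod_cast (by omega : q ≠ 0)
  -- the total relation
  have htot : ∏ i, α i = (q : Qb) ^ r := by
    have h1 := list_opr hT h hφ r z Finset.univ.toList (Finset.nodup_toList _) Finset.univ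
      (fun i => by simp) (Fr Z) (IsPF.univ hnat)
    have h2 : pullT T (Fr Z) (z : T.M Z) = ((q : ℚ) ^ r) • (z : T.M Z) := hpow Z r z z.2
    have h3 := (hrel Finset.univ.toList ((q : ℚ) ^ r)).2 (Subtype.ext (by
      rw [h1, h2]
      rfl))
    rw [Finset.prod_map_toList, map_zpow₀, map_natCast] at h3
    exact h3
  rcases hB ι X hX α (fun i => hPR _ _ (hα i)) r htot with hbase |
    ⟨B, hBne, ⟨j, hj, hsplit⟩, hadm⟩
  · exact hne (hbase Z pr h)
  -- the block
  obtain ⟨ψ, hψ⟩ := exists_PF (Fr := Fr) h B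
  have hψz : pullT T ψ (z : T.M Z) = ((q : ℚ) ^ j) • (z : T.M Z) := by
    have h1 := list_opr hT h hφ r z B.toList (Finset.nodup_toList _) B
      (fun i => by simp) ψ hψ
    have h2 := (hrel B.toList ((q : ℚ) ^ j)).1 (by
      rw [Finset.prod_map_toList, hj, map_pow, map_natCast])
    rw [← h1, h2]
    rfl
  have hBne' : Nonempty {i // i ∈ B} := ⟨⟨hBne.choose, hBne.choose_spec⟩⟩
  obtain ⟨A, prA, hA⟩ := IsProd.exists_prod {i // i ∈ B} hBne' fun i => X i
  rcases exists_block h hnat hψ hA with ⟨-, g, f, h1, h2, h3⟩ |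
    ⟨hne', Y, prY, g, f, hY, h1, h2, h3⟩
  · -- the block is everything
    have hz1 : pullT T g (z : T.M Z) ∈ T.gr A r := pullT_mem hT g z.2
    have hz2 : pullT T (Fr A) (pullT T g (z : T.M Z)) = ((q : ℚ) ^ j) • pullT T g (z : T.M Z) := by
      rw [← pullT_comp hT, h3, pullT_comp hT, hψz, map_smul]
    have hz3 : pullT T g (z : T.M Z) ≠ 0 := fun h4 =>
      hz0' (pullT_injective_of_iso hT h2 (h4.trans (map_zero _).symm))
    exact hz3 (eq_zero_of_split_self hT hq (hpow A) (hsplit A prA hA) h0 hz1 hz2)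
  · have hz1 : pullT T g (z : T.M Z) ∈ T.gr (A.prod Y) r := pullT_mem hT g z.2
    have hz2 : pullT T (prodMap (Fr A) (𝟙 Y)) (pullT T g (z : T.M Z)) =
        ((q : ℚ) ^ j) • pullT T g (z : T.M Z) := by
      rw [← pullT_comp hT, h3, pullT_comp hT, hψz, map_smul]
    apply hz0'
    apply pullT_injective_of_iso hT h2
    rw [map_zero]
    refine eq_zero_of_split hT (hsplit A prA hA) (r := r) (Y := Y) ?_ hz1 hz2
    have hcard : Fintype.card {i // ¬ i ∈ B} < n := by
      rw [← hn]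
      obtain ⟨b, hb⟩ := hBne
      exact Fintype.card_subtype_lt (x := b) (not_not.2 hb)
    exact ih _ hcard {i // ¬ i ∈ B} rfl (fun i => X i) (hadm hne') Y prY hY _

end main

end Pool.Agent.Q56.CP
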