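import Pool.Agent.Q56.CP.Geo
import Pool.Agent.Q56.CP.Vanish

/-!
# The theories of numerically trivial cycles and of transcendental Tate classes
-/

set_option autoImplicit false
set_option linter.unusedSectionVars false

open CategoryTheory AlgebraicGeometry

universe u v w

namespace Pool.Agent.Q56.CP

open Module Polynomial Pool.Agent.H914 Pool.Agent.H914.VarClass Pool.Agent.H914.VarClass.Obj
  Pool.Agent.W492.BB Pool.Agent.W550.Corr Pool.Agent.TH133 Pool.Agent.W484.CH Pool.Agent.Q56.FD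

variable {k : Type u} [Field k] {𝒱 : VarClass k} {C : TheoryData.{u, v, 0} 𝒱 ℚ} {K : Type w}
  [Field K] [CharZero K] (H : WeilTheoryData.{u, v, w} C K) [hC : IsChowProj C]
  [hH : IsWeilProj H] {X Y Z : 𝒱.Obj}

/-! ### Numerically trivial cycles -/

/-- The space of the numerically trivial classes in `CH^i(X)`. -/
noncomputable def numTriv (X : 𝒱.Obj) (i : ℤ) : Submodule ℚ (C.A X) where
  carrier := {z | z ∈ C.gr X i ∧ ∀ w ∈ C.gr X (X.dim - i), H.tr X (H.cl (w * z)) = 0}
  zero_mem' := ⟨Submodule.zero_mem _, fun w _ => by rw [mul_zero, map_zero, map_zero]⟩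
  add_mem' := fun {a b} ha hb => ⟨Submodule.add_mem _ ha.1 hb.1, fun w hw => by
    rw [mul_add, map_add, map_add, ha.2 w hw, hb.2 w hw, add_zero]⟩
  smul_mem' := fun c {a} ha => ⟨Submodule.smul_mem _ _ ha.1, fun w hw => by
    rw [mul_smul_comm, cl_smul, map_smul, ha.2 w hw, smul_zero]⟩

lemma numTriv_act {i j : ℤ} {Γ : C.A (X.prod Y)} {m : C.A X} (hΓ : C.Deg (X.dim + j) Γ)
    (hm : m ∈ numTriv H X i) : C.act Γ m ∈ numTriv H Y (i + j) := by
  refine ⟨act_mem_chow hΓ hm.1, fun w hw => ?_⟩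
  rw [map_mul (H.cl (X := Y)), ← act_cl_cl, ← tr_act', act_cl_cl, ← map_mul (H.cl (X := X))]
  refine hm.2 _ ?_
  have h1 : C.Deg ((Y.dim : ℤ) + ((X.dim : ℤ) + j - Y.dim)) (tp C Γ) := by
    have h2 := tp_mem C hΓ
    have h3 : (Y.dim : ℤ) + ((X.dim : ℤ) + j - Y.dim) = (X.dim : ℤ) + j := by ring
    rw [h3]
    exact h2
  have h2 := act_mem_chow h1 hw
  have h3 : (Y.dim : ℤ) - (i + j) + ((X.dim : ℤ) + j - Y.dim) = X.dim - i := by ring
  rw [h3] at h2
  exact h2

/-- The numerically trivial cycles, as a theory on which correspondences act. -/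
noncomputable def numData : CorrData C where
  M := C.A
  gr := numTriv H
  act := actB C

lemma numData_isCorr : IsCorrTheory (numData H) where
  app_mem := fun hΓ hm => numTriv_act H hΓ hm
  app_comp := fun Γ Δ m => C.act_comp Γ Δ m
  app_id := fun m => act_dg C m

lemma numData_power {f : X ⟶ X} {q : ℕ} (hf : IsFrobenius C f q) :
    ActsAsPower (numData H) f q := fun i m hm => act_frobenius hf i m hm.1

lemma numTriv_zero (X : 𝒱.Obj) : numTriv H X 0 = ⊥ := by
  rw [eq_bot_iff]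
  intro z hz
  obtain ⟨hz1, hz2⟩ := hz
  obtain ⟨c, hc⟩ := hC.gr_zero X z hz1
  obtain ⟨a, ha, ha1, -⟩ := exists_deg_one C X
  have h1 := hz2 a (by rw [sub_zero]; exact ha)
  rw [hc, mul_smul_comm, mul_one, cl_smul, map_smul, smul_eq_mul] at h1
  rcases mul_eq_zero.1 h1 with h2 | h2
  · rw [Rat.cast_eq_zero] at h2
    rw [Submodule.mem_bot, hc, h2, zero_smul]
  · exfalso
    -- the trace of a zero-cycle of degree one is not zero
    apply hH.one_ne_zero X
    apply H.nondeg
    intro b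
    rw [one_mul]
    refine homog_induction H.toTheoryData (p := fun b => H.tr X b = 0) ?_ ?_ b
    · intro i b hb
      by_cases hi : i = 2 * X.dim
      · have h3 : H.cl a ∈ H.gr X (2 * X.dim) := H.cl_mem ha
        -- `b * 1 = b`, and `b` is a multiple of the class of a point
        have h4 : H.tr (X.prod X) (H.pull (fst X X) b * H.pull (snd X X) (H.cl a)) = H.tr X b := by
          rw [tr_fst, ← H.cl_pull, ← H.cl_push, ha1 X, map_one, mul_one]
        have h5 := H.push_mem (snd X X) (H.pull_mem (fst X X) hb)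
        have h6 : i + 2 * ((X.dim : ℤ) - (X.prod X).dim) = 0 := by
          rw [Obj.dim_prod]
          push_cast
          rw [hi]
          ring
        rw [h6] at h5
        obtain ⟨c', hc'⟩ := hH.gr_zero X _ h5
        rw [← h4, tr_snd, hc', smul_mul_assoc, one_mul, map_smul, h2, smul_zero]
      · exact tr_zero H hb hi
    · intro a b ha hb
      rw [map_add, ha, hb, add_zero]

lemma ratEqNum_of (h : ∀ i : ℤ, numTriv H X i = ⊥) : RatEqNum H X := by
  intro i z hz hnum
  have h1 : z ∈ numTriv H X i := by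
    refine ⟨hz, fun w hw => ?_⟩
    rcases le_or_gt i X.dim with hi | hi
    · rw [ch_comm C]
      exact hnum (X.dim - i) w (by omega) (by
        have h2 : ((X.dim - i : ℕ) : ℤ) = (X.dim : ℤ) - i := by omega
        rw [h2]
        exact hw)
    · rw [hC.gr_top X i z hz (by exact_mod_cast hi), mul_zero, map_zero, map_zero]
  rw [h, Submodule.mem_bot] at h1
  exact h1

variable {H} in
lemma num_of_ratEqNum (h : RatEqNum H X) (i : ℤ) : numTriv H X i = ⊥ := by
  rw [eq_bot_iff]
  intro z hz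
  obtain ⟨hz1, hz2⟩ := hz
  rw [Submodule.mem_bot]
  rcases lt_or_ge i 0 with hi | hi
  · rw [C.gr_neg X i hi, Submodule.mem_bot] at hz1
    exact hz1
  · obtain ⟨n, rfl⟩ := Int.eq_ofNat_of_zero_le hi
    refine h n z hz1 fun j w hij hw => ?_
    have h2 := hz2 w (by
      have h3 : (X.dim : ℤ) - n = j := by omega
      rw [h3]
      exact hw)
    rw [ch_comm C] at h2
    exact h2

/-! ### The Frobenius endomorphism and correspondences -/

section frob

variable {H} {fX : X ⟶ X} {fY : Y ⟶ Y} {q : ℕ}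

lemma push_pull_frob (hX : IsFrobenius C fX q) (x : H.A X) :
    H.push fX (H.pull fX x) = ((q : K) ^ X.dim) • x := by
  have h1 := H.proj_right fX 1 x
  rw [one_mul, push_frob hX, smul_mul_assoc, one_mul] at h1
  exact h1

lemma push_frob_injective [Module.Finite K (H.A X)] (hq : q ≠ 0) (hX : IsFrobenius C fX q) :
    Function.Injective (H.push fX) := by
  have hqK : (q : K) ≠ 0 := by exact_mod_cast hq
  apply LinearMap.injective_iff_surjective.2
  intro x
  refine ⟨((q : K) ^ X.dim)⁻¹ • H.pull fX x, ?_⟩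
  rw [map_smul, push_pull_frob hX, inv_smul_smul₀ (pow_ne_zero _ hqK)]

lemma frob_push [Module.Finite K (H.A Y)] (hq : q ≠ 0) (hX : IsFrobenius C fX q)
    (hY : IsFrobenius C fY q) (g : X ⟶ Y) (hg : fX ≫ g = g ≫ fY) (x : H.A X) :
    H.pull fY (H.push g x) = ((q : K) ^ ((Y.dim : ℤ) - X.dim)) • H.push g (H.pull fX x) := by
  have hqK : (q : K) ≠ 0 := by exact_mod_cast hq
  apply push_frob_injective hq hY
  rw [push_pull_frob hY, map_smul, ← H.push_comp, ← hg, H.push_comp, push_pull_frob hX,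
    map_smul, smul_smul, ← zpow_natCast, ← zpow_natCast, ← zpow_add₀ hqK, sub_add_cancel]

end frob

/-- The Frobenius endomorphisms, compatible with all morphisms. -/
structure IsFrobFamily (C : TheoryData.{u, v, 0} 𝒱 ℚ) (Fr : ∀ X : 𝒱.Obj, X ⟶ X) (q : ℕ) :
    Prop where
  nat : ∀ {X Y : 𝒱.Obj} (f : X ⟶ Y), Fr X ≫ f = f ≫ Fr Y
  frob : ∀ X, IsFrobenius C (Fr X) q

section act

variable {H} {Fr : ∀ X : 𝒱.Obj, X ⟶ X} {q : ℕ} (hF : IsFrobFamily C Fr q) (hq : q ≠ 0)

include hF hq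

lemma pull_cl_zpow {j : ℤ} {z : C.A X} (hz : z ∈ C.gr X j) :
    H.pull (Fr X) (H.cl z) = ((q : K) ^ j) • H.cl z := by
  have h1 := act_frobenius (hF.frob X) j z hz
  rw [C.act_cograph] at h1
  rw [← H.cl_pull, h1, cl_smul]
  congr 1
  push_cast
  rfl

/-- Correspondences and the Frobenius endomorphisms. -/
lemma frob_act [Module.Finite K (H.A Y)] {j : ℤ} {Γ : C.A (X.prod Y)}
    (hΓ : Γ ∈ C.gr (X.prod Y) (X.dim + j)) (x : H.A X) :
    H.pull (Fr Y) (H.act (H.cl Γ) x) =
      ((q : K) ^ j) • H.act (H.cl Γ) (H.pull (Fr X) x) := by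
  have hqK : (q : K) ≠ 0 := by exact_mod_cast hq
  rw [H.toTheoryData.act_apply, H.toTheoryData.act_apply,
    frob_push hq (hF.frob _) (hF.frob _) (snd X Y) (hF.nat _), map_mul,
    pull_cl_zpow hF hq hΓ, ← H.pull_comp, hF.nat, H.pull_comp, smul_mul_assoc, map_smul, smul_smul,
    ← zpow_add₀ hqK]
  congr 2
  rw [Obj.dim_prod]
  push_cast
  ring

end act

/-! ### Transcendental classes -/

/-- The span of the classes of all cycles. -/
noncomputable def aTot (X : 𝒱.Obj) : Submodule K (H.A X) :=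
  Submodule.span K {c | ∃ z : C.A X, c = H.cl z}

lemma act_aTot (Γ : C.A (X.prod Y)) :
    aTot H X ≤ (aTot H Y).comap (H.actL (H.cl Γ)) := by
  refine Submodule.span_le.2 ?_
  rintro _ ⟨z, rfl⟩
  refine Submodule.subset_span ⟨C.act Γ z, ?_⟩
  exact act_cl_cl Γ z

/-- The operator induced by a correspondence on the cohomology modulo algebraic classes. -/
noncomputable def trL (Γ : C.A (X.prod Y)) : (H.A X ⧸ aTot H X) →ₗ[K] (H.A Y ⧸ aTot H Y) :=
  Submodule.mapQ _ _ (H.actL (H.cl Γ)) (act_aTot H Γ)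

lemma trL_mk (Γ : C.A (X.prod Y)) (x : H.A X) :
    trL H Γ (Submodule.Quotient.mk x) = Submodule.Quotient.mk (H.act (H.cl Γ) x) := rfl

/-- The cohomology modulo algebraic classes is a vector space over `ℚ`. -/
noncomputable abbrev ratMod (X : 𝒱.Obj) : Module ℚ (H.A X ⧸ aTot H X) :=
  Module.compHom _ (algebraMap ℚ K)

/-- The classes in `H^(2i)(X)` modulo algebraic classes which are multiplied by `q ^ i` by the
Frobenius endomorphism, as a theory on which correspondences act. -/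
noncomputable def cohData (Fr : ∀ X : 𝒱.Obj, X ⟶ X) (q : ℕ) : CorrData C :=
  letI := ratMod H
  { M := fun X => H.A X ⧸ aTot H X
    module := ratMod H
    gr := fun X i =>
      { carrier := {m | (∃ x ∈ H.gr X (2 * i), Submodule.Quotient.mk x = m) ∧
          trL H (C.cograph (Fr X)) m = ((q : K) ^ i) • m}
        zero_mem' := ⟨⟨0, Submodule.zero_mem _, rfl⟩, by rw [map_zero, smul_zero]⟩
        add_mem' := by
          rintro a b ⟨⟨x, hx, rfl⟩, ha⟩ ⟨⟨y, hy, rfl⟩, hb⟩
          exact ⟨⟨x + y, Submodule.add_mem _ hx hy, rfl⟩, by rw [map_add, ha, hb, smul_add]⟩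
        smul_mem' := by
          rintro c a ⟨⟨x, hx, rfl⟩, ha⟩
          refine ⟨⟨(algebraMap ℚ K c) • x, Submodule.smul_mem _ _ hx, rfl⟩, ?_⟩
          change trL H _ ((algebraMap ℚ K c) • _) = ((q : K) ^ i) • ((algebraMap ℚ K c) • _)
          rw [map_smul, ha, smul_comm] }
    act := fun {X Y} => LinearMap.mk₂ ℚ (fun Γ m => trL H Γ m)
      (fun Γ Δ m => by
        obtain ⟨x, rfl⟩ := Submodule.Quotient.mk_surjective _ m
        rw [trL_mk, trL_mk, trL_mk, map_add (H.cl (X := X.prod Y)), H.toTheoryData.act_add]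
        rfl)
      (fun c Γ m => by
        obtain ⟨x, rfl⟩ := Submodule.Quotient.mk_surjective _ m
        change trL H (c • Γ) (Submodule.Quotient.mk x) =
          (algebraMap ℚ K c) • trL H Γ (Submodule.Quotient.mk x)
        rw [trL_mk, trL_mk, cl_smul, eq_ratCast]
        rw [H.toTheoryData.act_apply, smul_mul_assoc, map_smul]
        rfl)
      (fun Γ m n => map_add _ _ _)
      (fun c Γ m => by
        change trL H Γ ((algebraMap ℚ K c) • (m : H.A X ⧸ aTot H X)) =
          (algebraMap ℚ K c) • trL H Γ m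
        rw [map_smul]) }

section coh

variable {H} {Fr : ∀ X : 𝒱.Obj, X ⟶ X} {q : ℕ}

lemma proj_exists {V : Type*} [AddCommGroup V] [Module K V] {G : ℤ → Submodule K V}
    (hG : DirectSum.IsInternal G) (j : ℤ) :
    ∃ π : V →ₗ[K] V, (∀ x ∈ G j, π x = x) ∧ ∀ i, i ≠ j → ∀ x ∈ G i, π x = 0 := by
  classical
  let e : (DirectSum ℤ fun i => G i) ≃ₗ[K] V :=
    LinearEquiv.ofBijective (DirectSum.coeLinearMap G) hG
  have he : ∀ i (x : V) (hx : x ∈ G i),
      e.symm x = DirectSum.lof K ℤ (fun i => G i) i ⟨x, hx⟩ := by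
    intro i x hx
    rw [LinearEquiv.symm_apply_eq]
    exact (DirectSum.coeLinearMap_lof G i ⟨x, hx⟩).symm
  refine ⟨(G j).subtype ∘ₗ DirectSum.component K ℤ (fun i => G i) j ∘ₗ e.symm.toLinearMap, ?_, ?_⟩
  · intro x hx
    change ((DirectSum.component K ℤ (fun i => G i) j (e.symm x) : G j) : V) = x
    rw [he j x hx, DirectSum.component.lof_self]
  · intro i hi x hx
    change ((DirectSum.component K ℤ (fun i => G i) j (e.symm x) : G j) : V) = 0
    rw [he i x hx, DirectSum.component.of, dif_neg hi, Submodule.coe_zero]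

lemma mem_aSpan_of {j : ℕ} {x : H.A X} (hx : x ∈ H.gr X (2 * j)) (hx' : x ∈ aTot H X) :
    x ∈ aSpan H X j := by
  obtain ⟨π, hπ1, hπ2⟩ := proj_exists (H.isInternal X) (2 * j)
  have h1 : aTot H X ≤ (aSpan H X j).comap π := by
    refine Submodule.span_le.2 ?_
    rintro _ ⟨z, rfl⟩
    change π (H.cl z) ∈ aSpan H X j
    refine homog_induction C (p := fun z => π (H.cl z) ∈ aSpan H X j) ?_ ?_ z
    · intro i z hz
      by_cases hij : i = j
      · subst hij
        rw [hπ1 _ (H.cl_mem hz)]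
        exact Submodule.subset_span ⟨z, hz, rfl⟩
      · rw [hπ2 (2 * i) (by omega) _ (H.cl_mem hz)]
        exact Submodule.zero_mem _
    · intro a b ha hb
      rw [map_add, map_add]
      exact Submodule.add_mem _ ha hb
  rw [← hπ1 x hx]
  exact h1 hx'

lemma aSpan_le (j : ℕ) : aSpan H X j ≤ aTot H X := by
  refine Submodule.span_mono ?_
  rintro _ ⟨z, -, rfl⟩
  exact ⟨z, rfl⟩

lemma trL_frob (f : X ⟶ X) (x : H.A X) : trL H (C.cograph f) (Submodule.Quotient.mk x) =
    Submodule.Quotient.mk (H.pull f x) := by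
  rw [trL_mk, act_cl_cograph]

lemma mem_cohData {X : 𝒱.Obj} {i : ℤ} {m : H.A X ⧸ aTot H X} :
    m ∈ (cohData H Fr q).gr X i ↔ (∃ x ∈ H.gr X (2 * i), Submodule.Quotient.mk x = m) ∧
      trL H (C.cograph (Fr X)) m = ((q : K) ^ i) • m := Iff.rfl

lemma cohData_app {X Y : 𝒱.Obj} (Γ : C.A (X.prod Y)) (m : H.A X ⧸ aTot H X) :
    (cohData H Fr q).act Γ m = trL H Γ m := rfl

lemma act_memH {i j : ℤ} {Γ : C.A (X.prod Y)} (hΓ : Γ ∈ C.gr (X.prod Y) (X.dim + j)) {x : H.A X}
    (hx : x ∈ H.gr X (2 * i)) : H.act (H.cl Γ) x ∈ H.gr Y (2 * (i + j)) := by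
  rw [H.toTheoryData.act_apply]
  have h1 := H.push_mem (snd X Y) (H.mul_mem (H.cl_mem hΓ) (H.pull_mem (fst X Y) hx))
  have h2 : 2 * ((X.dim : ℤ) + j) + 2 * i + 2 * ((Y.dim : ℤ) - (X.prod Y).dim) =
      2 * (i + j) := by
    rw [Obj.dim_prod]
    push_cast
    ring
  rw [h2] at h1
  exact h1

lemma cohData_isCorr (hF : IsFrobFamily C Fr q) (hq : q ≠ 0)
    (hfin : ∀ X, Module.Finite K (H.A X)) : IsCorrTheory (cohData H Fr q) where
  app_mem := by
    intro X Y i j Γ m hΓ hm
    have hfY := hfin Y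
    have hqK : (q : K) ≠ 0 := by exact_mod_cast hq
    obtain ⟨⟨x, hx, rfl⟩, h2⟩ := mem_cohData.1 hm
    refine mem_cohData.2 ⟨⟨_, act_memH hΓ hx, rfl⟩, ?_⟩
    change trL H (C.cograph (Fr Y)) (trL H Γ (Submodule.Quotient.mk x)) =
      ((q : K) ^ (i + j)) • trL H Γ (Submodule.Quotient.mk x)
    rw [trL_mk, trL_frob, frob_act hF hq hΓ, Submodule.Quotient.mk_smul, ← trL_mk H Γ (H.pull _ x),
      ← trL_frob, h2, map_smul, smul_smul, ← zpow_add₀ hqK, add_comm j i]
    rfl
  app_comp := by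
    intro X Y Z Γ Δ m
    obtain ⟨x, rfl⟩ := Submodule.Quotient.mk_surjective _ m
    change trL H _ (Submodule.Quotient.mk x) = trL H _ (trL H _ (Submodule.Quotient.mk x))
    rw [trL_mk, trL_mk, trL_mk, act_cl_comp]
  app_id := by
    intro X m
    obtain ⟨x, rfl⟩ := Submodule.Quotient.mk_surjective _ m
    change trL H (dg C X) (Submodule.Quotient.mk x) = Submodule.Quotient.mk x
    rw [trL_mk, act_cl_dg]

lemma cohData_power : ActsAsPower (cohData H Fr q) (Fr X) q := by
  intro i m hm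
  have h1 := (mem_cohData.1 hm).2
  have h2 : ((q : K) ^ i) = algebraMap ℚ K ((q : ℚ) ^ i) := by
    rw [map_zpow₀, map_natCast]
  rw [h2] at h1
  exact h1

lemma cohData_zero (X : 𝒱.Obj) : (cohData H Fr q).gr X 0 = ⊥ := by
  rw [eq_bot_iff]
  intro m hm
  obtain ⟨⟨x, hx, hxm⟩, -⟩ := mem_cohData.1 hm
  rw [mul_zero] at hx
  obtain ⟨c, hc⟩ := hH.gr_zero X x hx
  have h1 : (Submodule.Quotient.mk x : H.A X ⧸ aTot H X) = 0 := by
    rw [Submodule.Quotient.mk_eq_zero, hc]
    refine Submodule.smul_mem _ _ (Submodule.subset_span ⟨1, ?_⟩)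
    rw [map_one]
  exact hxm.symm.trans h1

lemma strong_of_coh {j : ℕ} (h : (cohData H Fr q).gr X j = ⊥) :
    StrongTateAt H (Fr X) q j := by
  rintro x hx2 ⟨n, hn⟩
  induction n generalizing x with
  | zero =>
    rw [pow_zero, Module.End.one_apply] at hn
    rw [hn]
    exact Submodule.zero_mem _
  | succ n ih =>
    rw [pow_succ, Module.End.mul_apply] at hn
    have h1 := ih _ (shift_mem (Fr X) ((q : K) ^ j) hx2) hn
    have h2 : (Submodule.Quotient.mk x : H.A X ⧸ aTot H X) ∈ (cohData H Fr q).gr X j := by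
      refine mem_cohData.2 ⟨⟨x, hx2, rfl⟩, ?_⟩
      rw [trL_frob, zpow_natCast, ← Submodule.Quotient.mk_smul, Submodule.Quotient.eq]
      exact aSpan_le j h1
    rw [h] at h2
    have h3 : (Submodule.Quotient.mk x : H.A X ⧸ aTot H X) = 0 := h2
    rw [Submodule.Quotient.mk_eq_zero] at h3
    exact mem_aSpan_of hx2 h3

lemma coh_of_strong (hFam : IsFrobFamily C Fr q) {j : ℕ} (h : StrongTateAt H (Fr X) q j) :
    (cohData H Fr q).gr X j = ⊥ := by
  rw [eq_bot_iff]
  intro m hm
  obtain ⟨⟨x, hx, hxm⟩, h2⟩ := mem_cohData.1 hm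
  subst hxm
  rw [trL_frob, zpow_natCast, ← Submodule.Quotient.mk_smul, Submodule.Quotient.eq] at h2
  have h3 : (hF H (Fr X) - ((q : K) ^ j) • (1 : Module.End K (H.A X))) x ∈ aSpan H X j :=
    mem_aSpan_of (shift_mem _ _ hx) h2
  have h4 : ((hF H (Fr X) - ((q : K) ^ j) • (1 : Module.End K (H.A X))) ^ 2) x = 0 := by
    rw [pow_two, Module.End.mul_apply]
    rw [LinearMap.sub_apply (hF H (Fr X)), aSpan_eigen (hFam.frob X) h3]
    rw [LinearMap.smul_apply, Module.End.one_apply, sub_self]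
  have h5 : x ∈ aSpan H X j := h x hx ⟨2, h4⟩
  have h6 : (Submodule.Quotient.mk x : H.A X ⧸ aTot H X) = 0 := by
    rw [Submodule.Quotient.mk_eq_zero]
    exact aSpan_le j h5
  exact h6

end coh

end Pool.Agent.Q56.CP
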