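import Pool.Agent.W550.Corr.Basic

/-!
# Pure theories: definitions
-/

set_option autoImplicit false

open CategoryTheory AlgebraicGeometry

universe u v w

namespace Pool.Agent.Q56.CP

open Pool.Agent.H914 Pool.Agent.H914.VarClass Pool.Agent.H914.VarClass.Obj Pool.Agent.W492.BB

variable {k : Type u} [Field k] {𝒱 : VarClass k}

/-- A theory on which correspondences act: vector spaces `M(X)` over `ℚ` with subspaces `M^i(X)`
(`gr X i`) and an additive action of the classes in `CH(X × Y)` as maps `M(X) → M(Y)`, compatible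
with degrees, composition and identities. -/
structure Acted (C : TheoryData.{u, v, 0} 𝒱 ℚ) where
  M : 𝒱.Obj → Type v
  [group : ∀ X, AddCommGroup (M X)]
  [module : ∀ X, Module ℚ (M X)]
  gr : ∀ X, ℤ → Submodule ℚ (M X)
  act : ∀ {X Y : 𝒱.Obj}, C.A (X.prod Y) → M X → M Y
  act_add : ∀ {X Y : 𝒱.Obj} (Γ : C.A (X.prod Y)) (m n : M X), act Γ (m + n) = act Γ m + act Γ n
  add_act : ∀ {X Y : 𝒱.Obj} (Γ Δ : C.A (X.prod Y)) (m : M X), act (Γ + Δ) m = act Γ m + act Δ m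
  act_mem : ∀ {X Y : 𝒱.Obj} {i j : ℤ} {Γ : C.A (X.prod Y)} {m : M X}, C.Deg (X.dim + j) Γ →
    m ∈ gr X i → act Γ m ∈ gr Y (i + j)
  act_comp : ∀ {X Y Z : 𝒱.Obj} (Γ : C.A (X.prod Y)) (Δ : C.A (Y.prod Z)) (m : M X),
    act (C.comp Γ Δ) m = act Δ (act Γ m)
  act_id : ∀ {X : 𝒱.Obj} (m : M X), act (C.graph (𝟙 X)) m = m

/-- A pure theory: correspondences act, the Frobenius endomorphism acts on `M^i(X)` as
multiplication by `q ^ i`, and `M^0(X) = 0`. Examples: the numerically trivial cycles, the higher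
Chow groups `CH^i(X, m)` and the groups `K_m(X)^(i)` with rational coefficients, `m > 0`. -/
structure Pure (C : TheoryData.{u, v, 0} 𝒱 ℚ) (Fr : ∀ X : 𝒱.Obj, X ⟶ X) (q : ℕ)
    extends Acted C where
  act_frob : ∀ {X : 𝒱.Obj} {i : ℤ} {m : M X}, m ∈ gr X i →
    act (C.cograph (Fr X)) m = (q : ℚ) ^ i • m
  gr_zero : ∀ X, gr X 0 = ⊥

/-- All pure theories vanish on `Z`. -/
def Parshin (C : TheoryData.{u, v, 0} 𝒱 ℚ) (Fr : ∀ X : 𝒱.Obj, X ⟶ X) (q : ℕ) (Z : 𝒱.Obj) : Prop :=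
  ∀ (T : Pure C Fr q) (r : ℤ), T.gr Z r = ⊥

end Pool.Agent.Q56.CP
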