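import Pool.Agent.W484.CH.Core

/-!
# Pure theories: definitions
-/

set_option autoImplicit false

open CategoryTheory AlgebraicGeometry

universe u v w

namespace Pool.Agent.Q56.CP

open Pool.Agent.H914 Pool.Agent.H914.VarClass Pool.Agent.H914.VarClass.Obj
  Pool.Agent.W492.BB Pool.Agent.W484.CH

variable {k : Type u} [Field k] {𝒱 : VarClass k} {C : TheoryData.{u, v, 0} 𝒱 ℚ}

/-- `T` is a theory on which correspondences act, like numerically trivial cycles, the higher Chow
groups `CH^i(X, m)` or the groups `K_m(X)^(i)` with rational coefficients, `m > 0`: the Frobenius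
endomorphism acts in degree `i` as multiplication by `q ^ i`, and the theory vanishes in degree
zero. -/
structure IsPure (T : CorrData C) (Fr : ∀ X : 𝒱.Obj, X ⟶ X) (q : ℕ) : Prop where
  corr : IsCorrTheory T
  power : ∀ X, ActsAsPower T (Fr X) q
  zero : ∀ X, T.gr X 0 = ⊥

/-- All pure theories vanish on all members of the class. -/
def PureVanish (C : TheoryData.{u, v, 0} 𝒱 ℚ) (Fr : ∀ X : 𝒱.Obj, X ⟶ X) (q : ℕ) : Prop :=
  ∀ T : CorrData C, IsPure T Fr q → ∀ (Z : 𝒱.Obj) (r : ℤ), T.gr Z r = ⊥

end Pool.Agent.Q56.CP
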