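import Pool.Agent.Q56.CP.Main

/-!
# Bloch-Beilinson filtrations over finite fields and one explicit power
-/

set_option autoImplicit false
set_option linter.unusedSectionVars false

open CategoryTheory AlgebraicGeometry

universe u v w

namespace Pool.Agent.Q56.CP

open Module Polynomial Pool.Agent.H914 Pool.Agent.H914.VarClass Pool.Agent.H914.VarClass.Obj
  Pool.Agent.W492.BB Pool.Agent.W550.Corr Pool.Agent.TH133 Pool.Agent.W484.CH Pool.Agent.Q56.FD
  Pool.Agent.Q56.FE Pool.Agent.Y133.Half

variable {k : Type u} [Field k] {𝒱 : VarClass k} {C : TheoryData.{u, v, 0} 𝒱 ℚ} {K : Type w}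
  [Field K] [CharZero K] {H : WeilTheoryData.{u, v, w} C K} [hC : IsChowProj C]
  [hH : IsWeilProj H] {Fr : ∀ X : 𝒱.Obj, X ⟶ X} {p a : ℕ} [Fact p.Prime] {X Y Z : 𝒱.Obj}

/-! ### One variety -/

/-- Pure theories vanish in negative degrees if nilpotence holds. -/
lemma vanish_neg (hFr : IsFrobTheory H Fr p a) (ha : 0 < a) (hN : Nilpotence H X)
    {T : CorrData C} (hT : IsPure T Fr (p ^ a)) {r : ℤ} (hr : r < 0) : T.gr X r = ⊥ := by
  choose Q hQ using hFr.weil X
  obtain ⟨P, hP0, hP1, hP2⟩ := exists_relation (f := Fr X) hN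
    (fun i _ => (hQ i).1.monic.ne_zero) fun i _ => (hQ i).2.2
  rw [eq_bot_iff]
  intro z hz
  rw [Submodule.mem_bot]
  have h1 : pullT T (Fr X) z = (((p ^ a : ℕ) : ℚ) ^ r) • z := hT.power X r z hz
  have h2 : aeval (pullT T (Fr X)) P z = 0 := by
    have h3 : pullT T (Fr X) = tau0 hT.corr X (fr C (Fr X)) := rfl
    rw [h3, Polynomial.aeval_algHom_apply, hP1, map_zero, LinearMap.zero_apply]
  rw [aeval_eigen h1] at h2
  refine (smul_eq_zero.1 h2).resolve_left fun h3 => ?_
  have h4 : aeval (((p ^ a : ℕ) : Qb) ^ r) P = 0 := by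
    have h5 : (((p ^ a : ℕ) : Qb) ^ r) = algebraMap ℚ Qb (((p ^ a : ℕ) : ℚ) ^ r) := by
      rw [map_zpow₀, map_natCast]
    rw [h5, Polynomial.aeval_algebraMap_apply]
    change algebraMap ℚ Qb (P.eval _) = 0
    rw [h3, map_zero]
  obtain ⟨i, hi, h6⟩ := hP2 _ h4
  let τ : Qb →+* ℂ := (IsAlgClosed.lift : Qb →ₐ[ℚ] ℂ).toRingHom
  have h7 := norm_sq_root (hQ i).1 h6 τ
  rw [map_zpow₀, map_natCast, norm_zpow, Complex.norm_natCast] at h7
  have h8 : (1 : ℝ) < ((p ^ a : ℕ) : ℝ) := by exact_mod_cast one_lt_pow_prime ha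
  have h9 : ((p ^ a : ℕ) : ℝ) ^ (r * 2) = ((p ^ a : ℕ) : ℝ) ^ ((i : ℕ) : ℤ) := by
    rw [zpow_mul, zpow_natCast, ← h7]
    rfl
  have h10 := zpow_right_injective₀ (by linarith) h8.ne' h9
  omega

/-- The strong Tate conjecture and nilpotence for `X` imply the vanishing of all pure theories
on `X`. -/
theorem vanish_one (hFr : IsFrobTheory H Fr p a) (ha : 0 < a) (hN : Nilpotence H X)
    (hTt : StrongTate H Fr (p ^ a) X) {T : CorrData C} (hT : IsPure T Fr (p ^ a)) (r : ℤ) :
    T.gr X r = ⊥ := by
  rcases lt_or_ge r 0 with hr | hr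
  · exact vanish_neg hFr ha hN hT hr
  · exact vanish_self hT.corr (one_lt_pow_prime ha) (hT.power X)
      (fun j => hFr.split ha hN hTt j) (hT.zero X) hr

/-! ### Bloch-Beilinson filtrations -/

/-- The filtration with `F^0 = CH` and `F^n = 0` for `n > 0`. -/
noncomputable def trivFil (C : TheoryData.{u, v, 0} 𝒱 ℚ) : Filtration C where
  F X i n := if n = 0 then C.gr X i else ⊥
  le_gr X i n := by
    split_ifs
    · exact le_rfl
    · exact bot_le
  anti X i n := by
    rw [if_neg (Nat.succ_ne_zero n)]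
    exact bot_le

lemma mem_triv_zero {i : ℕ} {x : C.A X} : (trivFil C).Mem i 0 x ↔ C.Deg i x := by
  change x ∈ (if (0 : ℕ) = 0 then C.gr X i else ⊥) ↔ _
  rw [if_pos rfl]

lemma mem_triv_succ {i n : ℕ} (hn : n ≠ 0) {x : C.A X} : (trivFil C).Mem i n x ↔ x = 0 := by
  change x ∈ (if n = 0 then C.gr X i else ⊥) ↔ _
  rw [if_neg hn, Submodule.mem_bot]

/-- If rational and homological equivalence coincide, the trivial filtration is a Bloch-Beilinson
filtration. -/
theorem isBB_triv (h : ∀ X, RatEqHom H X) : IsBB H (trivFil C) where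
  bounded :=
    { zero := fun X i x => mem_triv_zero
      one := fun X i x => by
        rw [mem_triv_succ one_ne_zero]
        constructor
        · rintro rfl
          exact ⟨Submodule.zero_mem _, map_zero _⟩
        · rintro ⟨h1, h2⟩
          exact h X i x h1 h2
      top := fun X i x hx => (mem_triv_succ (Nat.succ_ne_zero i)).1 hx }
  multiplicative :=
    { mul := by
        intro X i j m n x y hx hy
        rcases Nat.eq_zero_or_pos m with rfl | hm
        · rcases Nat.eq_zero_or_pos n with rfl | hn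
          · rw [mem_triv_zero] at hx hy ⊢
            have := C.mul_mem hx hy
            push_cast
            exact this
          · rw [mem_triv_succ hn.ne'] at hy
            rw [mem_triv_succ (by omega), hy]
            exact mul_zero _
        · rw [mem_triv_succ hm.ne'] at hx
          rw [mem_triv_succ (by omega), hx]
          exact zero_mul _
      pull := by
        intro X Y f i n y hy
        rcases Nat.eq_zero_or_pos n with rfl | hn
        · rw [mem_triv_zero] at hy ⊢
          exact C.pull_mem f hy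
        · rw [mem_triv_succ hn.ne'] at hy ⊢
          rw [hy]
          exact map_zero _
      push := by
        intro X Y f i j n x hij hx
        rcases Nat.eq_zero_or_pos n with rfl | hn
        · rw [mem_triv_zero] at hx ⊢
          have h1 := C.push_mem f hx
          have h2 : (i : ℤ) + 1 * ((Y.dim : ℤ) - X.dim) = j := by omega
          rw [h2] at h1
          exact h1
        · rw [mem_triv_succ hn.ne'] at hx ⊢
          rw [hx]
          exact map_zero _ }
  motivic := by
    intro _ X i n Γ hΓ hk x hx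
    rw [mem_triv_succ (Nat.succ_ne_zero n)]
    rcases Nat.eq_zero_or_pos n with rfl | hn
    · rw [mem_triv_zero] at hx
      have h1 : C.Deg (i : ℤ) (C.act Γ x) := by
        have h2 := act_mem_chow (i := i) (j := 0) (Γ := Γ) (m := x) (by rw [add_zero]; exact hΓ) hx
        rwa [add_zero] at h2
      refine h X i _ h1 ?_
      rw [← act_cl_cl]
      refine hk _ ?_
      have h3 := H.cl_mem hx
      have h4 : (2 * (i : ℤ) - ((0 : ℕ) : ℤ)) = 2 * i := by push_cast; ring
      rw [h4]
      exact h3
    · rw [mem_triv_succ hn.ne'] at hx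
      rw [hx]
      exact C.act_map_zero Γ

/-- The powers of homologically trivial correspondences and Bloch-Beilinson filtrations. -/
theorem nilpotence_of_isBB {F : Filtration C} (hF : IsBB H F) (X : 𝒱.Obj) : Nilpotence H X := by
  intro Γ hΓ h0
  have h1 : F.Mem X.dim 1 Γ := (hF.bounded.one _ _ _).2 ⟨hΓ, hom_zero_of_act H h0⟩
  have h2 : ∀ n : ℕ, F.Mem X.dim n (powC C Γ n) := by
    intro n
    induction n with
    | zero => exact (hF.bounded.zero _ _ _).2 (dg_mem C X)
    | succ n ih =>
      change F.Mem X.dim (n + 1) (C.comp (powC C Γ n) Γ)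
      have h3 : F.Mem X.dim 1 (C.up (t23 X X X) Γ) := hF.multiplicative.pull _ h1
      have h4 : F.Mem X.dim n (C.up (fst (X.prod X) X) (powC C Γ n)) :=
        hF.multiplicative.pull _ ih
      have h5 := hF.multiplicative.mul h3 h4
      have h6 := hF.multiplicative.push (t13 X X X) (j := X.dim) (by
        simp only [Obj.dim_prod]
        ring) h5
      rw [add_comm] at h6
      exact h6
  refine ⟨X.dim + 1, ?_⟩
  exact hF.bounded.top _ _ _ (h2 (X.dim + 1))

section main

variable (hFr : IsFrobTheory H Fr p a) (ha : 0 < a) {b d : ℕ} (hb : finrank K (H.A X) ≤ b)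
  (hd : X.dim ≤ d)

include hFr ha hb hd

/-- All pure theories vanish on the varieties generated by `X`. -/
theorem vanish_generated (hN : Nilpotence H (pw X (exactBound b d - 1)))
    (hTt : StrongTate H Fr (p ^ a) (pw X (exactBound b d - 1)))
    (hZ : IsSumFactor C (powersOf X) Z) {T : CorrData C} (hT : IsPure T Fr (p ^ a)) (r : ℤ) :
    T.gr Z r = ⊥ := by
  refine hZ.vanish hT.corr ?_ r
  rintro W ⟨n, rfl⟩ i
  exact powers_vanish hFr ha hb hd hN hTt hT n i

theorem ratEqNum_generated (hN : Nilpotence H (pw X (exactBound b d - 1)))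
    (hTt : StrongTate H Fr (p ^ a) (pw X (exactBound b d - 1)))
    (hZ : IsSumFactor C (powersOf X) Z) : RatEqNum H Z :=
  ratEqNum_of H fun i => vanish_generated hFr ha hb hd hN hTt hZ hFr.numData_pure i

theorem strong_generated (hN : Nilpotence H (pw X (exactBound b d - 1)))
    (hTt : StrongTate H Fr (p ^ a) (pw X (exactBound b d - 1)))
    (hZ : IsSumFactor C (powersOf X) Z) : StrongTate H Fr (p ^ a) Z := fun j =>
  strong_of_coh (vanish_generated hFr ha hb hd hN hTt hZ hFr.cohData_pure j)

/-- **Pure theories over finite fields and one explicit power.** -/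
theorem pure_main (hgen : ∀ Z : 𝒱.Obj, IsSumFactor C (powersOf X) Z) :
    List.TFAE [PureVanish C Fr (p ^ a), NumTate H Fr (p ^ a),
      NilTate H Fr (p ^ a) (pw X (exactBound b d - 1))] := by
  tfae_have 3 → 1 := by
    rintro ⟨h1, h2⟩ T hT Z r
    exact vanish_generated hFr ha hb hd (nilp_iff.1 h1) h2 (hgen Z) hT r
  tfae_have 1 → 2 := by
    intro h
    exact ⟨fun Z => ratEqNum_of H fun i => h _ hFr.numData_pure Z i,
      fun Z j => strong_of_coh (h _ hFr.cohData_pure Z j)⟩
  tfae_have 2 → 3 := by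
    rintro ⟨h1, h2⟩
    exact ⟨nilp_iff.2 (nilpotence_of_ratEqHom (ratEqHom_of_num (h1 _))), h2 _⟩
  tfae_finish

/-- **Bloch-Beilinson filtrations over finite fields and one explicit power.** -/
theorem bb_main (hgen : ∀ Z : 𝒱.Obj, IsSumFactor C (powersOf X) Z) :
    List.TFAE [BBTate H Fr (p ^ a), NumTate H Fr (p ^ a),
      NilTate H Fr (p ^ a) (pw X (exactBound b d - 1))] := by
  have hmain := pure_main hFr ha hb hd hgen
  tfae_have 1 → 3 := by
    rintro ⟨⟨F, hF⟩, h⟩
    exact ⟨nilp_iff.2 (nilpotence_of_isBB hF _), h _⟩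
  tfae_have 3 ↔ 2 := hmain.out 2 1
  tfae_have 2 → 1 := by
    rintro ⟨h1, h2⟩
    exact ⟨⟨_, isBB_triv fun Z => ratEqHom_of_num (h1 Z)⟩, h2⟩
  tfae_finish

end main

end Pool.Agent.Q56.CP
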