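import Pool.Agent.TH133.Defs
import Pool.Agent.Q56.FE.Defs
import Pool.Agent.Y133.Half.PwDefs

/-!
# Chow groups and cohomology of varieties over a finite field: definitions
-/

set_option autoImplicit false

open CategoryTheory AlgebraicGeometry

universe u v w

namespace Pool.Agent.Q56.CP

open Polynomial Pool.Agent.H914 Pool.Agent.H914.VarClass Pool.Agent.H914.VarClass.Obj
  Pool.Agent.W492.BB Pool.Agent.Q56.FD Pool.Agent.Y133.Half

variable {k : Type u} [Field k] {𝒱 : VarClass k} {C : TheoryData.{u, v, 0} 𝒱 ℚ} {K : Type w}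
  [Field K] {X : 𝒱.Obj}

/-- The linear map `f^*` on the cohomology. -/
noncomputable def hF (H : WeilTheoryData.{u, v, w} C K) (f : X ⟶ X) : Module.End K (H.A X) :=
  (H.pull f).toLinearMap

/-- The span of the classes of cycles of codimension `j`. -/
noncomputable def aSpan (H : WeilTheoryData.{u, v, w} C K) (X : 𝒱.Obj) (j : ℕ) :
    Submodule K (H.A X) :=
  Submodule.span K {c | ∃ z : C.A X, C.Deg j z ∧ c = H.cl z}

/-- The vector `x` is a generalised eigenvector of `φ` for the eigenvalue `c`. -/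
def IsGenEig {V : Type*} [AddCommGroup V] [Module K V] (φ : Module.End K V) (c : K) (x : V) :
    Prop :=
  ∃ n : ℕ, ((φ - c • (1 : Module.End K V)) ^ n) x = 0

/-- The strong form of the Tate conjecture in codimension `j`, with respect to the endomorphism `f`
of `X`: the generalised eigenspace of `f^*` on `H^(2j)(X)` for the eigenvalue `q ^ j` is spanned by
the classes of cycles. -/
def StrongTateAt (H : WeilTheoryData.{u, v, w} C K) (f : X ⟶ X) (q j : ℕ) : Prop :=
  ∀ x : H.A X, H.Deg (2 * j) x → IsGenEig (hF H f) ((q : K) ^ j) x → x ∈ aSpan H X j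

/-- The strong form of the Tate conjecture for `X`, over the field with `q` elements: for all `j`
the generalised eigenspace of the Frobenius endomorphism on `H^(2j)(X)` for the eigenvalue `q ^ j`
is spanned by the classes of cycles of codimension `j`. -/
def StrongTate (H : WeilTheoryData.{u, v, w} C K) (Fr : ∀ X : 𝒱.Obj, X ⟶ X) (q : ℕ)
    (X : 𝒱.Obj) : Prop :=
  ∀ j : ℕ, StrongTateAt H (Fr X) q j

/-- The vector `P(φ) x`. -/
noncomputable def polyApply {V : Type*} [AddCommGroup V] [Module K V] (φ : Module.End K V)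
    (P : ℤ[X]) (x : V) : V :=
  aeval φ P x

/-- The action of `f` on `H^i(X)` is annihilated by an integral polynomial of degree
`dim H^i(X)` (the characteristic polynomial) with the properties of `IsFrobPoly`. -/
def HasFrobPoly (H : WeilTheoryData.{u, v, w} C K) {X : 𝒱.Obj} (f : X ⟶ X) (p q i : ℕ)
    [Fact p.Prime] : Prop :=
  ∃ P : ℤ[X], IsFrobPoly p q i P ∧ P.natDegree = Module.finrank K (H.gr X i) ∧
    ∀ x : H.A X, H.Deg i x → polyApply (hF H f) P x = 0

/-- The endomorphism `f` of `X` has degree `q ^ dim X` and acts on `CH^i(X)` as multiplication by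
`q ^ i`. -/
structure IsFrobEnd (C : TheoryData.{u, v, 0} 𝒱 ℚ) {X : 𝒱.Obj} (f : X ⟶ X) (q : ℕ) : Prop where
  chow : ∀ (i : ℕ) (z : C.A X), C.Deg i z → C.up f z = (q : ℚ) ^ i • z
  degree : C.down f 1 = (q : ℚ) ^ X.dim • (1 : C.A X)

/-- `Fr` are the Frobenius endomorphisms of the varieties over the field with `p ^ a` elements:
they are compatible with all morphisms; `Fr X` has degree `q ^ dim X` and acts on `CH^i(X)` as
multiplication by `q ^ i`, where `q = p ^ a`; the cohomology is finite-dimensional, and the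
characteristic polynomials of `Fr X` on the cohomology are as described by Deligne, Katz-Messing and
Dieudonne-Manin. -/
structure IsFrobTheory (H : WeilTheoryData.{u, v, w} C K) (Fr : ∀ X : 𝒱.Obj, X ⟶ X) (p a : ℕ)
    [Fact p.Prime] : Prop where
  nat : ∀ {X Y : 𝒱.Obj} (f : X ⟶ Y), Fr X ≫ f = f ≫ Fr Y
  frob : ∀ X, IsFrobEnd C (Fr X) (p ^ a)
  finite : ∀ X, Module.Finite K (H.A X)
  poly : ∀ (X : 𝒱.Obj) (i : ℕ), HasFrobPoly H (Fr X) p (p ^ a) i

/-- The Chow motive of `Z` is a direct factor of a finite direct sum of Tate twists of the Chow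
motives of varieties in `𝒮`: there are varieties `W l` in `𝒮` and correspondences `Q l` from `Z`
to `W l`, of degree `n l`, and `P l` from `W l` to `Z`, of degree `- n l`, such that the sum of the
compositions of `Q l` and `P l` is the identity of `Z`. -/
def IsSumFactor (C : TheoryData.{u, v, 0} 𝒱 ℚ) (𝒮 : Set 𝒱.Obj) (Z : 𝒱.Obj) : Prop :=
  ∃ (m : ℕ) (W : Fin m → 𝒱.Obj) (n : Fin m → ℤ) (Q : ∀ l, C.A (Z.prod (W l)))
    (P : ∀ l, C.A ((W l).prod Z)), (∀ l, W l ∈ 𝒮) ∧ (∀ l, C.Deg (Z.dim + n l) (Q l)) ∧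
    (∀ l, C.Deg ((W l).dim - n l) (P l)) ∧ ∑ l, C.comp (Q l) (P l) = C.graph (𝟙 Z)

/-- The powers of `X`. -/
def powersOf (X : 𝒱.Obj) : Set 𝒱.Obj := {W | ∃ n, W = pw X n}

/-- The iterates of the self-correspondence `Γ` of `X`. -/
noncomputable def itC (C : TheoryData.{u, v, 0} 𝒱 ℚ) (Γ : C.A (X.prod X)) :
    ℕ → C.A (X.prod X)
  | 0 => C.graph (𝟙 X)
  | n + 1 => C.comp (itC C Γ n) Γ

/-- Every self-correspondence of degree zero of `X` which acts as zero on the cohomology is
nilpotent modulo rational equivalence. -/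
def Nilp (H : WeilTheoryData.{u, v, w} C K) (X : 𝒱.Obj) : Prop :=
  ∀ Γ : C.A (X.prod X), C.Deg X.dim Γ → (∀ a : H.A X, H.act (H.cl Γ) a = 0) →
    ∃ n : ℕ, itC C Γ n = 0

/-- Rational and numerical equivalence coincide on `X`, with rational coefficients. (The
intersection number of cycles `z`, `w` is the value of the orientation at the class of `z · w`, up
to a nonzero constant.) -/
def RatNum (H : WeilTheoryData.{u, v, w} C K) (X : 𝒱.Obj) : Prop :=
  ∀ (i : ℕ) (z : C.A X), C.Deg i z → (∀ (j : ℕ) (w : C.A X), i + j = X.dim → C.Deg j w →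
    H.tr X (H.cl (C.mul z w)) = 0) → z = 0

/-- A Bloch-Beilinson filtration exists on the class, and all its members satisfy the strong Tate
conjecture. -/
def BBTate (H : WeilTheoryData.{u, v, w} C K) (Fr : ∀ X : 𝒱.Obj, X ⟶ X) (q : ℕ) : Prop :=
  (∃ F : Filtration C, IsBB H F) ∧ ∀ Z, StrongTate H Fr q Z

/-- Rational and numerical equivalence coincide, and the strong Tate conjecture holds, for all
members of the class. -/
def NumTate (H : WeilTheoryData.{u, v, w} C K) (Fr : ∀ X : 𝒱.Obj, X ⟶ X) (q : ℕ) : Prop :=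
  (∀ Z, RatNum H Z) ∧ ∀ Z, StrongTate H Fr q Z

/-- The homologically trivial self-correspondences of `X` of degree zero are nilpotent, and `X`
satisfies the strong Tate conjecture. -/
def NilTate (H : WeilTheoryData.{u, v, w} C K) (Fr : ∀ X : 𝒱.Obj, X ⟶ X) (q : ℕ) (X : 𝒱.Obj) :
    Prop :=
  Nilp H X ∧ StrongTate H Fr q X

end Pool.Agent.Q56.CP
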