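import Pool.Agent.Q56.CP.Core
import Pool.Agent.Q56.CP.Defs
import Pool.Agent.Q56.FD.Poly
import Pool.Agent.TH133.Ext

/-!
# The Frobenius endomorphism on the cohomology: weights and duality
-/

set_option autoImplicit false
set_option linter.unusedSectionVars false

open CategoryTheory AlgebraicGeometry

universe u v w

namespace Pool.Agent.Q56.CP

open Module Polynomial Pool.Agent.H914 Pool.Agent.H914.VarClass Pool.Agent.H914.VarClass.Obj
  Pool.Agent.W492.BB Pool.Agent.W550.Corr Pool.Agent.TH133 Pool.Agent.W484.CH Pool.Agent.Q56.FD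

/-! ### Linear algebra -/

section linalg

/-- The kernel of a graded operator which is injective outside one degree. -/
lemma graded_ker {K V : Type*} [Field K] [AddCommGroup V] [Module K V] {G : ℤ → Submodule K V}
    (hG : DirectSum.IsInternal G) {N : Module.End K V} (hN : ∀ i, ∀ x ∈ G i, N x ∈ G i) {j : ℤ}
    (hinj : ∀ i, i ≠ j → ∀ x ∈ G i, N x = 0 → x = 0) {x : V} (hx : N x = 0) : x ∈ G j := by
  classical
  let c : (DirectSum ℤ fun i => G i) →ₗ[K] V := DirectSum.coeLinearMap G
  obtain ⟨y, rfl⟩ : ∃ y, c y = x := hG.2 x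
  let N' : (DirectSum ℤ fun i => G i) →ₗ[K] (DirectSum ℤ fun i => G i) :=
    DirectSum.lmap fun i => N.restrict (hN i)
  have h1 : c ∘ₗ N' = N ∘ₗ c := by
    refine DirectSum.linearMap_ext K fun i => LinearMap.ext fun z => ?_
    simp only [LinearMap.comp_apply]
    rw [DirectSum.lmap_lof, DirectSum.coeLinearMap_lof, DirectSum.coeLinearMap_lof]
    rfl
  have h2 : N' y = 0 := by
    apply hG.1
    change c (N' y) = c 0
    have h3 := LinearMap.congr_fun h1 y
    rw [LinearMap.comp_apply, LinearMap.comp_apply, hx] at h3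
    rw [h3, map_zero]
  have h4 : ∀ i, i ≠ j → y i = 0 := by
    intro i hi
    have h5 : N' y i = N.restrict (hN i) (y i) := DirectSum.lmap_apply _ _ _
    rw [h2] at h5
    have h6 := congrArg (Subtype.val) h5
    exact Subtype.ext (hinj i hi _ (y i).2 h6.symm)
  have h7 : y = DirectSum.of (fun i => G i) j (y j) := by
    refine DFinsupp.ext fun i => ?_
    by_cases hi : i = j
    · subst hi
      rw [DirectSum.of_eq_same]
    · rw [h4 i hi, DirectSum.of_eq_of_ne _ _ _ hi]
  rw [h7]
  change DirectSum.coeLinearMap G (DirectSum.of (fun i => G i) j (y j)) ∈ G j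
  rw [DirectSum.coeLinearMap_of]
  exact (y j).2

/-- Eigenvectors and integral polynomials. -/
lemma aeval_int_eigen {K V : Type*} [Field K] [AddCommGroup V] [Module K V] {φ : Module.End K V}
    {c : K} {z : V} (h : φ z = c • z) (P : ℤ[X]) : aeval φ P z = aeval c P • z := by
  induction P using Polynomial.induction_on' with
  | add p q hp hq => rw [map_add, LinearMap.add_apply, hp, hq, map_add, add_smul]
  | monomial n a =>
    have h1 : ∀ n : ℕ, (φ ^ n) z = c ^ n • z := by
      intro n
      induction n with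
      | zero => simp
      | succ n ih => rw [pow_succ, Module.End.mul_apply, h, map_smul, ih, smul_smul, pow_succ']
    rw [aeval_monomial, aeval_monomial, Module.End.mul_apply, h1, algebraMap_int_eq,
      algebraMap_int_eq, eq_intCast, eq_intCast, ← smul_smul, Int.cast_smul_eq_zsmul,
      Module.End.intCast_apply]

end linalg

variable {k : Type u} [Field k] {𝒱 : VarClass k} {C : TheoryData.{u, v, 0} 𝒱 ℚ} {K : Type w}
  [Field K] [CharZero K] {H : WeilTheoryData.{u, v, w} C K} [hC : IsChowProj C]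
  [hH : IsWeilProj H] {X Y : 𝒱.Obj}

lemma hF_apply (f : X ⟶ X) (x : H.A X) : hF H f x = H.pull f x := rfl

/-- The eigenvalues of `f` on `H^i(X)` have absolute value `q ^ (i / 2)`. -/
def Weights (H : WeilTheoryData.{u, v, w} C K) (f : X ⟶ X) (q : ℕ) : Prop :=
  ∀ i : ℕ, ∃ P : ℤ[X], P ≠ 0 ∧ (∀ z : ℂ, aeval z P = 0 → ‖z‖ ^ 2 = (q : ℝ) ^ i) ∧
    ∀ x ∈ H.gr X i, aeval (hF H f) P x = 0

section weights

variable {f : X ⟶ X} {q : ℕ}

lemma shift_mem (f : X ⟶ X) (c : K) {i : ℤ} {x : H.A X} (hx : x ∈ H.gr X i) :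
    (hF H f - c • (1 : Module.End K (H.A X))) x ∈ H.gr X i := by
  rw [LinearMap.sub_apply, LinearMap.smul_apply, Module.End.one_apply]
  exact Submodule.sub_mem _ (H.pull_mem f hx) (Submodule.smul_mem _ _ hx)

lemma shift_pow_mem (f : X ⟶ X) (c : K) (n : ℕ) {i : ℤ} {x : H.A X} (hx : x ∈ H.gr X i) :
    ((hF H f - c • (1 : Module.End K (H.A X))) ^ n) x ∈ H.gr X i := by
  induction n with
  | zero => exact hx
  | succ n ih =>
    rw [pow_succ', Module.End.mul_apply]
    exact shift_mem f c ih

lemma eigen_zero (hq : 1 < q) (hW : Weights H f q) {i : ℤ} {j : ℕ} (hij : i ≠ 2 * j) {x : H.A X}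
    (hx : x ∈ H.gr X i) (h : hF H f x = ((q : K) ^ j) • x) : x = 0 := by
  rcases lt_or_ge i 0 with hi | hi
  · rw [H.gr_neg X i hi, Submodule.mem_bot] at hx
    exact hx
  · obtain ⟨i, rfl⟩ := Int.eq_ofNat_of_zero_le hi
    obtain ⟨P, hP0, hP1, hP2⟩ := hW i
    have h1 := hP2 x hx
    rw [aeval_int_eigen h P] at h1
    refine (smul_eq_zero.1 h1).resolve_left fun h2 => hij ?_
    have h3 : aeval ((q : K) ^ j) P = ((P.eval ((q : ℤ) ^ j) : ℤ) : K) := by
      have h4 : ((q : K) ^ j) = algebraMap ℤ K ((q : ℤ) ^ j) := by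
        rw [map_pow, algebraMap_int_eq, eq_intCast, Int.cast_natCast]
      rw [h4, Polynomial.aeval_algebraMap_apply, algebraMap_int_eq, eq_intCast]
      rfl
    rw [h3, Int.cast_eq_zero] at h2
    have h5 : aeval ((q : ℂ) ^ j) P = 0 := by
      have h4 : ((q : ℂ) ^ j) = algebraMap ℤ ℂ ((q : ℤ) ^ j) := by
        rw [map_pow, algebraMap_int_eq, eq_intCast, Int.cast_natCast]
      rw [h4, Polynomial.aeval_algebraMap_apply]
      change algebraMap ℤ ℂ (P.eval ((q : ℤ) ^ j)) = 0
      rw [h2, map_zero]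
    have h6 := hP1 _ h5
    rw [norm_pow, Complex.norm_natCast, ← pow_mul] at h6
    have h7 : j * 2 = i := by
      have h8 : ((q ^ (j * 2) : ℕ) : ℝ) = ((q ^ i : ℕ) : ℝ) := by
        push_cast
        exact h6
      exact Nat.pow_right_injective hq (Nat.cast_injective h8)
    rw [← h7]
    push_cast
    ring

lemma gen_zero (hq : 1 < q) (hW : Weights H f q) {i : ℤ} {j : ℕ} (hij : i ≠ 2 * j) (n : ℕ) :
    ∀ {x : H.A X}, x ∈ H.gr X i →
      ((hF H f - ((q : K) ^ j) • (1 : Module.End K (H.A X))) ^ n) x = 0 → x = 0 := by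
  induction n with
  | zero => intro x _ h; exact h
  | succ n ih =>
    intro x hx h
    rw [pow_succ, Module.End.mul_apply] at h
    have h1 := ih (shift_mem f _ hx) h
    apply eigen_zero hq hW hij hx
    rw [LinearMap.sub_apply, LinearMap.smul_apply, Module.End.one_apply, sub_eq_zero] at h1
    exact h1

/-- The generalised eigenspace for `q ^ j` lies in degree `2 j`. -/
lemma gen_mem (hq : 1 < q) (hW : Weights H f q) {j n : ℕ} {x : H.A X}
    (h : ((hF H f - ((q : K) ^ j) • (1 : Module.End K (H.A X))) ^ n) x = 0) :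
    x ∈ H.gr X (2 * j) :=
  graded_ker (H.isInternal X) (fun _ _ hx => shift_pow_mem f _ n hx)
    (fun _ hi _ hx h => gen_zero hq hW hi n hx h) h

end weights

section duality

variable {f : X ⟶ X} {q : ℕ}

/-- The Frobenius endomorphism and the pairing. -/
lemma tr_orth (hf : IsFrobenius C f q) {c c' : K} (hc : c ≠ 0) (hcc : c * c' = (q : K) ^ X.dim)
    (n : ℕ) : ∀ {x : H.A X}, ((hF H f - c • (1 : Module.End K (H.A X))) ^ n) x = 0 →
      ∀ w, H.tr X (x * ((hF H f - c' • (1 : Module.End K (H.A X))) ^ n) w) = 0 := by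
  induction n with
  | zero =>
    intro x hx w
    rw [pow_zero, Module.End.one_apply] at hx
    rw [hx, zero_mul, map_zero]
  | succ n ih =>
    intro x hx w
    set N := hF H f - c • (1 : Module.End K (H.A X)) with hN
    set N' := hF H f - c' • (1 : Module.End K (H.A X)) with hN'
    rw [pow_succ, Module.End.mul_apply] at hx
    have h1 := ih hx (hF H f w)
    have hcomm : (N' ^ n) (hF H f w) = hF H f ((N' ^ n) w) := by
      have h2 : Commute (hF H f) N' := by
        rw [hN']
        exact (Commute.refl _).sub_right ((Commute.one_right _).smul_right _)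
      have h3 := h2.pow_right n
      have h4 := LinearMap.congr_fun h3.eq w
      rw [Module.End.mul_apply, Module.End.mul_apply] at h4
      exact h4.symm
    rw [hcomm] at h1
    rw [pow_succ', Module.End.mul_apply]
    generalize hu : (N' ^ n) w = u at h1 ⊢
    have h5 : N x = hF H f x - c • x := by
      rw [hN, LinearMap.sub_apply, LinearMap.smul_apply, Module.End.one_apply]
    have h6 : N' u = hF H f u - c' • u := by
      rw [hN', LinearMap.sub_apply, LinearMap.smul_apply, Module.End.one_apply]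
    rw [h5, sub_mul, map_sub, smul_mul_assoc, map_smul, hF_apply, hF_apply, ← map_mul,
      tr_frob hf, smul_eq_mul, sub_eq_zero] at h1
    rw [h6, hF_apply, mul_sub, map_sub, mul_smul_comm, map_smul, smul_eq_mul]
    apply mul_left_cancel₀ hc
    rw [mul_zero, mul_sub, ← h1, ← mul_assoc, hcc, sub_self]

/-- The pairing between the generalised eigenspaces for `c` and `c'` is nondegenerate. -/
lemma gen_nondeg [Module.Finite K (H.A X)] (hf : IsFrobenius C f q) {c c' : K} (hc : c ≠ 0)
    (hcc : c * c' = (q : K) ^ X.dim) {n : ℕ} {x : H.A X}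
    (hx : ((hF H f - c • (1 : Module.End K (H.A X))) ^ n) x = 0)
    (h : ∀ (m : ℕ) (y : H.A X), ((hF H f - c' • (1 : Module.End K (H.A X))) ^ m) y = 0 →
      H.tr X (x * y) = 0) : x = 0 := by
  have h1 := LinearMap.eventually_isCompl_ker_pow_range_pow
    (hF H f - c' • (1 : Module.End K (H.A X)))
  obtain ⟨m, hm, hnm⟩ := (h1.and (Filter.eventually_ge_atTop n)).exists
  apply H.nondeg
  intro w
  have hw : w ∈ LinearMap.ker ((hF H f - c' • (1 : Module.End K (H.A X))) ^ m) ⊔
      LinearMap.range ((hF H f - c' • (1 : Module.End K (H.A X))) ^ m) := by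
    rw [hm.sup_eq_top]
    exact Submodule.mem_top
  obtain ⟨w1, hw1, w2, ⟨w3, rfl⟩, rfl⟩ := Submodule.mem_sup.1 hw
  have hx' : ((hF H f - c • (1 : Module.End K (H.A X))) ^ m) x = 0 := by
    obtain ⟨l, rfl⟩ := Nat.exists_eq_add_of_le hnm
    rw [add_comm, pow_add, Module.End.mul_apply, hx, map_zero]
  rw [mul_add, map_add, h m w1 hw1, tr_orth hf hc hcc m hx' w3, add_zero]

end duality

/-! ### Algebraic classes -/

section span

variable {f : X ⟶ X} {q : ℕ}

lemma aSpan_eigen (hf : IsFrobenius C f q) {j : ℕ} {x : H.A X} (hx : x ∈ aSpan H X j) :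
    hF H f x = ((q : K) ^ j) • x := by
  unfold aSpan at hx
  induction hx using Submodule.span_induction with
  | mem c hc =>
    obtain ⟨z, hz, rfl⟩ := hc
    have h1 : C.pull f z = (q : ℚ) ^ j • z := hf.chow j z hz
    rw [hF_apply, ← H.cl_pull, h1, cl_smul]
    push_cast
    rfl
  | zero => rw [map_zero, smul_zero]
  | add x y _ _ hx hy => rw [map_add, hx, hy, smul_add]
  | smul a x _ hx => rw [map_smul, hx, smul_comm]

lemma strong_span (hq : 1 < q) (hW : Weights H f q) {j : ℕ} (hT : StrongTateAt H f q j) {n : ℕ}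
    {x : H.A X} (h : ((hF H f - ((q : K) ^ j) • (1 : Module.End K (H.A X))) ^ n) x = 0) :
    x ∈ aSpan H X j :=
  hT x (gen_mem hq hW h) ⟨n, h⟩

/-- The degree of zero-cycles. -/
theorem exists_degMap (H : WeilTheoryData.{u, v, w} C K) [hH : IsWeilProj H] (X : 𝒱.Obj) :
    ∃ deg : C.A X →ₗ[ℚ] ℚ, ∀ z ∈ C.gr X X.dim, HasDegree C z (deg z) := by
  have h1 : (1 : C.A X) ≠ 0 := by
    intro h0
    have h2 := congrArg (H.cl (X := X)) h0
    rw [map_one, map_zero] at h2
    exact hH.one_ne_zero X h2
  have hker : LinearMap.ker (LinearMap.toSpanSingleton ℚ (C.A X) 1) = ⊥ := by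
    rw [LinearMap.ker_eq_bot']
    intro c hc
    rw [LinearMap.toSpanSingleton_apply] at hc
    exact (smul_eq_zero.1 hc).resolve_right h1
  obtain ⟨φ, hφ⟩ := LinearMap.exists_leftInverse_of_injective _ hker
  refine ⟨φ ∘ₗ C.push (snd X X) ∘ₗ (C.pull (fst X X)).toLinearMap, fun z hz => ?_⟩
  obtain ⟨c, hc⟩ := exists_hasDegree hz
  have h4 : φ (C.push (snd X X) (C.pull (fst X X) z)) = c := by
    rw [(hc X).1]
    have h5 := LinearMap.congr_fun hφ c
    rw [LinearMap.comp_apply, LinearMap.toSpanSingleton_apply, LinearMap.id_apply] at h5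
    exact h5
  change HasDegree C z (φ (C.push (snd X X) (C.pull (fst X X) z)))
  rw [h4]
  exact hc

variable [Module.Finite K (H.A X)]

/-- **The dual system.** -/
theorem exists_dual (hq : 1 < q) (hf : IsFrobenius C f q) (hW : Weights H f q) {j : ℕ}
    (hj : j ≤ X.dim) (hT' : StrongTateAt H f q (X.dim - j)) :
    ∃ (m : ℕ) (D E : Fin m → C.A X), (∀ t, D t ∈ C.gr X j) ∧
      (∀ t, E t ∈ C.gr X ((X.dim : ℤ) - j)) ∧
      (∀ t u, HasDegree C (E u * D t) (if t = u then 1 else 0)) ∧
      aSpan H X j ≤ Submodule.span K (Set.range fun t => H.cl (D t)) := by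
  classical
  have hdj : ((X.dim - j : ℕ) : ℤ) = (X.dim : ℤ) - j := by omega
  have hqK : (q : K) ≠ 0 := by
    have : q ≠ 0 := by omega
    exact_mod_cast this
  obtain ⟨deg, hdeg⟩ := exists_degMap H X
  -- a basis of classes
  obtain ⟨S, hS1, hS2, hS3⟩ := exists_linearIndependent K {c | ∃ D : C.A X, C.Deg j D ∧ c = H.cl D}
  have hfin : S.Finite := hS3.setFinite
  have hft := hfin.fintype
  let e := Fintype.equivFin S
  have hD : ∀ t : Fin (Fintype.card S), ∃ D : C.A X, C.Deg j D ∧ (e.symm t : H.A X) = H.cl D :=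
    fun t => hS1 (e.symm t).2
  choose D hDg hDcl using hD
  have hli : LinearIndependent K (fun t => H.cl (D t)) := by
    have h2 : (fun t => H.cl (D t)) = (fun x : S => (x : H.A X)) ∘ e.symm := by
      funext t
      exact (hDcl t).symm
    rw [h2]
    exact hS3.comp _ e.symm.injective
  have hspan : aSpan H X j ≤ Submodule.span K (Set.range fun t => H.cl (D t)) := by
    unfold aSpan
    rw [← hS2]
    refine Submodule.span_mono ?_
    intro x hx
    refine ⟨e ⟨x, hx⟩, ?_⟩
    beta_reduce
    rw [← hDcl, Equiv.symm_apply_apply]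
  -- the pairing
  let 𝒮 : Submodule ℚ (C.A X) := C.gr X ((X.dim : ℤ) - j)
  let ψ : 𝒮 →ₗ[ℚ] (Fin (Fintype.card S) → ℚ) :=
    LinearMap.pi fun t => deg ∘ₗ LinearMap.mulRight ℚ (D t) ∘ₗ 𝒮.subtype
  have hψ : ∀ E t, ψ E t = deg (E * D t) := fun _ _ => rfl
  have hmem : ∀ t (E : 𝒮), (E : C.A X) * D t ∈ C.gr X X.dim := by
    intro t E
    have h2 := C.mul_mem E.2 (hDg t)
    rwa [sub_add_cancel] at h2
  have hsurj : LinearMap.range ψ = ⊤ := by
    by_contra hne
    obtain ⟨g, hg0, hg⟩ := Submodule.exists_le_ker_of_lt_top _ (lt_top_iff_ne_top.2 hne)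
    apply hg0
    -- the class
    set z : C.A X := ∑ t, g (Pi.single t 1) • D t with hz
    have hzm : z ∈ C.gr X j := Submodule.sum_mem _ fun t _ => Submodule.smul_mem _ _ (hDg t)
    have hcz : H.cl z = ∑ t, ((g (Pi.single t 1) : ℚ) : K) • H.cl (D t) := by
      rw [hz, map_sum]
      exact Finset.sum_congr rfl fun t _ => cl_smul _ _
    have hc0 : H.cl z = 0 := by
      have hzs : H.cl z ∈ aSpan H X j := Submodule.subset_span ⟨z, hzm, rfl⟩
      refine gen_nondeg (f := f) (q := q) hf (c := (q : K) ^ j) (c' := (q : K) ^ (X.dim - j))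
        (pow_ne_zero _ hqK) (by rw [← pow_add]; congr 1; omega) (n := 1) ?_ ?_
      · rw [pow_one, LinearMap.sub_apply, LinearMap.smul_apply, Module.End.one_apply,
          aSpan_eigen hf hzs, sub_self]
      · intro m y hy
        have hys := strong_span hq hW hT' hy
        unfold aSpan at hys
        clear hy
        induction hys using Submodule.span_induction with
        | mem c' hc' =>
          obtain ⟨E, hE, rfl⟩ := hc'
          have hE' : E ∈ 𝒮 := by
            change E ∈ C.gr X ((X.dim : ℤ) - j)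
            rw [← hdj]
            exact hE
          apply tr_eq_zero_of_push X
          rw [← map_mul, ← H.cl_pull, ← H.cl_push]
          have h2 : C.push (snd X X) (C.pull (fst X X) (z * E)) = 0 := by
            have h3 : z * E ∈ C.gr X X.dim := by
              rw [hz, Finset.sum_mul]
              refine Submodule.sum_mem _ fun t _ => ?_
              rw [smul_mul_assoc, ch_comm C]
              exact Submodule.smul_mem _ _ (hmem t ⟨E, hE'⟩)
            have h4 : g (ψ ⟨E, hE'⟩) = 0 := hg ⟨_, rfl⟩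
            have h5 : deg (z * E) = g (ψ ⟨E, hE'⟩) := by
              have h6 : ψ ⟨E, hE'⟩ = ∑ t, deg (E * D t) • Pi.single (M := fun _ => ℚ) t 1 := by
                funext t
                rw [hψ, Finset.sum_apply]
                simp [Pi.single_apply]
              rw [h6, map_sum, hz, Finset.sum_mul, map_sum]
              refine Finset.sum_congr rfl fun t _ => ?_
              rw [smul_mul_assoc, map_smul, map_smul, smul_eq_mul, smul_eq_mul, mul_comm,
                ch_comm C]
            rw [(hdeg _ h3 X).1, h5, h4, zero_smul]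
          rw [h2, map_zero]
        | zero => rw [mul_zero, map_zero]
        | add x y _ _ hx hy => rw [mul_add, map_add, hx, hy, add_zero]
        | smul a x _ hx => rw [mul_smul_comm, map_smul, hx, smul_zero]
    have h2 := Fintype.linearIndependent_iff.1 hli (fun t => ((g (Pi.single t 1) : ℚ) : K))
      (by rw [← hcz, hc0])
    ext t
    have h3 := h2 t
    have h4 : g (Pi.single t 1) = 0 := by exact_mod_cast h3
    simpa using h4
  have hE : ∀ u, ∃ E : 𝒮, ψ E = Pi.single u 1 := by
    intro u
    have h2 : (Pi.single u 1 : Fin (Fintype.card S) → ℚ) ∈ LinearMap.range ψ := by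
      rw [hsurj]
      exact Submodule.mem_top
    exact h2
  choose E hE using hE
  refine ⟨Fintype.card S, D, fun u => E u, hDg, fun u => (E u).2, fun t u => ?_, hspan⟩
  have h3 := hdeg _ (hmem t (E u))
  rw [← hψ, hE, Pi.single_apply] at h3
  exact h3

end span

end Pool.Agent.Q56.CP
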