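import Pool.Agent.Q56.CP.Vanish
import Pool.Agent.Q56.FE.Tors

/-!
# Small blocks
-/

set_option autoImplicit false
set_option linter.unusedSectionVars false

open CategoryTheory AlgebraicGeometry

universe u v w

namespace Pool.Agent.Q56.CP

open Module Polynomial Pool.Agent.H914 Pool.Agent.H914.VarClass Pool.Agent.H914.VarClass.Obj
  Pool.Agent.W492.BB Pool.Agent.W550.Corr Pool.Agent.TH133 Pool.Agent.W484.CH Pool.Agent.Q56.FD
  Pool.Agent.Q56.FE

variable {k : Type u} [Field k] {𝒱 : VarClass k} {C : TheoryData.{u, v, 0} 𝒱 ℚ} [hC : IsChowProj C]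

variable {p : ℕ} [Fact p.Prime] {e : ℕ} {Q : ℕ → ℤ[X]} {M b d : ℕ}

/-- The roots of the polynomials `Q 0, …, Q M`. -/
def eigSet (Q : ℕ → ℤ[X]) (M : ℕ) : Set Qb := {α | ∃ i ≤ M, aeval α (Q i) = 0}

/-- The exact blocks of bounded size. -/
theorem hasBlocks_of (T : CorrData C) {Fr : ∀ X : 𝒱.Obj, X ⟶ X} {S : Set 𝒱.Obj} (he : 0 < e)
    (hQ : ∀ i ≤ M, IsFrobPoly p (p ^ e) i (Q i))
    (hb : ∑ i ∈ Finset.range (M + 1), (Q i).natDegree ≤ b) (hM : M ≤ 2 * d)
    (hsplit : ∀ (ι : Type) [Fintype ι] [Nonempty ι] (X : ι → 𝒱.Obj), (∀ i, X i ∈ S) →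
      Fintype.card ι ≤ exactBound b d → ∀ (A : 𝒱.Obj) (prA : ∀ i, A ⟶ X i), IsProd X A prA →
      ∀ j, Split C (Fr A) (p ^ e) j) :
    HasBlocks T Fr (p ^ e) (fun _ X => ∀ i, X i ∈ S) fun _ => eigSet Q M := by
  classical
  intro ι _ _ X hX α hα r hr
  right
  choose i hiM hi using hα
  let lab : ι → Letter Q M := fun a => ⟨(i a, α a), hiM a, hi a⟩
  have hpr : ∀ s : Multiset ι, pr (s.map lab) = (s.map α).prod := by
    intro s
    rw [pr, Multiset.map_map]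
    rfl
  have hp1 : 1 < p ^ e := Nat.one_lt_pow he.ne' (Fact.out : p.Prime).one_lt
  have hq0 : ((p ^ e : ℕ) : Qb) ≠ 0 := by
    exact_mod_cast (by omega : p ^ e ≠ 0)
  -- the total relation is exact
  have hex : Exact (p ^ e) ((Finset.univ : Finset ι).val.map lab) := by
    let τ : Qb →+* ℂ := (IsAlgClosed.lift : Qb →ₐ[ℚ] ℂ).toRingHom
    have h1 := pr_norm_sq hQ ((Finset.univ : Finset ι).val.map lab) τ
    have h2 : pr ((Finset.univ : Finset ι).val.map lab) = ((p ^ e : ℕ) : Qb) ^ r := by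
      rw [hpr, ← hr]
      rfl
    rw [h2, map_zpow₀, map_natCast, norm_zpow, Complex.norm_natCast] at h1
    have h3 : ((p ^ e : ℕ) : ℝ) ^ (r * 2) =
        ((p ^ e : ℕ) : ℝ) ^ ((dg ((Finset.univ : Finset ι).val.map lab) : ℕ) : ℤ) := by
      rw [zpow_mul, zpow_natCast, ← h1]
      rfl
    have h4 : (1 : ℝ) < ((p ^ e : ℕ) : ℝ) := by exact_mod_cast hp1
    have h5 := zpow_right_injective₀ (by linarith) h4.ne' h3
    have hr0 : 0 ≤ r := by omega
    obtain ⟨n, rfl⟩ := Int.eq_ofNat_of_zero_le hr0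
    refine ⟨n, ?_, by omega⟩
    rw [h2, zpow_natCast]
  obtain ⟨s', hs'le, hs'0, hs'card, j, hj, -⟩ := exists_exact_block lab he hQ hb hM
    (Finset.univ : Finset ι).val (by
      intro h0
      have h1 : (Finset.univ : Finset ι) = ∅ := Finset.val_eq_zero.1 h0
      exact (Finset.univ_nonempty (α := ι)).ne_empty h1) hex
  let B : Finset ι := ⟨s', Multiset.nodup_of_le hs'le Finset.univ.nodup⟩
  have hBne : B.Nonempty := by
    obtain ⟨a, ha⟩ := Multiset.exists_mem_of_ne_zero hs'0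
    exact ⟨a, ha⟩
  refine ⟨B, hBne, ⟨j, ?_, ?_⟩, fun _ i => hX i⟩
  · rw [hpr] at hj
    exact hj
  · intro A prA hA
    have hne : Nonempty {i // i ∈ B} := ⟨⟨hBne.choose, hBne.choose_spec⟩⟩
    refine hsplit {i // i ∈ B} (fun i => X i) (fun i => hX i) ?_ A prA hA j
    rw [Fintype.card_coe]
    exact hs'card

end Pool.Agent.Q56.CP
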