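import Pool.Agent.Q56.CP.Rank

/-!
# Constant and isotrivial varieties over function fields
-/

set_option autoImplicit false
set_option linter.unusedSectionVars false

open CategoryTheory AlgebraicGeometry

universe u v w

namespace Pool.Agent.Q56.CP

open Module Polynomial Pool.Agent.H914 Pool.Agent.H914.VarClass Pool.Agent.H914.VarClass.Obj
  Pool.Agent.W492.BB Pool.Agent.W550.Corr Pool.Agent.TH133 Pool.Agent.W484.CH Pool.Agent.Q56.FD
  Pool.Agent.Q56.FE Pool.Agent.Q56.FR Pool.Agent.Y133.Half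

variable {k : Type u} [Field k] {𝒱 : VarClass k} {C : TheoryData.{u, v, 0} 𝒱 ℚ} {K : Type w}
  [Field K] [CharZero K] {H : WeilTheoryData.{u, v, w} C K} [hC : IsChowProj C]
  [hH : IsWeilProj H] {Fr : ∀ X : 𝒱.Obj, X ⟶ X} {p a : ℕ} [Fact p.Prime] {X Y Z B : 𝒱.Obj}

/-- Products of direct factors with a fixed variety. -/
lemma IsSumFactor.prod {𝒮 : Set 𝒱.Obj} (h : IsSumFactor C 𝒮 Z) (Y : 𝒱.Obj) :
    IsSumFactor C {V | ∃ W ∈ 𝒮, V = W.prod Y} (Z.prod Y) := by
  obtain ⟨m, W, n, Q, P, hW, hQ, hP, hQP⟩ := h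
  refine ⟨m, fun l => (W l).prod Y, n, fun l => tens C (Q l) (dg C Y),
    fun l => tens C (P l) (dg C Y), fun l => ⟨W l, hW l, rfl⟩, fun l => ?_, fun l => ?_, ?_⟩
  · have h1 := tens_mem C (hQ l) (dg_mem C Y)
    have h2 : (Z.dim : ℤ) + n l + Y.dim = ((Z.prod Y).dim : ℤ) + n l := by
      rw [Obj.dim_prod]
      push_cast
      ring
    rw [h2] at h1
    exact h1
  · have h1 := tens_mem C (hP l) (dg_mem C Y)
    have h2 : ((W l).dim : ℤ) - n l + Y.dim = (((W l).prod Y).dim : ℤ) - n l := by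
      rw [Obj.dim_prod]
      push_cast
      ring
    rw [h2] at h1
    exact h1
  · have h1 : ∀ l, C.comp (tens C (Q l) (dg C Y)) (tens C (P l) (dg C Y)) =
        tens C (C.comp (Q l) (P l)) (dg C Y) := by
      intro l
      rw [tens_comp C (ch_comm C), comp_dg]
    rw [Finset.sum_congr rfl fun l _ => h1 l, ← tens_sum_left, hQP]
    exact tens_dg C Z Y

section main

variable (hFr : IsFrobTheory H Fr p a) (ha : 0 < a) {b d t : ℕ} (hb : finrank K (H.A X) ≤ b)
  (hd : X.dim ≤ d) (ht : Y.dim ≤ t)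

include hFr ha hb hd ht

/-- All pure theories which vanish on `X ^ M × Y` vanish on all products `X ^ n × Y`. -/
theorem vanish_rel_generated {m : ℕ} (hm : relBound b d t ≤ m + 1) (hNY : Nilp H Y)
    (hN : Nilp H (pw X m)) (hT : StrongTate H Fr (p ^ a) (pw X m))
    (hZ : IsSumFactor C {V | ∃ W ∈ powersOf X, V = W.prod Y} Z) {T : CorrData C}
    (hTp : IsPure T Fr (p ^ a)) (hbase : ∀ r, T.gr ((pw X m).prod Y) r = ⊥) (r : ℤ) :
    T.gr Z r = ⊥ := by
  refine hZ.vanish hTp.corr ?_ r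
  rintro _ ⟨W, ⟨n, rfl⟩, rfl⟩ i
  exact vanish_rel hFr ha hb hd ht hm (nilp_iff.1 hNY) (nilp_iff.1 hN) hT hTp hbase n i

/-- The conditions on the one variety `X ^ M × Y`. -/
theorem numTate_rel_generated {m : ℕ} (hm : relBound b d t ≤ m + 1) (hNY : Nilp H Y)
    (hN : Nilp H (pw X m)) (h1 : RatNum H ((pw X m).prod Y))
    (h2 : StrongTate H Fr (p ^ a) ((pw X m).prod Y))
    (hZ : IsSumFactor C {V | ∃ W ∈ powersOf X, V = W.prod Y} Z) :
    RatNum H Z ∧ StrongTate H Fr (p ^ a) Z := by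
  have hq : p ^ a ≠ 0 := pow_ne_zero a (Fact.out : p.Prime).ne_zero
  have h3 : StrongTate H Fr (p ^ a) (pw X m) :=
    (IsFactor.fst (pw X m) Y).strong hFr.fam hq hFr.finite h2
  refine ⟨ratEqNum_of H fun i => vanish_rel_generated hFr ha hb hd ht hm hNY hN h3 hZ
      hFr.numData_pure (fun r => num_of_ratEqNum (ratNum_iff.1 h1) r) i,
    fun j => strong_of_coh (vanish_rel_generated hFr ha hb hd ht hm hNY hN h3 hZ hFr.cohData_pure
      (fun r => ?_) j)⟩
  rcases lt_or_ge r 0 with hr | hr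
  · rw [eq_bot_iff]
    intro y hy
    obtain ⟨⟨x, hx, rfl⟩, -⟩ := mem_cohData.1 hy
    have h4 : H.gr ((pw X m).prod Y) (2 * r) = ⊥ :=
      hH.isTheory.isGradedRing.gr_neg _ _ (by omega)
    rw [h4, Submodule.mem_bot] at hx
    have h5 : (Submodule.Quotient.mk x : H.A ((pw X m).prod Y) ⧸ aTot H ((pw X m).prod Y)) = 0 := by
      rw [hx]
      rfl
    exact h5
  · obtain ⟨j, rfl⟩ := Int.eq_ofNat_of_zero_le hr
    exact coh_of_strong hFr.fam (h2 j)

end main

section curve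

variable (hFr : IsFrobTheory H Fr p a) (ha : 0 < a) {b d t : ℕ} (hb : finrank K (H.A X) ≤ b)
  (hd : X.dim ≤ d) (ht : Y.dim ≤ t) (hNY : Nilp H Y)

include hFr ha hb hd ht hNY

/-- **The Tate conjecture and rational equivalence for the products of `Y` with the varieties
generated by `X`.** -/
theorem rel_main : List.TFAE [
    ∀ Z, IsSumFactor C (powersOf X) Z → RatNum H (Z.prod Y) ∧ StrongTate H Fr (p ^ a) (Z.prod Y),
    RatNum H ((pw X (2 * relBound b d t - 1)).prod Y) ∧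
      StrongTate H Fr (p ^ a) ((pw X (2 * relBound b d t - 1)).prod Y),
    Nilp H (pw X (relBound b d t - 1)) ∧ RatNum H ((pw X (relBound b d t - 1)).prod Y) ∧
      StrongTate H Fr (p ^ a) ((pw X (relBound b d t - 1)).prod Y)] := by
  have hpos := relBound_pos b d t
  have hq : p ^ a ≠ 0 := pow_ne_zero a (Fact.out : p.Prime).ne_zero
  tfae_have 1 → 2 := fun h => h _ ((IsFactor.refl _).sum ⟨_, rfl⟩)
  tfae_have 2 → 3 := by
    rintro ⟨h1, h2⟩
    have hf : IsFactor C ((pw X (relBound b d t - 1)).prod Y)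
        ((pw X (2 * relBound b d t - 1)).prod Y) := pw_prod_factor X Y (by omega)
    refine ⟨nilp_iff.2 (nilpotence_of_ratEqHom (ratEqHom_of_num ?_)), hf.ratEqNum h1,
      hf.strong hFr.fam hq hFr.finite h2⟩
    have h3 : 2 * (relBound b d t - 1) + 1 = 2 * relBound b d t - 1 := by omega
    have h4 := sq_factor (C := C) X (relBound b d t - 1)
    rw [h3] at h4
    exact (h4.trans (IsFactor.fst _ Y)).ratEqNum h1
  tfae_have 3 → 1 := by
    rintro ⟨h1, h2, h3⟩ Z hZ
    exact numTate_rel_generated hFr ha hb hd ht (by omega) hNY h1 h2 h3 (hZ.prod Y)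
  tfae_finish

end curve

section formula

variable (hFr : IsFrobTheory H Fr p a) (ha : 0 < a)

include hFr ha

/-- **The formula of Beilinson and Bloch.** -/
theorem rankFormula_of (hB : B.dim = 1) (h1 : RatNum H (Z.prod B))
    (h2 : StrongTate H Fr (p ^ a) (Z.prod B)) {G : Type} (ρ : G → (Z.prod B ⟶ Z.prod B))
    {β : C.A B} (hβ : C.Deg 1 β) : RankFormula H Fr (p ^ a) (C.up (snd Z B) β) ρ := by
  intro i
  have hfin := hFr.finite (Z.prod B)
  refine rank_formula (one_lt_pow_prime ha) (hFr.frobenius _) (hFr.weights _) h2 h1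
    (C.pull_mem _ hβ) ?_ i
  have h3 : β * β = 0 := by
    refine hC.gr_top B 2 _ (C.mul_mem hβ hβ) ?_
    rw [hB]
    norm_num
  change C.pull (snd Z B) β * C.pull (snd Z B) β = 0
  rw [← map_mul, h3, map_zero]

end formula

end Pool.Agent.Q56.CP
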