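import Pool.Agent.W484.CH.Conj
import Pool.Agent.Y148.BB.Corr

/-!
# Operators on theories on which correspondences act; splitting off the algebraic part
-/

set_option autoImplicit false
set_option linter.unusedSectionVars false

open CategoryTheory AlgebraicGeometry

universe u v w

namespace Pool.Agent.Q56.CP

open Module Polynomial Pool.Agent.H914 Pool.Agent.H914.VarClass Pool.Agent.H914.VarClass.Obj
  Pool.Agent.W492.BB Pool.Agent.W550.Corr Pool.Agent.TH133 Pool.Agent.W484.CH
  Pool.Agent.Y148.BB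

variable {k : Type u} [Field k] {𝒱 : VarClass k} {C : TheoryData.{u, v, 0} 𝒱 ℚ}
  {X Y Z A : 𝒱.Obj}

/-! ### Pull-backs -/

section pull

variable [hC : IsChow C] {T : CorrData C} (hT : IsCorrTheory T)

/-- The pull-back on a theory on which correspondences act. -/
noncomputable def pullT (T : CorrData C) (f : X ⟶ Y) : T.M Y →ₗ[ℚ] T.M X := T.act (C.cograph f)

include hT

lemma pullT_comp (f : X ⟶ Y) (g : Y ⟶ Z) (m : T.M Z) :
    pullT T (f ≫ g) m = pullT T f (pullT T g m) := by
  rw [pullT, ← cograph_comp C f g, hT.act_comp]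
  rfl

lemma pullT_id (m : T.M X) : pullT T (𝟙 X) m = m := hT.act_id m

lemma pullT_mem (f : X ⟶ Y) {i : ℤ} {m : T.M Y} (hm : m ∈ T.gr Y i) :
    pullT T f m ∈ T.gr X i := by
  have h := hT.act_mem (i := i) (j := 0) (Γ := C.cograph f) (m := m)
    (by rw [add_zero]; exact W484.CH.cograph_mem f) hm
  rwa [add_zero] at h

end pull

section tau

variable [hC : IsChowProj C] {T : CorrData C} (hT : IsCorrTheory T)

/-- The action of the self-correspondences of `A` on `T(A)`. -/
noncomputable def tau0 (hT : IsCorrTheory T) (A : 𝒱.Obj) :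
    Cor C A →ₐ[ℚ] Module.End ℚ (T.M A) :=
  AlgHom.ofLinearMap (T.act : C.A (A.prod A) →ₗ[ℚ] T.M A →ₗ[ℚ] T.M A)
    (LinearMap.ext fun m => hT.act_id m)
    (fun a b => LinearMap.ext fun m => hT.act_comp (X := A) (Y := A) (Z := A) b a m)

lemma tau0_apply (A : 𝒱.Obj) (a : Cor C A) (m : T.M A) :
    tau0 hT A a m = T.act (X := A) (Y := A) a m := rfl

omit hT in
include hC in
lemma tens_comp_dg (a b : C.A (A.prod A)) (Y : 𝒱.Obj) :
    C.comp (tens C b (dg C Y)) (tens C a (dg C Y)) = tens C (C.comp b a) (dg C Y) := by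
  rw [tens_comp', comp_dg]

/-- The action of the self-correspondences of `A` on `T(A × Y)`. -/
noncomputable def tau (hT : IsCorrTheory T) (A Y : 𝒱.Obj) :
    Cor C A →ₐ[ℚ] Module.End ℚ (T.M (A.prod Y)) :=
  AlgHom.ofLinearMap (T.act ∘ₗ (tensL (C := C) (X := A) (Y := A)).flip (dg C Y) :
      C.A (A.prod A) →ₗ[ℚ] T.M (A.prod Y) →ₗ[ℚ] T.M (A.prod Y))
    (LinearMap.ext fun m => by
      change T.act (tens C (dg C A) (dg C Y)) m = m
      rw [tens_dg]
      exact hT.act_id m)
    (fun a b => LinearMap.ext fun m =>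
      (congrArg (fun G => T.act G m) (tens_comp_dg (a : C.A (A.prod A)) (b : C.A (A.prod A)) Y)).symm.trans
        (hT.act_comp _ _ _))

lemma tau_apply (A Y : 𝒱.Obj) (a : Cor C A) (m : T.M (A.prod Y)) :
    tau hT A Y a m = T.act (tens C (X := A) (Y := A) a (dg C Y)) m := rfl

omit hT in
include hC in
/-- The external product of a cograph with the diagonal. -/
lemma tens_cograph_dg (f : A ⟶ A) (Y : 𝒱.Obj) :
    tens C (C.cograph f) (dg C Y) = C.cograph (prodMap f (𝟙 Y)) := by
  have e0 : C.ext (X := A) (Y := Y) 1 1 = 1 := by rw [TheoryData.ext, map_one, map_one, one_mul]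
  rw [tens_eq C, pull_iso C (mid A Y A Y) (mid A A Y Y) (mid_mid _ _ _ _) (mid_mid _ _ _ _), dg,
    TheoryData.graph, TheoryData.cograph, TheoryData.cograph, ← push_ext C, ← C.push_comp, e0]
  congr 1
  have e1 : prodMap (Obj.lift f (𝟙 A)) (Obj.lift (𝟙 Y) (𝟙 Y)) ≫ mid A A Y Y =
      Obj.lift (prodMap f (𝟙 Y)) (𝟙 (A.prod Y)) := by
    apply prod_ext
    · apply prod_ext <;> simp [mid, prodMap, comp_lift]
    · apply prod_ext <;> simp [mid, prodMap, comp_lift]
  rw [e1]

/-- The pull-back by an endomorphism as an element of the ring of correspondences. -/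
noncomputable def fr (C : TheoryData.{u, v, 0} 𝒱 ℚ) {A : 𝒱.Obj} (f : A ⟶ A) : Cor C A :=
  (C.cograph f : C.A (A.prod A))

lemma tau_fr (f : A ⟶ A) (m : T.M (A.prod Y)) :
    tau hT A Y (fr C f) m = pullT T (prodMap f (𝟙 Y)) m := by
  rw [tau_apply, fr, tens_cograph_dg]
  rfl

lemma tau0_fr (f : A ⟶ A) (m : T.M A) : tau0 hT A (fr C f) m = pullT T f m := rfl

/-- The correspondence `x ↦ ∑ deg (x · E k) D k` as an element of the ring. -/
noncomputable def projE (C : TheoryData.{u, v, 0} 𝒱 ℚ) {A : 𝒱.Obj} {m : ℕ} (D E : Fin m → C.A A) :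
    Cor C A := (∑ t, C.ext (E t) (D t) : C.A (A.prod A))

/-- The part of the theory on which the endomorphism `f` of `A` acts as multiplication by `q ^ j` is
given by algebraic classes, up to nilpotent correspondences. -/
def Split (C : TheoryData.{u, v, 0} 𝒱 ℚ) [IsChowProj C] {A : 𝒱.Obj} (f : A ⟶ A) (q j : ℕ) : Prop :=
  ∃ (m : ℕ) (D E : Fin m → C.A A), (∀ t, D t ∈ C.gr A j) ∧
    (∀ t, E t ∈ C.gr A ((A.dim : ℤ) - j)) ∧ ∃ P : ℚ[X], P.eval ((q : ℚ) ^ j) ≠ 0 ∧
      IsNilpotent ((1 - projE C D E) * aeval (fr C f) P : Cor C A)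

include hT in
/-- Decomposable correspondences factor through `Y`. -/
lemma tau_projE {m j : ℕ} {D E : Fin m → C.A A} (hE : ∀ t, E t ∈ C.gr A ((A.dim : ℤ) - j))
    {r : ℤ} (h0 : T.gr Y (r - j) = ⊥) {z : T.M (A.prod Y)} (hz : z ∈ T.gr (A.prod Y) r) :
    tau hT A Y (projE C D E) z = 0 := by
  rw [tau_apply, projE]
  have h1 : tens C (∑ t, C.ext (E t) (D t)) (dg C Y) = ∑ t, tens C (C.ext (E t) (D t)) (dg C Y) := by
    have := map_sum ((tensL (C := C) (X := A) (Y := A)).flip (dg C Y))
      (fun t => C.ext (E t) (D t)) Finset.univ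
    exact this
  rw [h1, map_sum, LinearMap.sum_apply]
  refine Finset.sum_eq_zero fun t _ => ?_
  rw [tens_ext_left, hT.act_comp]
  have h2 : T.act (wg C (snd A Y) (C.pull (fst A Y) (E t))) z ∈ T.gr Y (r + -(j : ℤ)) := by
    apply hT.act_mem _ hz
    have h3 := wg_mem (snd A Y) (C.pull_mem (fst A Y) (hE t))
    have e1 : (A.dim : ℤ) - j + Y.dim = (A.prod Y).dim + -(j : ℤ) := by
      rw [dim_prod]; push_cast; ring
    rwa [e1] at h3
  rw [← sub_eq_add_neg, h0, Submodule.mem_bot] at h2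
  rw [h2, map_zero]

/-- Eigenvectors and polynomials. -/
lemma aeval_eigen {V : Type*} [AddCommGroup V] [Module ℚ V] {φ : Module.End ℚ V} {c : ℚ} {z : V}
    (h : φ z = c • z) (P : ℚ[X]) : aeval φ P z = P.eval c • z := by
  induction P using Polynomial.induction_on' with
  | add p q hp hq => rw [map_add, LinearMap.add_apply, hp, hq, eval_add, add_smul]
  | monomial n a =>
    have h1 : ∀ n : ℕ, (φ ^ n) z = c ^ n • z := by
      intro n
      induction n with
      | zero => simp
      | succ n ih => rw [pow_succ, Module.End.mul_apply, h, map_smul, ih, smul_smul, pow_succ']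
    rw [aeval_monomial, Module.End.mul_apply, h1, eval_monomial,
      Module.algebraMap_end_apply, smul_smul]

include hT in
/-- **The splitting lemma.** -/
theorem eq_zero_of_split {f : A ⟶ A} {q j : ℕ} (hs : Split C f q j) {r : ℤ}
    (h0 : T.gr Y (r - j) = ⊥) {z : T.M (A.prod Y)} (hz : z ∈ T.gr (A.prod Y) r)
    (hf : pullT T (prodMap f (𝟙 Y)) z = ((q : ℚ) ^ j) • z) : z = 0 := by
  obtain ⟨m, D, E, -, hE, P, hP, n, hn⟩ := hs
  set G : Cor C A := (1 - projE C D E) * aeval (fr C f) P with hG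
  have h1 : tau hT A Y G z = P.eval ((q : ℚ) ^ j) • z := by
    rw [hG, map_mul, Module.End.mul_apply]
    have h2 : tau hT A Y (aeval (fr C f) P) z = P.eval ((q : ℚ) ^ j) • z := by
      rw [← Polynomial.aeval_algHom_apply]
      apply aeval_eigen
      rw [tau_fr, hf]
    rw [h2, map_smul, map_sub, map_one, LinearMap.sub_apply, Module.End.one_apply,
      tau_projE hT hE h0 hz, sub_zero]
  have h2 : ∀ n : ℕ, (tau hT A Y G ^ n) z = P.eval ((q : ℚ) ^ j) ^ n • z := by
    intro n
    induction n with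
    | zero => simp
    | succ n ih => rw [pow_succ, Module.End.mul_apply, h1, map_smul, ih, smul_smul, pow_succ']
  have h3 := h2 n
  rw [← map_pow, hn, map_zero, LinearMap.zero_apply] at h3
  exact (smul_eq_zero.1 h3.symm).resolve_left (pow_ne_zero _ hP)

end tau

end Pool.Agent.Q56.CP
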