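import Pool.Agent.Q56.CP.Defs
import Pool.Agent.Q56.FR.Defs

/-!
# The formula of Beilinson and Bloch for constant and isotrivial varieties: definitions
-/

set_option autoImplicit false

open CategoryTheory AlgebraicGeometry

universe u v w

namespace Pool.Agent.Q56.CP

open Pool.Agent.H914 Pool.Agent.H914.VarClass Pool.Agent.H914.VarClass.Obj
  Pool.Agent.W492.BB Pool.Agent.Y133.Half

/-- The subspace `S` over `F` is finite-dimensional and contains `T`, the subspace `S'` over `F'`
contains `T'`, and `dim S / T = dim S' / T'`. -/
def SameDim {F V F' V' : Type*} [Field F] [AddCommGroup V] [Module F V] [Field F']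
    [AddCommGroup V'] [Module F' V'] (S T : Submodule F V) (S' T' : Submodule F' V') : Prop :=
  Module.Finite F S ∧ T ≤ S ∧ T' ≤ S' ∧
    Module.finrank F S - Module.finrank F T = Module.finrank F' S' - Module.finrank F' T'

variable {k : Type u} [Field k] {𝒱 : VarClass k} {C : TheoryData.{u, v, 0} 𝒱 ℚ} {K : Type w}
  [Field K] {W : 𝒱.Obj} {G : Type}

/-- The space of the classes of cycles `z` of codimension `i + 1` on `W`, invariant under the
endomorphisms `ρ g`, for which `f · z` is homologically trivial. (If `W = Z × B → B` is a constant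
family over a curve and `f` is the class of a fibre: the restriction of `z` to the geometric generic
fibre is homologically trivial.) -/
noncomputable def homCyc (H : WeilTheoryData.{u, v, w} C K) (f : C.A W) (ρ : G → (W ⟶ W))
    (i : ℕ) : Submodule ℚ (C.A W) :=
  Submodule.span ℚ {z | C.Deg (i + 1) z ∧ H.cl (C.mul f z) = 0 ∧ ∀ g, C.up (ρ g) z = z}

/-- The space of the classes of cycles of codimension `i + 1` on `W`, invariant under the
endomorphisms `ρ g`, which are multiples of `f`. (If `W = Z × B → B` is a constant family over a
curve over a finite field and `f` is the class of a fibre: the classes of the cycles in fibres.) -/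
noncomputable def vertCyc (C : TheoryData.{u, v, 0} 𝒱 ℚ) {W : 𝒱.Obj} (f : C.A W)
    (ρ : G → (W ⟶ W)) (i : ℕ) : Submodule ℚ (C.A W) :=
  Submodule.span ℚ {z | (∃ w, C.Deg i w ∧ z = C.mul f w) ∧ ∀ g, C.up (ρ g) z = z}

/-- The space of the classes in the set `S` which are invariant under the endomorphisms `ρ g` and
lie in the generalised eigenspace of `φ` for the eigenvalue `c`. -/
noncomputable def eigInv (H : WeilTheoryData.{u, v, w} C K) (ρ : G → (W ⟶ W)) (φ : W ⟶ W) (c : K)
    (S : Set (H.A W)) : Submodule K (H.A W) :=
  Submodule.span K {x | x ∈ S ∧ (∀ g, H.up (ρ g) x = x) ∧ IsGenEig (hF H φ) c x}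

/-- The formula of Beilinson and Bloch in all codimensions for the generic fibre of `W`, with
invariants under the endomorphisms `ρ g`. For all `i` the quotient of `homCyc` and `vertCyc` (the
group of the homologically trivial cycles of codimension `i + 1` on the generic fibre) is
finite-dimensional, of dimension the multiplicity of the eigenvalue `q ^ (i + 1)` of the Frobenius
endomorphism on the invariant part of `L^1 / L^2`, where `L^1` is the space of the classes killed
by `cl(f)` and `L^2` the space of the multiples of `cl(f)`. (If `W = Z × B → B` is a constant family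
over a curve and `f` is the class of a fibre, `L^1 / L^2` in degree `2 i + 2` is the Kunneth
component `H^(2 i + 1)(Z) ⊗ H^1(B)`; and the eigenvalue `q ^ (i + 1)` only occurs in degree
`2 i + 2`.) -/
def RankFormula (H : WeilTheoryData.{u, v, w} C K) (Fr : ∀ X : 𝒱.Obj, X ⟶ X) (q : ℕ)
    (f : C.A W) (ρ : G → (W ⟶ W)) : Prop :=
  ∀ i : ℕ, SameDim (homCyc H f ρ i) (vertCyc C f ρ i)
    (eigInv H ρ (Fr W) ((q : K) ^ (i + 1)) {x | H.mul (H.cl f) x = 0})
    (eigInv H ρ (Fr W) ((q : K) ^ (i + 1)) (Set.range (H.mul (H.cl f))))

end Pool.Agent.Q56.CP
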