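import Pool.Agent.Q56.CP.DefsQ
import Pool.Agent.Q56.CP.Defs
import Pool.Agent.Q56.FR.Defs

/-!
# Products of the members of a family: definitions
-/

set_option autoImplicit false

open CategoryTheory AlgebraicGeometry

universe u v w

namespace Pool.Agent.Q56.CP

open Pool.Agent.H914 Pool.Agent.H914.VarClass Pool.Agent.H914.VarClass.Obj
  Pool.Agent.W492.BB Pool.Agent.Q56.FE Pool.Agent.Q56.FR

variable {k : Type u} [Field k] {𝒱 : VarClass k}

/-- The products of at least one and at most `N` (possibly equal) members of the family `𝒮`. -/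
def prods (𝒮 : Set 𝒱.Obj) (N : ℕ) : Set 𝒱.Obj :=
  {W | ∃ (Z : 𝒱.Obj) (l : List 𝒱.Obj), (∀ Y ∈ Z :: l, Y ∈ 𝒮) ∧ l.length < N ∧ W = prodL Z l}

/-- The products of finitely many members of the family `𝒮`. -/
def allProds (𝒮 : Set 𝒱.Obj) : Set 𝒱.Obj := {W | ∃ N, W ∈ prods 𝒮 N}

/-- The explicit number of factors `(2 L!)! (4 (d + 1) L!) ^ (2 ^ L)` with
`L = (2 d + 1) (2 ^ (b + 1) q ^ (d b) + 1) ^ (b + 1) b`. -/
def famBound (q b d : ℕ) : ℕ := exactBound (letterBound q b d) d

end Pool.Agent.Q56.CP
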