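import Pool.Agent.Q56.CP.Thy

/-!
# Direct factors
-/

set_option autoImplicit false
set_option linter.unusedSectionVars false

open CategoryTheory AlgebraicGeometry

universe u v w

namespace Pool.Agent.Q56.CP

open Module Pool.Agent.H914 Pool.Agent.H914.VarClass Pool.Agent.H914.VarClass.Obj
  Pool.Agent.W492.BB Pool.Agent.W550.Corr Pool.Agent.TH133 Pool.Agent.W484.CH Pool.Agent.Q56.FD

variable {k : Type u} [Field k] {𝒱 : VarClass k} {C : TheoryData.{u, v, 0} 𝒱 ℚ}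

/-- The Chow motive of `Z` is a direct factor of the Chow motive of `W`. -/
def IsFactor (C : TheoryData.{u, v, 0} 𝒱 ℚ) (Z W : 𝒱.Obj) : Prop :=
  ∃ (Q : C.A (Z.prod W)) (P : C.A (W.prod Z)), C.Deg Z.dim Q ∧ C.Deg W.dim P ∧
    C.comp Q P = C.graph (𝟙 Z)

variable [hC : IsChowProj C] {X Y Z W A : 𝒱.Obj}

/-- The vanishing of a theory descends to direct factors. -/
lemma IsFactor.vanish {T : CorrData C} (hT : IsCorrTheory T) (h : IsFactor C Z W) {i : ℤ}
    (h0 : T.gr W i = ⊥) : T.gr Z i = ⊥ := by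
  obtain ⟨Q, P, hQ, hP, hQP⟩ := h
  rw [eq_bot_iff]
  intro z hz
  have h1 : T.act Q z ∈ T.gr W (i + 0) := hT.act_mem (by rw [add_zero]; exact hQ) hz
  rw [add_zero, h0, Submodule.mem_bot] at h1
  have h2 := hT.act_comp Q P z
  rw [h1, map_zero, hQP] at h2
  rw [Submodule.mem_bot, ← h2]
  exact (hT.act_id z).symm

/-- The vanishing of a theory descends to direct factors of sums. -/
lemma IsSumFactor.vanish {T : CorrData C} (hT : IsCorrTheory T) {𝒮 : Set 𝒱.Obj}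
    (h : IsSumFactor C 𝒮 Z) (h0 : ∀ W ∈ 𝒮, ∀ i, T.gr W i = ⊥) (i : ℤ) : T.gr Z i = ⊥ := by
  obtain ⟨m, W, n, Q, P, hW, hQ, hP, hQP⟩ := h
  rw [eq_bot_iff]
  intro z hz
  have h2 : T.act (∑ l, C.comp (Q l) (P l)) z = 0 := by
    rw [map_sum, LinearMap.sum_apply]
    refine Finset.sum_eq_zero fun l _ => ?_
    have h1 : T.act (Q l) z ∈ T.gr (W l) (i + n l) := hT.act_mem (hQ l) hz
    rw [h0 _ (hW l), Submodule.mem_bot] at h1
    rw [hT.act_comp, h1, map_zero]
  rw [hQP] at h2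
  rw [Submodule.mem_bot, ← h2]
  exact (hT.act_id z).symm

lemma IsFactor.refl (Z : 𝒱.Obj) : IsFactor C Z Z :=
  ⟨dg C Z, dg C Z, dg_mem C Z, dg_mem C Z, comp_dg C _⟩

lemma IsFactor.trans {V : 𝒱.Obj} (h : IsFactor C Z W) (h' : IsFactor C W V) :
    IsFactor C Z V := by
  obtain ⟨Q, P, hQ, hP, hQP⟩ := h
  obtain ⟨Q', P', hQ', hP', hQP'⟩ := h'
  refine ⟨C.comp Q Q', C.comp P' P, ?_, ?_, ?_⟩
  · have h1 := comp_mem C (e := 0) (e' := 0) (Γ := Q) (Δ := Q') (by rwa [add_zero])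
      (by rwa [add_zero])
    rwa [add_zero, add_zero] at h1
  · have h1 := comp_mem C (e := 0) (e' := 0) (Γ := P') (Δ := P) (by rwa [add_zero])
      (by rwa [add_zero])
    rwa [add_zero, add_zero] at h1
  · rw [comp_assoc, ← comp_assoc C Q' P' P, hQP']
    have h1 : C.comp (C.graph (𝟙 W)) P = P := dg_comp C P
    rw [h1, hQP]

lemma IsFactor.of_iso {f : Z ⟶ W} {g : W ⟶ Z} (h : f ≫ g = 𝟙 Z) : IsFactor C Z W := by
  refine ⟨C.cograph g, C.cograph f, W484.CH.cograph_mem g, W484.CH.cograph_mem f, ?_⟩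
  rw [cograph_comp, h]
  rfl

lemma IsFactor.snd (A Z : 𝒱.Obj) : IsFactor C Z (A.prod Z) := by
  obtain ⟨a, ha, -, ha2⟩ := exists_deg_one C A
  refine ⟨extBy C Z 1, pairBy C Z a, ?_, ?_, ?_⟩
  · have h1 := extBy_mem (Z := Z) (C.one_mem A)
    rwa [add_zero] at h1
  · have h1 : C.Deg ((A.prod Z).dim + -0) (pairBy C Z a) :=
      pairBy_mem (by rw [sub_zero]; exact ha)
    rwa [neg_zero, add_zero] at h1
  · rw [comp_extBy_pairBy C a 1 (chow_mul_comm _ _) 1 (by rw [one_mul, ha2 Z, one_smul]),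
      one_smul]
    rfl

lemma IsFactor.fst (A Z : 𝒱.Obj) : IsFactor C A (A.prod Z) :=
  (IsFactor.snd Z A).trans (IsFactor.of_iso (f := sw Z A) (g := sw A Z) sw_sw)

lemma IsFactor.sum {𝒮 : Set 𝒱.Obj} (h : IsFactor C Z W) (hW : W ∈ 𝒮) : IsSumFactor C 𝒮 Z := by
  obtain ⟨Q, P, hQ, hP, hQP⟩ := h
  refine ⟨1, fun _ => W, fun _ => 0, fun _ => Q, fun _ => P, fun _ => hW, fun _ => ?_,
    fun _ => ?_, ?_⟩
  · rw [add_zero]; exact hQ
  · rw [sub_zero]; exact hP
  · rw [Finset.univ_unique, Finset.sum_singleton, hQP]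

section weil

variable {K : Type w} [Field K] [CharZero K] {H : WeilTheoryData.{u, v, w} C K}
  [hH : IsWeilProj H]

/-- Nilpotence descends to direct factors. -/
theorem IsFactor.nilpotence (h : IsFactor C Z W) (hN : Nilpotence H W) : Nilpotence H Z := by
  obtain ⟨Q, P, hQ, hP, hQP⟩ := h
  intro Γ hΓ h0
  let Γ' : C.A (W.prod W) := C.comp P (C.comp Γ Q)
  have hΓ' : C.Deg W.dim Γ' := by
    have h1 := comp_mem C (e := 0) (e' := 0) (Γ := Γ) (Δ := Q) (by rwa [add_zero])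
      (by rwa [add_zero])
    rw [add_zero] at h1
    have h2 := comp_mem C (e := 0) (e' := 0) (Γ := P) (Δ := C.comp Γ Q) (by rwa [add_zero]) h1
    rwa [add_zero, add_zero] at h2
  obtain ⟨n, hn⟩ := hN Γ' hΓ' fun a => by
    rw [act_cl_comp, act_cl_comp, h0, H.act_map_zero]
  have hid : C.comp (C.graph (𝟙 Z)) Γ = Γ := dg_comp C Γ
  have hpow : ∀ n, powC C Γ' (n + 1) = C.comp P (C.comp (powC C Γ (n + 1)) Q) := by
    intro n
    induction n with
    | zero =>
      change C.comp (dg C W) Γ' = C.comp P (C.comp (C.comp (dg C Z) Γ) Q)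
      rw [dg_comp, dg_comp]
    | succ n ih =>
      change C.comp (powC C Γ' (n + 1)) Γ' = C.comp P (C.comp (C.comp (powC C Γ (n + 1)) Γ) Q)
      rw [ih]
      change C.comp (C.comp P (C.comp (powC C Γ (n + 1)) Q)) (C.comp P (C.comp Γ Q)) = _
      rw [comp_assoc, comp_assoc C (powC C Γ (n + 1)) Q, ← comp_assoc C Q P, hQP,
        ← comp_assoc C (C.graph (𝟙 Z)), hid, ← comp_assoc C (powC C Γ (n + 1)) Γ Q]
  refine ⟨n + 1, ?_⟩
  have h1 : powC C Γ' (n + 1) = 0 := by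
    change C.comp (powC C Γ' n) Γ' = 0
    rw [hn, zero_comp]
  have h2 := congrArg (fun G => C.comp Q (C.comp G P)) (hpow n)
  beta_reduce at h2
  rw [h1, zero_comp, comp_zero] at h2
  have h3 : C.comp Q (C.comp (C.comp P (C.comp (powC C Γ (n + 1)) Q)) P) =
      powC C Γ (n + 1) := by
    rw [comp_assoc, ← comp_assoc C Q P, comp_assoc C (powC C Γ (n + 1)) Q P, hQP]
    have h4 : C.comp (powC C Γ (n + 1)) (C.graph (𝟙 Z)) = powC C Γ (n + 1) := comp_dg C _
    have h5 : C.comp (C.graph (𝟙 Z)) (powC C Γ (n + 1)) = powC C Γ (n + 1) := dg_comp C _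
    rw [h4, h5]
  rw [h3] at h2
  exact h2.symm

variable {Fr : ∀ X : 𝒱.Obj, X ⟶ X} {q : ℕ}

/-- The strong Tate conjecture descends to direct factors. -/
theorem IsFactor.strong (hF : IsFrobFamily C Fr q) (hq : q ≠ 0)
    (hfin : ∀ X, Module.Finite K (H.A X)) (h : IsFactor C Z W)
    (hT : ∀ j, StrongTateAt H (Fr W) q j) (j : ℕ) : StrongTateAt H (Fr Z) q j :=
  strong_of_coh (h.vanish (cohData_isCorr hF hq hfin) (coh_of_strong hF (hT j)))

/-- Rational and numerical equivalence on direct factors. -/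
theorem IsFactor.ratEqNum (h : IsFactor C Z W) (hW : RatEqNum H W) : RatEqNum H Z :=
  ratEqNum_of H fun i => h.vanish (T := numData H) (numData_isCorr H) (num_of_ratEqNum hW i)

end weil

end Pool.Agent.Q56.CP
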