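import Pool.Agent.Q56.CP.BB
import Pool.Agent.Q56.CP.DefsF
import Pool.Agent.Q56.FR.Univ

/-!
# Products of the members of a family
-/

set_option autoImplicit false
set_option linter.unusedSectionVars false

open CategoryTheory AlgebraicGeometry

universe u v w

namespace Pool.Agent.Q56.CP

open Module Polynomial Pool.Agent.H914 Pool.Agent.H914.VarClass Pool.Agent.H914.VarClass.Obj
  Pool.Agent.W492.BB Pool.Agent.W550.Corr Pool.Agent.TH133 Pool.Agent.W484.CH Pool.Agent.Q56.FD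
  Pool.Agent.Q56.FE Pool.Agent.Q56.FR Pool.Agent.Y133.Half

variable {k : Type u} [Field k] {𝒱 : VarClass k}

lemma isProd_congr {κ : Type} {F G : κ → 𝒱.Obj} (h : F = G) {Z : 𝒱.Obj}
    {pr : ∀ i, Z ⟶ G i} (hG : IsProd G Z pr) : ∃ pr' : ∀ i, Z ⟶ F i, IsProd F Z pr' := by
  subst h
  exact ⟨pr, hG⟩

/-- The products of lists are products. -/
lemma exists_isProd_prodL {𝒮 : Set 𝒱.Obj} (Z : 𝒱.Obj) : ∀ (l : List 𝒱.Obj),
    (∀ Y ∈ Z :: l, Y ∈ 𝒮) → ∃ (κ : Type) (_ : Fintype κ) (X : κ → 𝒱.Obj)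
      (pr : ∀ i, prodL Z l ⟶ X i), Fintype.card κ = l.length + 1 ∧ (∀ i, X i ∈ 𝒮) ∧
        IsProd X (prodL Z l) pr := by
  intro l
  induction l with
  | nil =>
    intro h
    exact ⟨Unit, inferInstance, fun _ => Z, fun _ => 𝟙 Z, rfl, fun _ => h Z List.mem_cons_self,
      IsProd.one Z⟩
  | cons Y l ih =>
    intro h
    obtain ⟨κ, hκ, X, pr, hc, hX, hp⟩ := ih fun V hV => h V (by
      rcases List.mem_cons.1 hV with rfl | hV
      · exact List.mem_cons_self
      · exact List.mem_cons_of_mem _ (List.mem_cons_of_mem _ hV))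
    refine ⟨Option κ, inferInstance, fun o => o.elim Y X, _, ?_, ?_,
      IsProd.option (X := fun o : Option κ => o.elim Y X) (pr := pr) hp⟩
    · rw [Fintype.card_option, hc, List.length_cons]
    · rintro (_ | i)
      · exact h Y (List.mem_cons_of_mem _ List.mem_cons_self)
      · exact hX i

/-- Finite products are products of lists. -/
lemma exists_prodL_fin {𝒮 : Set 𝒱.Obj} : ∀ (n : ℕ) (X : Fin (n + 1) → 𝒱.Obj),
    (∀ i, X i ∈ 𝒮) → ∃ (Z : 𝒱.Obj) (l : List 𝒱.Obj) (pr : ∀ i, prodL Z l ⟶ X i),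
      (∀ Y ∈ Z :: l, Y ∈ 𝒮) ∧ l.length = n ∧ IsProd X (prodL Z l) pr := by
  intro n
  induction n with
  | zero =>
    intro X hX
    obtain ⟨pr, h⟩ := isProd_congr (F := X) (G := fun _ => X 0)
      (funext fun i => by rw [Subsingleton.elim (α := Fin 1) i 0])
      ((IsProd.one (X 0)).reindex (κ := Fin 1) (Equiv.ofUnique _ _))
    refine ⟨X 0, [], pr, fun Y hY => ?_, rfl, h⟩
    rw [List.mem_singleton.1 hY]
    exact hX 0
  | succ n ih =>
    intro X hX
    let e := finSuccEquiv (n + 1)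
    let X' : Option (Fin (n + 1)) → 𝒱.Obj := fun o => X (e.symm o)
    obtain ⟨Z, l, pr, h1, h2, h3⟩ := ih (fun i => X' (some i)) fun i => hX _
    have h4 := (IsProd.option (X := X') (pr := pr) h3).reindex e
    obtain ⟨pr', h5⟩ := isProd_congr (F := X) (G := fun i => X' (e i))
      (funext fun i => by
        change X i = X (e.symm (e i))
        rw [Equiv.symm_apply_apply]) h4
    refine ⟨Z, X' none :: l, pr', fun Y hY => ?_, by rw [List.length_cons, h2], h5⟩
    rcases List.mem_cons.1 hY with rfl | hY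
    · exact h1 _ List.mem_cons_self
    · rcases List.mem_cons.1 hY with rfl | hY
      · exact hX _
      · exact h1 _ (List.mem_cons_of_mem _ hY)

variable {C : TheoryData.{u, v, 0} 𝒱 ℚ} {K : Type w}
  [Field K] [CharZero K] {H : WeilTheoryData.{u, v, w} C K} [hC : IsChowProj C]
  [hH : IsWeilProj H] {Fr : ∀ X : 𝒱.Obj, X ⟶ X} {p a : ℕ} [Fact p.Prime] {X Y Z : 𝒱.Obj}
  {𝒮 : Set 𝒱.Obj}

/-- Finite products of members of the family are isomorphic to products of lists. -/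
lemma factor_prods {ι : Type} [Fintype ι] [Nonempty ι] {X : ι → 𝒱.Obj} (hX : ∀ i, X i ∈ 𝒮)
    {N : ℕ} (hN : Fintype.card ι ≤ N) {A : 𝒱.Obj} {pr : ∀ i, A ⟶ X i} (h : IsProd X A pr) :
    ∃ W ∈ prods 𝒮 N, IsFactor C A W := by
  obtain ⟨n, hn⟩ : ∃ n, Fintype.card ι = n + 1 :=
    ⟨Fintype.card ι - 1, by have := Fintype.card_pos (α := ι); omega⟩
  let e : Fin (n + 1) ≃ ι := (Fintype.equivFinOfCardEq hn).symm
  obtain ⟨Z, l, pr', h1, h2, h3⟩ := exists_prodL_fin n (fun i => X (e i)) fun i => hX _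
  exact ⟨_, ⟨Z, l, h1, by omega, rfl⟩, factor_of_isProd (h.reindex e) h3⟩

/-- **Products of the members of a family.** -/
theorem fam_vanish (hFr : IsFrobTheory H Fr p a) (ha : 0 < a) {b d : ℕ}
    (hb : ∀ X ∈ 𝒮, finrank K (H.A X) ≤ b) (hd : ∀ X ∈ 𝒮, X.dim ≤ d)
    (hN : ∀ W ∈ prods 𝒮 (famBound (p ^ a) b d), NilTate H Fr (p ^ a) W)
    (hZ : IsSumFactor C (allProds 𝒮) Z) {T : CorrData C} (hT : IsPure T Fr (p ^ a)) (r : ℤ) :
    T.gr Z r = ⊥ := by
  classical
  have hq1 : 1 ≤ p ^ a := (one_lt_pow_prime ha).le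
  have hq : p ^ a ≠ 0 := by omega
  refine hZ.vanish hT.corr ?_ r
  rintro _ ⟨n, V, l, hl, -, rfl⟩ i
  obtain ⟨κ, hκ, X, pr, hc, hX, h⟩ := exists_isProd_prodL V l hl
  have hne : Nonempty κ := Fintype.card_pos_iff.1 (by omega)
  refine vanish_of (S := 𝒮) (Q := univPoly p (p ^ a) b d) (M := 2 * d)
    (b := letterBound (p ^ a) b d) (d := d) hFr ha (fun i _ => univPoly_isFrob i)
    sum_natDegree_univ le_rfl ?_ ?_ hT hX h i
  · intro Y hY
    have hfin := hFr.finite Y
    choose R hR1 hR2 hR3 using hFr.weil Y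
    refine ⟨R, fun i _ => ⟨(hR1 i).monic.ne_zero, hR3 i⟩, fun α i hi hα => ?_⟩
    have h1 : i ≤ 2 * d := hi.trans (by have := hd Y hY; omega)
    refine ⟨i, h1, ?_⟩
    have h2 : (R i).natDegree ≤ b := by
      rw [hR2]
      exact (Submodule.finrank_le _).trans (hb Y hY)
    obtain ⟨S, hS⟩ := dvd_univPoly (d := d) hq1 (hR1 i) h1 h2
    rw [hS, map_mul, hα, zero_mul]
  · intro ι _ _ X' hX' hcard A prA hA
    obtain ⟨W, hW, hf⟩ := factor_prods (C := C) hX' hcard hA
    obtain ⟨h1, h2⟩ := hN W hW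
    exact ⟨hf.nilpotence (nilp_iff.1 h1), hf.strong hFr.fam hq hFr.finite h2⟩

/-- Pure theories as theories on which correspondences act. -/
noncomputable def Pure.toCorr {q : ℕ} (T : Pure C Fr q) : CorrData C :=
  letI := T.group
  letI := T.module
  { M := T.M
    gr := T.gr
    act := fun {_ _} => (AddMonoidHom.mk' (fun Γ =>
      (AddMonoidHom.mk' (fun m => T.act Γ m) (T.act_add Γ)).toRatLinearMap)
      (fun Γ Δ => LinearMap.ext fun m => by
        rw [LinearMap.add_apply]; exact T.add_act Γ Δ m)).toRatLinearMap }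

lemma Pure.isPure {q : ℕ} (T : Pure C Fr q) : IsPure T.toCorr Fr q where
  corr :=
    { app_mem := fun h h' => T.act_mem h h'
      app_comp := fun Γ Δ m => T.act_comp Γ Δ m
      app_id := fun m => T.act_id m }
  power _ := fun _ _ h => T.act_frob h
  zero X := T.gr_zero X

/-- The converse. -/
noncomputable def toPure {q : ℕ} (T : CorrData C) (hT : IsPure T Fr q) : Pure C Fr q where
  M := T.M
  gr := T.gr
  act := fun Γ m => T.act Γ m
  act_add Γ m n := map_add _ m n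
  add_act Γ Δ m := by rw [map_add]; rfl
  act_mem h h' := hT.corr.act_mem h h'
  act_comp Γ Δ m := hT.corr.act_comp Γ Δ m
  act_id m := hT.corr.act_id m
  act_frob h := hT.power _ _ _ h
  gr_zero X := hT.zero X

/-- **Pure theories on the varieties generated by a family.** -/
theorem fam_main (hFr : IsFrobTheory H Fr p a) (ha : 0 < a) {b d : ℕ}
    (hb : ∀ X ∈ 𝒮, finrank K (H.A X) ≤ b) (hd : ∀ X ∈ 𝒮, X.dim ≤ d)
    (hgen : ∀ Z : 𝒱.Obj, IsSumFactor C (allProds 𝒮) Z) :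
    List.TFAE [∀ Z, Parshin C Fr (p ^ a) Z, NumTate H Fr (p ^ a),
      ∀ W ∈ prods 𝒮 (famBound (p ^ a) b d), NilTate H Fr (p ^ a) W] := by
  tfae_have 3 → 1 := fun h Z T r => fam_vanish hFr ha hb hd h (hgen Z) T.isPure r
  tfae_have 1 → 2 := by
    intro h
    exact ⟨fun Z => ratEqNum_of H fun i => h Z (toPure _ hFr.numData_pure) i,
      fun Z j => strong_of_coh (h Z (toPure _ hFr.cohData_pure) j)⟩
  tfae_have 2 → 3 := by
    rintro ⟨h1, h2⟩ W -
    exact ⟨nilp_iff.2 (nilpotence_of_ratEqHom (ratEqHom_of_num (h1 _))), h2 W⟩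
  tfae_finish

end Pool.Agent.Q56.CP
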