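import Pool.Agent.Q56.CP.Desc
import Pool.Agent.Q56.CP.Comb
import Pool.Agent.Q56.CP.DefsP
import Pool.Agent.Q56.FR.Univ
import Pool.Agent.Y133.Half.PwDefs

/-!
# Theories on the products of the members of a family of varieties over a finite field
-/

set_option autoImplicit false
set_option linter.unusedSectionVars false

open CategoryTheory AlgebraicGeometry

universe u v w

namespace Pool.Agent.Q56.CP

open Module Polynomial Pool.Agent.H914 Pool.Agent.H914.VarClass Pool.Agent.H914.VarClass.Obj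
  Pool.Agent.W492.BB Pool.Agent.W550.Corr Pool.Agent.TH133 Pool.Agent.W484.CH Pool.Agent.Q56.FD
  Pool.Agent.Q56.FE Pool.Agent.Y133.Half

variable {k : Type u} [Field k] {𝒱 : VarClass k} {C : TheoryData.{u, v, 0} 𝒱 ℚ} {K : Type w}
  [Field K]

theorem isFrobenius_of {X : 𝒱.Obj} {f : X ⟶ X} {q : ℕ} (h : IsFrobEnd C f q) :
    IsFrobenius C f q := ⟨h.chow, h.degree⟩

theorem IsFrobTheory.frobenius {H : WeilTheoryData.{u, v, w} C K} {Fr : ∀ X : 𝒱.Obj, X ⟶ X}
    {p a : ℕ} [Fact p.Prime] (h : IsFrobTheory H Fr p a) (X : 𝒱.Obj) :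
    IsFrobenius C (Fr X) (p ^ a) := isFrobenius_of (h.frob X)

theorem itC_eq {X : 𝒱.Obj} (Γ : C.A (X.prod X)) (n : ℕ) : itC C Γ n = powC C Γ n := by
  induction n with
  | zero => rfl
  | succ n ih =>
    change C.comp (itC C Γ n) Γ = C.comp (powC C Γ n) Γ
    rw [ih]

theorem nilp_iff {H : WeilTheoryData.{u, v, w} C K} {X : 𝒱.Obj} :
    Nilp H X ↔ Nilpotence H X := by
  simp only [Nilp, Nilpotence, itC_eq]

theorem ratNum_iff {H : WeilTheoryData.{u, v, w} C K} {X : 𝒱.Obj} :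
    RatNum H X ↔ RatEqNum H X := Iff.rfl

theorem IsFrobTheory.weil {H : WeilTheoryData.{u, v, w} C K} {Fr : ∀ X : 𝒱.Obj, X ⟶ X} {p a : ℕ}
    [Fact p.Prime] (h : IsFrobTheory H Fr p a) (X : 𝒱.Obj) (i : ℕ) : ∃ P : ℤ[X],
    IsFrobPoly p (p ^ a) i P ∧ P.natDegree = Module.finrank K (H.gr X i) ∧
    ∀ x ∈ H.gr X i, aeval (hF H (Fr X)) P x = 0 := h.poly X i

variable [CharZero K] {H : WeilTheoryData.{u, v, w} C K} [hC : IsChowProj C] [hH : IsWeilProj H]
  {Fr : ∀ X : 𝒱.Obj, X ⟶ X} {p a : ℕ} [Fact p.Prime] {X Y Z : 𝒱.Obj}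

lemma one_lt_pow_prime (ha : 0 < a) : 1 < p ^ a :=
  Nat.one_lt_pow ha.ne' (Fact.out : p.Prime).one_lt

lemma exactBound_pos (b d : ℕ) : 0 < exactBound b d := by
  refine Nat.mul_pos (torsBound_pos b) ?_
  unfold powBound
  positivity

namespace IsFrobTheory

variable (hF : IsFrobTheory H Fr p a)

include hF

lemma fam : IsFrobFamily C Fr (p ^ a) := ⟨hF.nat, hF.frobenius⟩

lemma weights (X : 𝒱.Obj) : Weights H (Fr X) (p ^ a) := by
  intro i
  obtain ⟨P, hP, -, hP2⟩ := hF.weil X i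
  exact ⟨P, hP.monic.ne_zero, hP.weil, hP2⟩

/-- Splittings from the strong Tate conjecture and nilpotence. -/
theorem split (ha : 0 < a) (hN : Nilpotence H X) (hT : StrongTate H Fr (p ^ a) X) (j : ℕ) :
    Split C (Fr X) (p ^ a) j := by
  have hfin := hF.finite X
  choose Q hQ using hF.weil X
  have h1 : chi X Q ≠ 0 := Finset.prod_ne_zero_iff.2 fun i _ => (hQ i).1.monic.ne_zero
  refine split_of (one_lt_pow_prime ha) (hF.frobenius X) (hF.weights X) hN
    (χ := (chi X Q).map (algebraMap ℤ ℚ))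
    ((Polynomial.map_ne_zero_iff (algebraMap ℤ ℚ).injective_int).2 h1) ?_ hT j
  rw [aeval_map_rat]
  exact chi_kills fun i _ => (hQ i).2.2

lemma numData_pure : IsPure (numData H) Fr (p ^ a) where
  corr := numData_isCorr H
  power X := numData_power H (hF.frobenius X)
  zero X := numTriv_zero H X

lemma cohData_pure : IsPure (cohData H Fr (p ^ a)) Fr (p ^ a) where
  corr := cohData_isCorr hF.fam (pow_ne_zero a (Fact.out : p.Prime).ne_zero) hF.finite
  power _ := cohData_power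
  zero X := cohData_zero X

end IsFrobTheory

/-- The sum of the dimensions of the graded pieces. -/
lemma sum_finrank_le {V : Type*} [AddCommGroup V] [Module K V] [Module.Finite K V]
    {G : ℤ → Submodule K V} (hG : DirectSum.IsInternal G) (n : ℕ) :
    ∑ i ∈ Finset.range n, finrank K (G i) ≤ finrank K V := by
  classical
  have h1 : iSupIndep fun i : Fin n => G ((i : ℕ) : ℤ) :=
    hG.submodule_iSupIndep.comp (f := fun i : Fin n => ((i : ℕ) : ℤ)) (by
      intro i j hij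
      simpa [Fin.ext_iff] using hij)
  have h2 := LinearMap.finrank_le_finrank_of_injective h1.dfinsupp_lsum_injective
  rw [← Fin.sum_univ_eq_sum_range fun i => finrank K (G i)]
  rw [← Module.finrank_directSum]
  exact h2

/-- **The main theorem.** If the strong Tate conjecture and nilpotence hold for the products of
at most `exactBound b d` members of `S`, then all pure theories vanish on all products of members
of `S`. -/
theorem vanish_of {S : Set 𝒱.Obj} {Q : ℕ → ℤ[X]} {M b d : ℕ} (hFr : IsFrobTheory H Fr p a)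
    (ha : 0 < a) (hQ : ∀ i ≤ M, IsFrobPoly p (p ^ a) i (Q i))
    (hb : ∑ i ∈ Finset.range (M + 1), (Q i).natDegree ≤ b) (hM : M ≤ 2 * d)
    (hS : ∀ X ∈ S, ∃ R : ℕ → ℤ[X], (∀ i ≤ 2 * X.dim, R i ≠ 0 ∧
      ∀ x ∈ H.gr X i, aeval (hF H (Fr X)) (R i) x = 0) ∧
      ∀ α : Qb, ∀ i ≤ 2 * X.dim, aeval α (R i) = 0 → α ∈ eigSet Q M)
    (hN : ∀ (ι : Type) [Fintype ι] [Nonempty ι] (X : ι → 𝒱.Obj), (∀ i, X i ∈ S) →
      Fintype.card ι ≤ exactBound b d → ∀ (A : 𝒱.Obj) (prA : ∀ i, A ⟶ X i), IsProd X A prA →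
      Nilpotence H A ∧ StrongTate H Fr (p ^ a) A)
    {T : CorrData C} (hT : IsPure T Fr (p ^ a)) {ι : Type} [Finite ι] [Nonempty ι]
    {X : ι → 𝒱.Obj} (hX : ∀ i, X i ∈ S) {Z : 𝒱.Obj} {pr : ∀ i, Z ⟶ X i} (hZ : IsProd X Z pr)
    (r : ℤ) : T.gr Z r = ⊥ := by
  have : Fintype ι := Fintype.ofFinite ι
  refine vanish_gen hT.corr hFr.nat (one_lt_pow_prime ha) hT.power
    (𝒜 := fun _ X => ∀ i, X i ∈ S)
    (R := fun _ => eigSet Q M) ?_ ?_ (Z0 := Z) (hT.zero Z) _ ι rfl X hX Z pr hZ r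
  · refine hasBlocks_of T ha hQ hb hM ?_
    intro ι' _ _ X' hX' hcard A prA hA j
    obtain ⟨h1, h2⟩ := hN ι' X' hX' hcard A prA hA
    exact hFr.split ha h1 h2 j
  · intro κ Y hY i
    obtain ⟨R, hR1, hR2⟩ := hS (Y i) (hY i)
    replace hY := hY i
    generalize Y i = Y at *
    have h1 : Nilpotence H Y := by
      refine (hN Unit (fun _ => Y) (fun _ => hY) ?_ Y (fun _ => 𝟙 Y) (IsProd.one Y)).1
      rw [Fintype.card_unit]
      exact exactBound_pos b d
    obtain ⟨P, hP0, hP1, hP2⟩ := exists_relation (f := Fr Y) h1 (fun i hi => (hR1 i hi).1)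
      fun i hi => (hR1 i hi).2
    refine ⟨P, hP0, hP1, fun α hα => ?_⟩
    obtain ⟨i, hi, h2⟩ := hP2 α hα
    exact hR2 α i hi h2

/-! ### Powers -/

section powers

variable {X : 𝒱.Obj}

/-- The power `X ^ (n + 1)` as a product. -/
lemma exists_isProd_pw (X : 𝒱.Obj) (n : ℕ) : ∃ (κ : Type) (_ : Fintype κ),
    Fintype.card κ = n + 1 ∧ ∃ pr : ∀ _ : κ, pw X n ⟶ X, IsProd (fun _ : κ => X) (pw X n) pr := by
  induction n with
  | zero => exact ⟨Unit, inferInstance, rfl, fun _ => 𝟙 X, IsProd.one X⟩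
  | succ n ih =>
    obtain ⟨κ, hκ, hc, pr, h⟩ := ih
    refine ⟨Option κ, inferInstance, ?_, _, IsProd.option (X := fun _ : Option κ => X) h⟩
    rw [Fintype.card_option, hc]

lemma isProd_pw (X : 𝒱.Obj) {n : ℕ} {ι : Type} [Fintype ι] (hι : Fintype.card ι = n + 1) :
    ∃ pr : ∀ _ : ι, pw X n ⟶ X, IsProd (fun _ : ι => X) (pw X n) pr := by
  obtain ⟨κ, hκ, hc, pr, h⟩ := exists_isProd_pw X n
  have e : ι ≃ κ := Fintype.equivOfCardEq (by rw [hι, hc])
  exact ⟨_, h.reindex e⟩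

omit hC in
lemma factor_of_isProd [hC : IsChowProj C] {ι : Type} {X : ι → 𝒱.Obj} {Z Z' : 𝒱.Obj}
    {pr : ∀ i, Z ⟶ X i} {pr' : ∀ i, Z' ⟶ X i} (h : IsProd X Z pr) (h' : IsProd X Z' pr') :
    IsFactor C Z Z' := by
  obtain ⟨f, g, h1, -⟩ := h.iso h'
  exact IsFactor.of_iso h1

lemma pw_factor (X : 𝒱.Obj) {m n : ℕ} (h : m ≤ n) : IsFactor C (pw X m) (pw X n) := by
  obtain ⟨l, rfl⟩ := Nat.exists_eq_add_of_le h
  clear h
  induction l with
  | zero => exact IsFactor.refl _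
  | succ l ih => exact ih.trans (IsFactor.fst (pw X (m + l)) X)

/-- The square of `X ^ (n + 1)` is `X ^ (2 n + 2)`. -/
lemma sq_factor (X : 𝒱.Obj) (n : ℕ) : IsFactor C ((pw X n).prod (pw X n)) (pw X (2 * n + 1)) := by
  obtain ⟨κ, hκ, hc, pr, h⟩ := exists_isProd_pw X n
  -- the square as a product over `κ ⊕ κ`
  have h1 : IsProd (fun _ : κ ⊕ κ => X) ((pw X n).prod (pw X n))
      (Sum.elim (fun i => fst (pw X n) (pw X n) ≫ pr i) fun i => snd (pw X n) (pw X n) ≫ pr i) := by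
    refine ⟨fun {W} f => ?_, fun {W g g'} hh => ?_⟩
    · obtain ⟨u, hu⟩ := h.lift fun i => f (Sum.inl i)
      obtain ⟨w, hw⟩ := h.lift fun i => f (Sum.inr i)
      refine ⟨Obj.lift u w, fun i => ?_⟩
      rcases i with i | i
      · dsimp only [Sum.elim_inl]
        rw [lift_fst_assoc, hu]
      · dsimp only [Sum.elim_inr]
        rw [lift_snd_assoc, hw]
    · apply prod_ext
      · refine h.ext fun i => ?_
        have := hh (Sum.inl i)
        dsimp only [Sum.elim_inl] at this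
        rwa [← Category.assoc, ← Category.assoc] at this
      · refine h.ext fun i => ?_
        have := hh (Sum.inr i)
        dsimp only [Sum.elim_inr] at this
        rwa [← Category.assoc, ← Category.assoc] at this
  obtain ⟨pr', h'⟩ := isProd_pw X (ι := κ ⊕ κ) (n := 2 * n + 1) (by
    rw [Fintype.card_sum, hc]
    ring)
  exact factor_of_isProd h1 h'

/-- **One power.** -/
theorem powers_vanish (hFr : IsFrobTheory H Fr p a) (ha : 0 < a) {b d : ℕ}
    (hb : finrank K (H.A X) ≤ b) (hd : X.dim ≤ d)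
    (hN : Nilpotence H (pw X (exactBound b d - 1)))
    (hTt : StrongTate H Fr (p ^ a) (pw X (exactBound b d - 1))) {T : CorrData C}
    (hT : IsPure T Fr (p ^ a)) (n : ℕ) (r : ℤ) : T.gr (pw X n) r = ⊥ := by
  classical
  have hfin := hFr.finite X
  choose Q hQ1 hQ2 hQ3 using hFr.weil X
  have hb' : ∑ i ∈ Finset.range (2 * X.dim + 1), (Q i).natDegree ≤ b := by
    rw [Finset.sum_congr rfl fun i _ => hQ2 i]
    exact (sum_finrank_le (H.isInternal X) _).trans hb
  obtain ⟨κ, hκ, hc, pr, h⟩ := exists_isProd_pw X n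
  have hne : Nonempty κ := Fintype.card_pos_iff.1 (by omega)
  refine vanish_of (S := {X}) (Q := Q) (M := 2 * X.dim) (b := b) (d := d) hFr ha
    (fun i _ => hQ1 i) hb' (by omega) ?_ ?_ hT (ι := κ) (X := fun _ => X) (fun _ => rfl) h r
  · rintro Y rfl
    exact ⟨Q, fun i _ => ⟨(hQ1 i).monic.ne_zero, hQ3 i⟩, fun α i hi hα => ⟨i, hi, hα⟩⟩
  · intro ι _ _ X' hX' hcard A prA hA
    obtain rfl : X' = fun _ => X := funext hX'
    obtain ⟨m, hm⟩ : ∃ m, Fintype.card ι = m + 1 :=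
      ⟨Fintype.card ι - 1, by have := Fintype.card_pos (α := ι); omega⟩
    obtain ⟨pr', h'⟩ := isProd_pw X hm
    have h2 : IsFactor C A (pw X (exactBound b d - 1)) :=
      (factor_of_isProd hA h').trans (pw_factor X (by omega))
    exact ⟨h2.nilpotence hN, h2.strong hFr.fam (pow_ne_zero a (Fact.out : p.Prime).ne_zero)
      hFr.finite hTt⟩

/-- Rational and homological equivalence. -/
lemma ratEqHom_of_num (h : RatEqNum H X) : RatEqHom H X := by
  intro i z hz hcl
  refine h i z hz fun j w _ _ => ?_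
  change H.tr X (H.cl (z * w)) = 0
  rw [map_mul, hcl, zero_mul, map_zero]

/-- Nilpotence if rational and homological equivalence coincide on the square. -/
lemma nilpotence_of_ratEqHom (h : RatEqHom H (X.prod X)) : Nilpotence H X := by
  intro Γ hΓ h0
  refine ⟨1, ?_⟩
  have h1 : Γ = 0 := h X.dim Γ hΓ (hom_zero_of_act H h0)
  rw [h1]
  exact comp_zero C (X := X) (Y := X) (Z := X) _

end powers

end Pool.Agent.Q56.CP
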