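import Pool.Agent.Q56.CP.Core

/-!
# Products of finite families of varieties
-/

set_option autoImplicit false
set_option linter.unusedSectionVars false

open CategoryTheory AlgebraicGeometry

universe u v w

namespace Pool.Agent.Q56.CP

open Pool.Agent.H914 Pool.Agent.H914.VarClass Pool.Agent.H914.VarClass.Obj
  Pool.Agent.W492.BB Pool.Agent.W550.Corr Pool.Agent.TH133 Pool.Agent.W484.CH

variable {k : Type u} [Field k] {𝒱 : VarClass k}

/-- The variety `Z` with the projections `pr i : Z ⟶ X i` is a product of the family `X`. -/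
structure IsProd {ι : Type} (X : ι → 𝒱.Obj) (Z : 𝒱.Obj) (pr : ∀ i, Z ⟶ X i) : Prop where
  lift : ∀ {W : 𝒱.Obj} (f : ∀ i, W ⟶ X i), ∃ g : W ⟶ Z, ∀ i, g ≫ pr i = f i
  ext : ∀ {W : 𝒱.Obj} {g g' : W ⟶ Z}, (∀ i, g ≫ pr i = g' ≫ pr i) → g = g'

namespace IsProd

variable {ι κ : Type} {X : ι → 𝒱.Obj} {Z Z' A Y : 𝒱.Obj} {pr : ∀ i, Z ⟶ X i}
  {pr' : ∀ i, Z' ⟶ X i}

/-- Two products of the same family are isomorphic. -/
lemma iso (h : IsProd X Z pr) (h' : IsProd X Z' pr') :
    ∃ (f : Z ⟶ Z') (g : Z' ⟶ Z), f ≫ g = 𝟙 Z ∧ g ≫ f = 𝟙 Z' ∧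
      (∀ i, f ≫ pr' i = pr i) ∧ ∀ i, g ≫ pr i = pr' i := by
  obtain ⟨f, hf⟩ := h'.lift pr
  obtain ⟨g, hg⟩ := h.lift pr'
  refine ⟨f, g, h.ext fun i => ?_, h'.ext fun i => ?_, hf, hg⟩
  · rw [Category.assoc, hg, hf, Category.id_comp]
  · rw [Category.assoc, hf, hg, Category.id_comp]

/-- A variety is the product of the family with one member. -/
lemma one (X : 𝒱.Obj) : IsProd (fun _ : Unit => X) X (fun _ => 𝟙 X) where
  lift f := ⟨f (), fun i => by rw [Category.comp_id]⟩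
  ext h := by
    have := h ()
    rwa [Category.comp_id, Category.comp_id] at this

/-- Reindexing. -/
lemma reindex (h : IsProd X Z pr) (e : κ ≃ ι) :
    IsProd (fun i => X (e i)) Z (fun i => pr (e i)) where
  lift {W} f := by
    have f' : ∀ i, ∃ g : W ⟶ X i, ∀ j (hj : e j = i), f j = g ≫ eqToHom (by rw [hj]) := by
      intro i
      obtain ⟨j, rfl⟩ := e.surjective i
      refine ⟨f j, fun j' hj' => ?_⟩
      obtain rfl := e.injective hj'
      simp
    choose g hg using f'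
    obtain ⟨l, hl⟩ := h.lift g
    refine ⟨l, fun i => ?_⟩
    rw [hl, hg (e i) i rfl]
    simp
  ext {W g g'} hh := h.ext fun i => by
    obtain ⟨j, rfl⟩ := e.surjective i
    exact hh j

open Classical in
/-- The projections of a product of two products. -/
noncomputable def prMerge (p : ι → Prop) (prA : ∀ i : {i // p i}, A ⟶ X i)
    (prY : ∀ i : {i // ¬ p i}, Y ⟶ X i) (i : ι) : A.prod Y ⟶ X i :=
  if h : p i then fst A Y ≫ prA ⟨i, h⟩ else snd A Y ≫ prY ⟨i, h⟩

lemma prMerge_pos {p : ι → Prop} {prA : ∀ i : {i // p i}, A ⟶ X i}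
    {prY : ∀ i : {i // ¬ p i}, Y ⟶ X i} {i : ι} (h : p i) :
    prMerge p prA prY i = fst A Y ≫ prA ⟨i, h⟩ := dif_pos h

lemma prMerge_neg {p : ι → Prop} {prA : ∀ i : {i // p i}, A ⟶ X i}
    {prY : ∀ i : {i // ¬ p i}, Y ⟶ X i} {i : ι} (h : ¬ p i) :
    prMerge p prA prY i = snd A Y ≫ prY ⟨i, h⟩ := dif_neg h

/-- A product of the products of two complementary subfamilies. -/
lemma merge {p : ι → Prop} {prA : ∀ i : {i // p i}, A ⟶ X i}
    {prY : ∀ i : {i // ¬ p i}, Y ⟶ X i} (hA : IsProd (fun i : {i // p i} => X i) A prA)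
    (hY : IsProd (fun i : {i // ¬ p i} => X i) Y prY) :
    IsProd X (A.prod Y) (prMerge p prA prY) where
  lift {W} f := by
    obtain ⟨a, ha⟩ := hA.lift fun i => f i
    obtain ⟨y, hy⟩ := hY.lift fun i => f i
    refine ⟨Obj.lift a y, fun i => ?_⟩
    by_cases h : p i
    · rw [prMerge_pos h, lift_fst_assoc]
      exact ha ⟨i, h⟩
    · rw [prMerge_neg h, lift_snd_assoc]
      exact hy ⟨i, h⟩
  ext {W g g'} hh := by
    apply prod_ext
    · refine hA.ext fun i => ?_
      have := hh i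
      rwa [prMerge_pos i.2, ← Category.assoc, ← Category.assoc] at this
    · refine hY.ext fun i => ?_
      have := hh i
      rwa [prMerge_neg i.2, ← Category.assoc, ← Category.assoc] at this

/-- Adding one factor. -/
lemma option {X : Option κ → 𝒱.Obj} {Z : 𝒱.Obj} {pr : ∀ i : κ, Z ⟶ X (some i)}
    (h : IsProd (fun i => X (some i)) Z pr) :
    IsProd X (Z.prod (X none)) (fun i => match i with
      | none => snd Z (X none)
      | some i => fst Z (X none) ≫ pr i) where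
  lift {W} f := by
    obtain ⟨a, ha⟩ := h.lift fun i => f (some i)
    refine ⟨Obj.lift a (f none), fun i => ?_⟩
    rcases i with _ | i
    · exact lift_snd _ _
    · dsimp only
      rw [lift_fst_assoc, ha]
  ext {W g g'} hh := by
    apply prod_ext
    · refine h.ext fun i => ?_
      have := hh (some i)
      dsimp only at this
      rwa [← Category.assoc, ← Category.assoc] at this
    · exact hh none

/-- Finite nonempty products exist. -/
theorem exists_prod (ι : Type) [Finite ι] : ∀ (_ : Nonempty ι) (X : ι → 𝒱.Obj),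
    ∃ (Z : 𝒱.Obj) (pr : ∀ i, Z ⟶ X i), IsProd X Z pr := by
  refine Finite.induction_empty_option (P := fun ι => ∀ (_ : Nonempty ι) (X : ι → 𝒱.Obj),
    ∃ (Z : 𝒱.Obj) (pr : ∀ i, Z ⟶ X i), IsProd X Z pr) ?_ ?_ ?_ ι
  · intro α β e ih hβ X
    obtain ⟨Z, pr, h⟩ := ih (e.nonempty_congr.2 hβ) fun i => X (e i)
    have h' := h.reindex e.symm
    refine ⟨Z, fun i => pr (e.symm i) ≫ eqToHom (by rw [Equiv.apply_symm_apply]), ?_, ?_⟩
    · intro W f
      obtain ⟨g, hg⟩ := h'.lift fun i => f i ≫ eqToHom (by rw [Equiv.apply_symm_apply])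
      refine ⟨g, fun i => ?_⟩
      rw [← Category.assoc, hg, Category.assoc, eqToHom_trans, eqToHom_refl, Category.comp_id]
    · intro W g g' hh
      refine h'.ext fun i => ?_
      have := hh i
      rw [← Category.assoc, ← Category.assoc] at this
      exact (cancel_mono _).1 this
  · intro h
    exact absurd h (by simp)
  · intro α _ ih _ X
    by_cases hα : Nonempty α
    · obtain ⟨Z, pr, h⟩ := ih hα fun i => X (some i)
      exact ⟨_, _, h.option⟩
    · have hemp : IsEmpty α := not_nonempty_iff.1 hα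
      refine ⟨X none, fun i => match i with
        | none => 𝟙 _
        | some i => (hemp.false i).elim, ?_, ?_⟩
      · intro W f
        refine ⟨f none, fun i => ?_⟩
        rcases i with _ | i
        · exact Category.comp_id _
        · exact (hemp.false i).elim
      · intro W g g' hh
        have := hh none
        dsimp only at this
        rwa [Category.comp_id, Category.comp_id] at this

end IsProd

/-! ### Partial Frobenius endomorphisms -/

section partialFrob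

variable {ι : Type} {X : ι → 𝒱.Obj} {Z Z' A Y : 𝒱.Obj} {pr : ∀ i, Z ⟶ X i}
  {pr' : ∀ i, Z' ⟶ X i} (Fr : ∀ X : 𝒱.Obj, X ⟶ X)

/-- The endomorphism `φ` of the product `Z` is the product of the endomorphisms `Fr (X i)` for `i`
in `B`, and of the identities of the other factors. -/
def IsPF (pr : ∀ i, Z ⟶ X i) (B : Finset ι) (φ : Z ⟶ Z) : Prop :=
  (∀ i ∈ B, φ ≫ pr i = pr i ≫ Fr (X i)) ∧ ∀ i ∉ B, φ ≫ pr i = pr i

variable {Fr}

lemma exists_PF (h : IsProd X Z pr) (B : Finset ι) : ∃ φ, IsPF Fr pr B φ := by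
  classical
  obtain ⟨φ, hφ⟩ := h.lift fun i => if i ∈ B then pr i ≫ Fr (X i) else pr i
  exact ⟨φ, fun i hi => by rw [hφ, if_pos hi], fun i hi => by rw [hφ, if_neg hi]⟩

lemma IsPF.unique (h : IsProd X Z pr) {B : Finset ι} {φ ψ : Z ⟶ Z} (hφ : IsPF Fr pr B φ)
    (hψ : IsPF Fr pr B ψ) : φ = ψ :=
  h.ext fun i => by
    by_cases hi : i ∈ B
    · rw [hφ.1 i hi, hψ.1 i hi]
    · rw [hφ.2 i hi, hψ.2 i hi]

lemma IsPF.empty : IsPF Fr pr ∅ (𝟙 Z) :=
  ⟨fun i hi => absurd hi (Finset.notMem_empty i), fun i _ => Category.id_comp _⟩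

open Classical in
lemma IsPF.insert {B : Finset ι} {i : ι} (hi : i ∉ B) {φ ψ : Z ⟶ Z} (hφ : IsPF Fr pr B φ)
    (hψ : IsPF Fr pr {i} ψ) : IsPF Fr pr (insert i B) (φ ≫ ψ) := by
  refine ⟨fun j hj => ?_, fun j hj => ?_⟩
  · rw [Category.assoc]
    by_cases h : j = i
    · subst h
      rw [hψ.1 j (Finset.mem_singleton_self j), ← Category.assoc, hφ.2 j hi]
    · rw [hψ.2 j (by rwa [Finset.mem_singleton])]
      exact hφ.1 j ((Finset.mem_insert.1 hj).resolve_left h)
  · rw [Category.assoc]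
    rw [Finset.mem_insert, not_or] at hj
    rw [hψ.2 j (by rw [Finset.mem_singleton]; exact hj.1), hφ.2 j hj.2]

lemma IsPF.comm (h : IsProd X Z pr) {i j : ι} {φ ψ : Z ⟶ Z} (hφ : IsPF Fr pr {i} φ)
    (hψ : IsPF Fr pr {j} ψ) : φ ≫ ψ = ψ ≫ φ := by
  classical
  by_cases hij : i = j
  · subst hij
    rw [hφ.unique h hψ]
  · have h1 := hφ.insert (by rw [Finset.mem_singleton]; exact fun h => hij h.symm) hψ
    have h2 := hψ.insert (by rw [Finset.mem_singleton]; exact hij) hφ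
    have e : ({j, i} : Finset ι) = {i, j} := Finset.pair_comm j i
    have h1' : IsPF Fr pr ({i, j} : Finset ι) (φ ≫ ψ) := by
      rw [← e]
      exact h1
    exact h1'.unique h h2

lemma IsPF.univ [Fintype ι] (hnat : ∀ {X Y : 𝒱.Obj} (f : X ⟶ Y), Fr X ≫ f = f ≫ Fr Y) :
    IsPF Fr pr Finset.univ (Fr Z) :=
  ⟨fun i _ => hnat _, fun i hi => absurd (Finset.mem_univ i) hi⟩

/-- Isomorphisms of products are compatible with the partial Frobenius endomorphisms. -/
lemma IsPF.iso (h : IsProd X Z pr) {B : Finset ι} {φ : Z ⟶ Z} {φ' : Z' ⟶ Z'}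
    (hφ : IsPF Fr pr B φ) (hφ' : IsPF Fr pr' B φ') {g : Z' ⟶ Z} (hg : ∀ i, g ≫ pr i = pr' i) :
    φ' ≫ g = g ≫ φ := by
  refine h.ext fun i => ?_
  rw [Category.assoc, hg, Category.assoc]
  by_cases hi : i ∈ B
  · rw [hφ'.1 i hi, hφ.1 i hi, ← Category.assoc, hg]
  · rw [hφ'.2 i hi, hφ.2 i hi, hg]

lemma IsPF.merge (hnat : ∀ {X Y : 𝒱.Obj} (f : X ⟶ Y), Fr X ≫ f = f ≫ Fr Y) {B : Finset ι}
    (prA : ∀ i : {i // i ∈ B}, A ⟶ X i) (prY : ∀ i : {i // ¬ i ∈ B}, Y ⟶ X i) :
    IsPF Fr (IsProd.prMerge (· ∈ B) prA prY) B (prodMap (Fr A) (𝟙 Y)) := by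
  refine ⟨fun i hi => ?_, fun i hi => ?_⟩
  · rw [IsProd.prMerge_pos (p := (· ∈ B)) hi, ← Category.assoc, prodMap_fst, Category.assoc,
      Category.assoc, hnat]
  · rw [IsProd.prMerge_neg (p := (· ∈ B)) hi, ← Category.assoc, prodMap_snd, Category.comp_id]

end partialFrob

end Pool.Agent.Q56.CP
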