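import Pool.Agent.Q56.CP.Rel
import Pool.Agent.Q56.CP.DefsB

/-!
# Ranks of groups of cycles and multiplicities of Frobenius eigenvalues
-/

set_option autoImplicit false
set_option linter.unusedSectionVars false

open CategoryTheory AlgebraicGeometry

universe u v w

namespace Pool.Agent.Q56.CP

open Module Polynomial Pool.Agent.H914 Pool.Agent.H914.VarClass Pool.Agent.H914.VarClass.Obj
  Pool.Agent.W492.BB Pool.Agent.W550.Corr Pool.Agent.TH133 Pool.Agent.W484.CH Pool.Agent.Q56.FD
  Pool.Agent.Q56.FE Pool.Agent.Q56.FR Pool.Agent.Y133.Half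

/-! ### Coefficients -/

section coeff

variable {K : Type*} [Field K] [CharZero K]

/-- Every family of coefficients is a combination of independent ones. -/
lemma exists_indep {n : ℕ} (c : Fin n → K) :
    ∃ (m : ℕ) (e : Fin m → K) (Q : Fin n → Fin m → ℚ), LinearIndependent ℚ e ∧
      ∀ t, c t = ∑ s, (Q t s : K) * e s := by
  classical
  let E : Submodule ℚ K := Submodule.span ℚ (Set.range c)
  have hfin : Module.Finite ℚ E := Module.Finite.span_of_finite ℚ (Set.finite_range c)
  let b := Module.finBasis ℚ E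
  have hc : ∀ t, c t ∈ E := fun t => Submodule.subset_span ⟨t, rfl⟩
  refine ⟨finrank ℚ E, fun s => (b s : K), fun t s => b.repr ⟨c t, hc t⟩ s, ?_, fun t => ?_⟩
  · exact b.linearIndependent.map' E.subtype (Submodule.ker_subtype E)
  · have h1 := congrArg (fun x : E => (x : K)) (b.sum_repr ⟨c t, hc t⟩)
    have h2 : c t = ((⟨c t, hc t⟩ : E) : K) := rfl
    refine h2.trans (h1.symm.trans ?_)
    beta_reduce
    rw [AddSubmonoidClass.coe_finsetSum]
    refine Finset.sum_congr rfl fun s _ => ?_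
    rw [Submodule.coe_smul, Rat.smul_def]

lemma sum_indep {A V : Type*} [AddCommGroup A] [Module ℚ A] [AddCommGroup V] [Module K V]
    {n m : ℕ} {c : Fin n → K} {e : Fin m → K} {Q : Fin n → Fin m → ℚ}
    (hQ : ∀ t, c t = ∑ s, (Q t s : K) * e s) (L : A →+ V)
    (hL : ∀ (q : ℚ) a, L (q • a) = (q : K) • L a) (z : Fin n → A) :
    ∑ t, c t • L (z t) = ∑ s, e s • L (∑ t, Q t s • z t) := by
  have h1 : ∀ t, c t • L (z t) = ∑ s, (Q t s : K) • e s • L (z t) := by
    intro t
    rw [hQ, Finset.sum_smul]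
    exact Finset.sum_congr rfl fun s _ => mul_smul _ _ _
  rw [Finset.sum_congr rfl fun t _ => h1 t, Finset.sum_comm]
  refine Finset.sum_congr rfl fun s _ => ?_
  rw [map_sum, Finset.smul_sum]
  refine Finset.sum_congr rfl fun t _ => ?_
  rw [hL, smul_comm]

/-- The large powers of an endomorphism of a finite-dimensional space split it. -/
lemma exists_fitting {V : Type*} [AddCommGroup V] [Module K V] [Module.Finite K V]
    (N N' : Module.End K V) : ∃ n : ℕ, ∀ n' ≥ n,
      IsCompl (LinearMap.ker (N ^ n')) (LinearMap.range (N ^ n')) ∧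
      IsCompl (LinearMap.ker (N' ^ n')) (LinearMap.range (N' ^ n')) := by
  have h1 := (LinearMap.eventually_isCompl_ker_pow_range_pow N).and
    (LinearMap.eventually_isCompl_ker_pow_range_pow N')
  exact Filter.eventually_atTop.1 h1

end coeff

/-! ### Independence over the coefficient field -/

variable {k : Type u} [Field k] {𝒱 : VarClass k} {C : TheoryData.{u, v, 0} 𝒱 ℚ} {K : Type w}
  [Field K] [CharZero K] {H : WeilTheoryData.{u, v, w} C K} [hC : IsChowProj C]
  [hH : IsWeilProj H] {X : 𝒱.Obj}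

/-- Combinations of classes of cycles with independent coefficients vanish only if the cycles
vanish. -/
def KInj (H : WeilTheoryData.{u, v, w} C K) (X : 𝒱.Obj) (i : ℕ) : Prop :=
  ∀ (m : ℕ) (e : Fin m → K) (y : Fin m → C.A X), LinearIndependent ℚ e →
    (∀ s, C.Deg i (y s)) → ∑ s, e s • H.cl (y s) = 0 → ∀ s, y s = 0

theorem kinj_of (h : RatEqNum H X) (i : ℕ) : KInj H X i := by
  intro m e y he hy h0 s
  refine h i (y s) (hy s) fun j w hij hw => ?_
  have hm : ∀ s, C.Deg X.dim (y s * w) := by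
    intro s
    have h1 := C.mul_mem (hy s) hw
    have h2 : (i : ℤ) + j = X.dim := by omega
    rw [h2] at h1
    exact h1
  choose c hc using fun s => exists_hasDegree (hm s)
  have h1 : ∑ s, (e s * (c s : K)) • (1 : H.A X) = 0 := by
    have h2 : ∀ s, H.push (snd X X) (H.pull (fst X X) (H.cl (y s * w))) = (c s : K) • 1 := by
      intro s
      rw [← H.cl_pull, ← H.cl_push, (hc s X).1, cl_smul, map_one]
    have h3 : H.push (snd X X) (H.pull (fst X X) ((∑ s, e s • H.cl (y s)) * H.cl w)) =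
        ∑ s, (e s * (c s : K)) • (1 : H.A X) := by
      rw [Finset.sum_mul, map_sum, map_sum]
      refine Finset.sum_congr rfl fun s _ => ?_
      rw [smul_mul_assoc, ← map_mul (H.cl (X := X)), map_smul, map_smul, h2, smul_smul]
    rw [← h3, h0, zero_mul, map_zero, map_zero]
  rw [← Finset.sum_smul] at h1
  have h2 := (smul_eq_zero.1 h1).resolve_right (hH.one_ne_zero X)
  have h3 := Fintype.linearIndependent_iff.1 he c (by
    rw [← h2]
    refine Finset.sum_congr rfl fun s _ => ?_
    rw [Rat.smul_def, mul_comm])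
  have h4 : H.push (snd X X) (H.pull (fst X X) (H.cl (y s * w))) = 0 := by
    rw [← H.cl_pull, ← H.cl_push, (hc s X).1, h3 s, zero_smul, map_zero]
  exact tr_eq_zero_of_push X h4

/-- The cycle class map as an additive map. -/
noncomputable def clA (H : WeilTheoryData.{u, v, w} C K) (X : 𝒱.Obj) : C.A X →+ H.A X :=
  (H.cl (X := X)).toAddMonoidHom

lemma clA_apply (z : C.A X) : clA H X z = H.cl z := rfl

/-- Dimensions over the rational numbers and over the coefficient field. -/
theorem finrank_of_kinj [Module.Finite K (H.A X)] {i : ℕ} (hK : KInj H X i)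
    {U : Submodule ℚ (C.A X)} (hU : ∀ z ∈ U, C.Deg i z) : Module.Finite ℚ U ∧
      finrank ℚ U = finrank K (Submodule.span K {x : H.A X | ∃ z ∈ U, x = H.cl z}) := by
  classical
  let b := Module.Free.chooseBasis ℚ U
  have hli : LinearIndependent K fun t => H.cl (b t : C.A X) := by
    rw [linearIndependent_iff']
    intro S g hg t ht
    let ε := S.equivFin
    obtain ⟨m, e, Q, he, hQ⟩ := exists_indep fun l => g (ε.symm l)
    have h1 := sum_indep hQ (clA H X) (fun q a => cl_smul q a)
      fun l => (b (ε.symm l) : C.A X)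
    have h2 : ∑ l, g (ε.symm l) • clA H X (b (ε.symm l) : C.A X) = 0 := by
      rw [← hg, ← Finset.sum_coe_sort S]
      exact Equiv.sum_comp ε.symm fun t : S => g t • H.cl (b t : C.A X)
    rw [h2] at h1
    have hmem : ∀ s, (∑ l, Q l s • (b (ε.symm l) : C.A X)) ∈ U := fun s =>
      Submodule.sum_mem _ fun l _ => Submodule.smul_mem _ _ (b _).2
    have h3 := hK m e _ he (fun s => hU _ (hmem s)) h1.symm
    have h4 : ∀ s l, Q l s = 0 := by
      intro s
      have h5 : ∑ l, Q l s • b (ε.symm l) = 0 := by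
        apply Subtype.ext
        rw [AddSubmonoidClass.coe_finsetSum]
        exact h3 s
      have h6 : LinearIndependent ℚ fun l => b (ε.symm l) :=
        b.linearIndependent.comp _ (Subtype.val_injective.comp ε.symm.injective)
      exact Fintype.linearIndependent_iff.1 h6 (fun l => Q l s) h5
    have h7 := hQ (ε ⟨t, ht⟩)
    simp only [Equiv.symm_apply_apply] at h7
    rw [h7]
    refine Finset.sum_eq_zero fun s _ => ?_
    rw [h4, Rat.cast_zero, zero_mul]
  have hfin : Finite (Module.Free.ChooseBasisIndex ℚ U) := hli.finite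
  have := Fintype.ofFinite (Module.Free.ChooseBasisIndex ℚ U)
  refine ⟨Module.Finite.of_basis b, ?_⟩
  have h1 : Submodule.span K {x : H.A X | ∃ z ∈ U, x = H.cl z} =
      Submodule.span K (Set.range fun t => H.cl (b t : C.A X)) := by
    apply le_antisymm
    · rw [Submodule.span_le]
      rintro _ ⟨z, hz, rfl⟩
      have h2 := congrArg (fun x : U => clA H X x) (b.sum_repr ⟨z, hz⟩)
      beta_reduce at h2
      rw [SetLike.mem_coe]
      have h3 : H.cl z = clA H X ((⟨z, hz⟩ : U) : C.A X) := rfl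
      rw [h3, ← h2, AddSubmonoidClass.coe_finsetSum, map_sum]
      refine Submodule.sum_mem _ fun t _ => ?_
      rw [Submodule.coe_smul, clA_apply, cl_smul]
      exact Submodule.smul_mem _ _ (Submodule.subset_span ⟨t, rfl⟩)
    · refine Submodule.span_mono ?_
      rintro _ ⟨t, rfl⟩
      exact ⟨b t, (b t).2, rfl⟩
  rw [h1, finrank_span_eq_card hli, Module.finrank_eq_card_basis b]

/-- Representation of combinations of classes of cycles. -/
lemma exists_rep {j : ℕ} {x : H.A X} (hx : x ∈ aSpan H X j) : ∃ (m : ℕ) (e : Fin m → K)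
    (y : Fin m → C.A X), LinearIndependent ℚ e ∧ (∀ s, C.Deg j (y s)) ∧
      x = ∑ s, e s • H.cl (y s) := by
  obtain ⟨n, c, g, hg⟩ := (Submodule.mem_span_set' (R := K)).1 hx
  choose z hz hgz using fun t => (g t).2
  obtain ⟨m, e, Q, he, hQ⟩ := exists_indep c
  refine ⟨m, e, fun s => ∑ t, Q t s • z t, he, fun s => ?_, ?_⟩
  · exact Submodule.sum_mem _ fun t _ => Submodule.smul_mem _ _ (hz t)
  · have h1 := sum_indep hQ (clA H X) (fun q a => cl_smul q a) z
    rw [← hg]
    refine Eq.trans (Finset.sum_congr rfl fun t _ => ?_) h1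
    rw [hgz, clA_apply]

/-! ### The two steps of the filtration -/

section steps

variable {W : 𝒱.Obj} {f : C.A W} {G : Type} {ρ : G → (W ⟶ W)} {φ : W ⟶ W} {q : ℕ}

lemma up_add (g : W ⟶ W) (a b : C.A W) : C.up g (a + b) = C.up g a + C.up g b := map_add _ a b

/-- The space of the invariant classes killed by `f`. -/
lemma homCyc_eq (i : ℕ) {z : C.A W} : z ∈ homCyc H f ρ i ↔
    C.Deg (i + 1) z ∧ H.cl (C.mul f z) = 0 ∧ ∀ g, C.up (ρ g) z = z := by
  refine ⟨fun h => ?_, fun h => Submodule.subset_span h⟩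
  unfold homCyc at h
  induction h using Submodule.span_induction with
  | mem x hx => exact hx
  | zero =>
    refine ⟨Submodule.zero_mem _, ?_, fun g => map_zero _⟩
    change H.cl (f * 0) = 0
    rw [mul_zero, map_zero]
  | add x y _ _ hx hy =>
    refine ⟨Submodule.add_mem _ hx.1 hy.1, ?_, fun g => ?_⟩
    · change H.cl (f * (x + y)) = 0
      have h1 : H.cl (f * x) = 0 := hx.2.1
      have h2 : H.cl (f * y) = 0 := hy.2.1
      rw [mul_add, map_add, h1, h2, add_zero]
    · rw [up_add, hx.2.2, hy.2.2]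
  | smul c x _ hx =>
    refine ⟨Submodule.smul_mem _ _ hx.1, ?_, fun g => ?_⟩
    · change H.cl (f * (c • x)) = 0
      have h1 : H.cl (f * x) = 0 := hx.2.1
      rw [mul_smul_comm, cl_smul, h1, smul_zero]
    · change C.pull (ρ g) (c • x) = c • x
      have h1 : C.pull (ρ g) x = x := hx.2.2 g
      rw [map_smul, h1]

lemma vertCyc_eq (i : ℕ) {z : C.A W} : z ∈ vertCyc C f ρ i ↔
    (∃ w, C.Deg i w ∧ z = C.mul f w) ∧ ∀ g, C.up (ρ g) z = z := by
  refine ⟨fun h => ?_, fun h => Submodule.subset_span h⟩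
  unfold vertCyc at h
  induction h using Submodule.span_induction with
  | mem x hx => exact hx
  | zero => exact ⟨⟨0, Submodule.zero_mem _, (mul_zero f).symm⟩, fun g => map_zero _⟩
  | add x y _ _ hx hy =>
    obtain ⟨⟨a, ha, rfl⟩, h1⟩ := hx
    obtain ⟨⟨b, hb, rfl⟩, h2⟩ := hy
    refine ⟨⟨a + b, Submodule.add_mem _ ha hb, (mul_add f a b).symm⟩, fun g => ?_⟩
    rw [up_add, h1, h2]
  | smul c x _ hx =>
    obtain ⟨⟨a, ha, rfl⟩, h1⟩ := hx
    refine ⟨⟨c • a, Submodule.smul_mem _ _ ha, (mul_smul_comm c f a).symm⟩, fun g => ?_⟩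
    change C.pull (ρ g) (c • C.mul f a) = c • C.mul f a
    have h2 : C.pull (ρ g) (C.mul f a) = C.mul f a := h1 g
    rw [map_smul, h2]

lemma vert_le_hom (hff : f * f = 0) (hf1 : C.Deg 1 f) (i : ℕ) :
    vertCyc C f ρ i ≤ homCyc H f ρ i := by
  intro z hz
  obtain ⟨⟨w, hw, rfl⟩, h⟩ := (vertCyc_eq i).1 hz
  refine (homCyc_eq i).2 ⟨?_, ?_, h⟩
  · have h1 := C.mul_mem hf1 hw
    rw [add_comm] at h1
    exact h1
  · change H.cl (f * (f * w)) = 0
    rw [← mul_assoc, hff, zero_mul, map_zero]

lemma gen_cl {j : ℕ} (hfr : IsFrobenius C φ q) {z : C.A W} (hz : C.Deg j z) :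
    IsGenEig (hF H φ) ((q : K) ^ j) (H.cl z) := by
  refine ⟨1, ?_⟩
  rw [pow_one, LinearMap.sub_apply, LinearMap.smul_apply, Module.End.one_apply,
    aSpan_eigen hfr (Submodule.subset_span ⟨z, hz, rfl⟩), sub_self]

variable [Module.Finite K (H.A W)] (hq : 1 < q) (hfr : IsFrobenius C φ q)
  (hW : Weights H φ q) (hT : ∀ j, StrongTateAt H φ q j) (hN : RatEqNum H W)

include hq hfr hW hT hN

/-- The classes killed by `f`. -/
lemma lerayOne_eq (hf1 : C.Deg 1 f) (i : ℕ) :
    eigInv H ρ φ ((q : K) ^ (i + 1)) {x | H.mul (H.cl f) x = 0} =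
      Submodule.span K {x : H.A W | ∃ z ∈ homCyc H f ρ i, x = H.cl z} := by
  apply le_antisymm
  · unfold eigInv
    rw [Submodule.span_le]
    rintro x ⟨hfx, hinv, n, hn⟩
    have hxs : x ∈ aSpan H W (i + 1) := strong_span hq hW (hT (i + 1)) hn
    obtain ⟨m, e, y, he, hy, rfl⟩ := exists_rep hxs
    have h1 : ∀ s, f * y s = 0 := by
      refine kinj_of hN (i + 1 + 1) m e _ he (fun s => ?_) ?_
      · have h2 := C.mul_mem hf1 (hy s)
        rw [add_comm] at h2
        exact h2
      · have h2 : H.cl f * ∑ s, e s • H.cl (y s) = 0 := hfx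
        rw [Finset.mul_sum] at h2
        rw [← h2]
        refine Finset.sum_congr rfl fun s _ => ?_
        rw [map_mul, mul_smul_comm]
    have h3 : ∀ g s, C.pull (ρ g) (y s) - y s = 0 := by
      intro g
      refine kinj_of hN (i + 1) m e _ he (fun s => ?_) ?_
      · exact Submodule.sub_mem _ (C.pull_mem (ρ g) (hy s)) (hy s)
      · have h2 : H.pull (ρ g) (∑ s, e s • H.cl (y s)) = ∑ s, e s • H.cl (y s) := hinv g
        rw [map_sum, ← sub_eq_zero, ← Finset.sum_sub_distrib] at h2
        rw [← h2]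
        refine Finset.sum_congr rfl fun s _ => ?_
        rw [map_smul, ← H.cl_pull, map_sub, smul_sub]
    refine Submodule.sum_mem _ fun s _ => Submodule.smul_mem _ _ (Submodule.subset_span
      ⟨y s, (homCyc_eq i).2 ⟨hy s, ?_, fun g => sub_eq_zero.1 (h3 g s)⟩, rfl⟩)
    change H.cl (f * y s) = 0
    rw [h1, map_zero]
  · rw [Submodule.span_le]
    rintro _ ⟨z, hz, rfl⟩
    obtain ⟨h1, h2, h3⟩ := (homCyc_eq i).1 hz
    refine Submodule.subset_span ⟨?_, fun g => ?_, ?_⟩
    · change H.cl f * H.cl z = 0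
      rw [← map_mul]
      exact h2
    · change H.pull (ρ g) (H.cl z) = H.cl z
      have h4 : C.pull (ρ g) z = z := h3 g
      rw [← H.cl_pull, h4]
    · exact gen_cl (j := i + 1) hfr h1

/-- The multiples of `f`. -/
lemma lerayTwo_eq (hf1 : C.Deg 1 f) (i : ℕ) :
    eigInv H ρ φ ((q : K) ^ (i + 1)) (Set.range (H.mul (H.cl f))) =
      Submodule.span K {x : H.A W | ∃ z ∈ vertCyc C f ρ i, x = H.cl z} := by
  have hqK : (q : K) ≠ 0 := by
    have : q ≠ 0 := by omega
    exact_mod_cast this
  apply le_antisymm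
  · unfold eigInv
    rw [Submodule.span_le]
    rintro x ⟨⟨y, hxy⟩, hinv, n, hn⟩
    replace hxy : x = H.cl f * y := hxy.symm
    -- the multiplication by `f`
    set N : Module.End K (H.A W) := hF H φ - ((q : K) ^ i) • 1 with hNdef
    set N' : Module.End K (H.A W) := hF H φ - ((q : K) ^ (i + 1)) • 1 with hN'def
    have hmul : ∀ y, N' (H.cl f * y) = (q : K) • (H.cl f * N y) := by
      intro y
      have h1 : H.pull φ (H.cl f) = (q : K) • H.cl f := by
        have h2 := aSpan_eigen (j := 1) hfr (x := H.cl f)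
          (Submodule.subset_span ⟨f, by exact_mod_cast hf1, rfl⟩)
        rw [pow_one] at h2
        exact h2
      have e1 : N' (H.cl f * y) = H.pull φ (H.cl f * y) - ((q : K) ^ (i + 1)) • (H.cl f * y) := rfl
      have e2 : N y = H.pull φ y - ((q : K) ^ i) • y := rfl
      rw [e1, e2, map_mul, h1, mul_sub, smul_sub, smul_mul_assoc, mul_smul_comm, smul_smul,
        pow_succ' (q : K) i]
    have hpow : ∀ (n : ℕ) y, (N' ^ n) (H.cl f * y) = ((q : K) ^ n) • (H.cl f * (N ^ n) y) := by
      intro n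
      induction n with
      | zero => intro y; simp
      | succ n ih =>
        intro y
        rw [pow_succ, Module.End.mul_apply, hmul, map_smul, ih, smul_smul, pow_succ N,
          Module.End.mul_apply, pow_succ' (q : K)]
    obtain ⟨n0, hn0⟩ := exists_fitting N N'
    obtain ⟨hc1, hc2⟩ := hn0 (max n0 n) (le_max_left _ _)
    have hxk : (N' ^ (max n0 n)) x = 0 := by
      obtain ⟨l, hl⟩ := Nat.exists_eq_add_of_le (le_max_right n0 n)
      rw [hl, add_comm, pow_add, Module.End.mul_apply, hn, map_zero]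
    generalize max n0 n = n' at *
    obtain ⟨y1, hy1, y2, hy2, hyy⟩ := Submodule.mem_sup.1
      (show y ∈ LinearMap.ker (N ^ n') ⊔ LinearMap.range (N ^ n') by
        rw [hc1.sup_eq_top]
        exact Submodule.mem_top)
    obtain ⟨u, rfl⟩ := hy2
    have hy1' : (N ^ n') y1 = 0 := hy1
    -- the second part is killed
    have h1 : H.cl f * (N ^ n') u = 0 := by
      have h2 : H.cl f * (N ^ n') u ∈ LinearMap.range (N' ^ n') := by
        refine ⟨((q : K) ^ n')⁻¹ • (H.cl f * u), ?_⟩
        rw [map_smul, hpow, smul_smul, inv_mul_cancel₀ (pow_ne_zero _ hqK), one_smul]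
      have h3 : H.cl f * (N ^ n') u ∈ LinearMap.ker (N' ^ n') := by
        have h4 : H.cl f * (N ^ n') u = x - H.cl f * y1 := by
          rw [hxy, ← hyy, mul_add, add_sub_cancel_left]
        rw [LinearMap.mem_ker, h4, map_sub, hxk, hpow, hy1', mul_zero, smul_zero, sub_zero]
      exact (Submodule.disjoint_def.1 hc2.disjoint) _ h3 h2
    have h5 : x = H.cl f * y1 := by
      rw [hxy, ← hyy, mul_add, h1, add_zero]
    have hys : y1 ∈ aSpan H W i := strong_span hq hW (hT i) hy1'
    obtain ⟨m, e, z, he, hz, rfl⟩ := exists_rep hys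
    have h6 : x = ∑ s, e s • H.cl (f * z s) := by
      rw [h5, Finset.mul_sum]
      refine Finset.sum_congr rfl fun s _ => ?_
      rw [map_mul, mul_smul_comm]
    have hfz : ∀ s, C.Deg ((i + 1 : ℕ) : ℤ) (f * z s) := by
      intro s
      have h2 := C.mul_mem hf1 (hz s)
      rw [add_comm] at h2
      exact_mod_cast h2
    have h3 : ∀ g s, C.pull (ρ g) (f * z s) - f * z s = 0 := by
      intro g
      refine kinj_of hN (i + 1) m e _ he (fun s => ?_) ?_
      · exact Submodule.sub_mem _ (C.pull_mem (ρ g) (hfz s)) (hfz s)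
      · have h2 : H.pull (ρ g) x = x := hinv g
        rw [h6, map_sum, ← sub_eq_zero, ← Finset.sum_sub_distrib] at h2
        rw [← h2]
        refine Finset.sum_congr rfl fun s _ => ?_
        rw [map_smul, ← H.cl_pull, map_sub, smul_sub]
    rw [SetLike.mem_coe, h6]
    exact Submodule.sum_mem _ fun s _ => Submodule.smul_mem _ _ (Submodule.subset_span
      ⟨f * z s, (vertCyc_eq i).2 ⟨⟨z s, hz s, rfl⟩, fun g => sub_eq_zero.1 (h3 g s)⟩, rfl⟩)
  · rw [Submodule.span_le]
    rintro _ ⟨z, hz, rfl⟩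
    obtain ⟨⟨w, hw, rfl⟩, h3⟩ := (vertCyc_eq i).1 hz
    refine Submodule.subset_span ⟨⟨H.cl w, (map_mul _ f w).symm⟩, fun g => ?_, ?_⟩
    · change H.pull (ρ g) (H.cl (f * w)) = H.cl (f * w)
      have h4 : C.pull (ρ g) (f * w) = f * w := h3 g
      rw [← H.cl_pull, h4]
    · refine gen_cl (j := i + 1) hfr ?_
      have h2 := C.mul_mem hf1 hw
      rw [add_comm] at h2
      exact_mod_cast h2

/-- **The rank formula.** -/
theorem rank_formula (hf1 : C.Deg 1 f) (hff : f * f = 0) (i : ℕ) :
    SameDim (homCyc H f ρ i) (vertCyc C f ρ i)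
      (eigInv H ρ φ ((q : K) ^ (i + 1)) {x | H.mul (H.cl f) x = 0})
      (eigInv H ρ φ ((q : K) ^ (i + 1)) (Set.range (H.mul (H.cl f)))) := by
  have hle := vert_le_hom (H := H) (ρ := ρ) hff hf1 i
  obtain ⟨h1, h2⟩ := finrank_of_kinj (kinj_of hN (i + 1)) (U := homCyc H f ρ i)
    fun z hz => ((homCyc_eq i).1 hz).1
  obtain ⟨h3, h4⟩ := finrank_of_kinj (kinj_of hN (i + 1)) (U := vertCyc C f ρ i)
    fun z hz => ((homCyc_eq i).1 (hle hz)).1
  refine ⟨h1, hle, ?_, ?_⟩
  · rw [lerayOne_eq hq hfr hW hT hN hf1, lerayTwo_eq hq hfr hW hT hN hf1]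
    refine Submodule.span_mono ?_
    rintro _ ⟨z, hz, rfl⟩
    exact ⟨z, hle hz, rfl⟩
  · rw [lerayOne_eq hq hfr hW hT hN hf1, lerayTwo_eq hq hfr hW hT hN hf1, h2, h4]

end steps

end Pool.Agent.Q56.CP
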