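import Pool.Agent.Q56.CP.BB
import Pool.Agent.Q56.FR.Word

/-!
# Products of a fixed variety with the powers of another variety
-/

set_option autoImplicit false
set_option linter.unusedSectionVars false

open CategoryTheory AlgebraicGeometry

universe u v w

namespace Pool.Agent.Q56.CP

open Module Polynomial Pool.Agent.H914 Pool.Agent.H914.VarClass Pool.Agent.H914.VarClass.Obj
  Pool.Agent.W492.BB Pool.Agent.W550.Corr Pool.Agent.TH133 Pool.Agent.W484.CH Pool.Agent.Q56.FD
  Pool.Agent.Q56.FE Pool.Agent.Q56.FR Pool.Agent.Y133.Half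

variable {k : Type u} [Field k] {𝒱 : VarClass k} {C : TheoryData.{u, v, 0} 𝒱 ℚ} {K : Type w}
  [Field K] [CharZero K] {H : WeilTheoryData.{u, v, w} C K} [hC : IsChowProj C]
  [hH : IsWeilProj H] {Fr : ∀ X : 𝒱.Obj, X ⟶ X} {p a : ℕ} [Fact p.Prime] {X Y Z : 𝒱.Obj}

/-! ### Factors -/

lemma exists_isProd_congr {κ : Type} {F G : κ → 𝒱.Obj} (h : F = G) {Z : 𝒱.Obj}
    {pr : ∀ i, Z ⟶ G i} (hG : IsProd G Z pr) : ∃ pr' : ∀ i, Z ⟶ F i, IsProd F Z pr' := by
  subst h
  exact ⟨pr, hG⟩

lemma factor_swap3 (A X Y : 𝒱.Obj) : IsFactor C (A.prod Y) ((A.prod X).prod Y) := by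
  refine (IsFactor.fst (A.prod Y) X).trans ?_
  refine IsFactor.of_iso
    (f := lift (lift (fst (A.prod Y) X ≫ fst A Y) (snd (A.prod Y) X)) (fst (A.prod Y) X ≫ snd A Y))
    (g := lift (lift (fst (A.prod X) Y ≫ fst A X) (snd (A.prod X) Y)) (fst (A.prod X) Y ≫ snd A X))
    ?_
  apply prod_ext
  · apply prod_ext
    · simp only [Category.assoc, Category.id_comp, lift_fst, lift_fst_assoc]
    · simp only [Category.assoc, Category.id_comp, lift_snd, lift_fst_assoc]
  · simp only [Category.assoc, Category.id_comp, lift_snd, lift_fst_assoc]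

lemma pw_prod_factor (X Y : 𝒱.Obj) {m n : ℕ} (h : m ≤ n) :
    IsFactor C ((pw X m).prod Y) ((pw X n).prod Y) := by
  obtain ⟨l, rfl⟩ := Nat.exists_eq_add_of_le h
  clear h
  induction l with
  | zero => exact IsFactor.refl _
  | succ l ih => exact ih.trans (factor_swap3 (pw X (m + l)) X Y)

/-- The product of `Y` and `X ^ (m + 1)` as a product. -/
lemma factor_of_rel {ι : Type} [Fintype ι] {X' : ι → 𝒱.Obj} {i0 : ι} (h0 : X' i0 = Y)
    (hX : ∀ i, i ≠ i0 → X' i = X) {n : ℕ} (hn : Fintype.card ι ≤ n + 2) {Z : 𝒱.Obj}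
    {pr : ∀ i, Z ⟶ X' i} (h : IsProd X' Z pr) : IsFactor C Z ((pw X n).prod Y) := by
  classical
  subst h0
  let κ : Type := {i : ι // i ≠ i0}
  have hcard : Fintype.card ι = Fintype.card κ + 1 := by
    rw [← Fintype.card_option, Fintype.card_congr (Equiv.optionSubtypeNe i0)]
  by_cases hκ : Nonempty κ
  · obtain ⟨m, hm⟩ : ∃ m, Fintype.card κ = m + 1 :=
      ⟨Fintype.card κ - 1, by have := Fintype.card_pos (α := κ); omega⟩
    obtain ⟨pr', h'⟩ := isProd_pw X hm
    let e : Option κ ≃ ι := Equiv.optionSubtypeNe i0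
    have h1 := h.reindex e
    have hfun : (fun i : κ => X' (e (some i))) = fun _ => X := by
      funext i
      exact hX _ (by
        rw [Equiv.optionSubtypeNe_some]
        exact i.2)
    obtain ⟨pr'', h2⟩ := exists_isProd_congr hfun h'
    have h3 := IsProd.option (X := fun o : Option κ => X' (e o)) h2
    have h4 : X' (e none) = X' i0 := by rw [Equiv.optionSubtypeNe_none]
    have h5 : IsFactor C Z ((pw X m).prod (X' (e none))) := factor_of_isProd h1 h3
    rw [h4] at h5
    exact h5.trans (pw_prod_factor X _ (by omega))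
  · -- only one factor
    have h1 : ∀ i, i = i0 := fun i => by
      by_contra hi
      exact hκ ⟨⟨i, hi⟩⟩
    have h2 : IsFactor C Z (X' i0) := by
      obtain ⟨g, hg⟩ := h.lift (W := X' i0) fun i => eqToHom (by rw [h1 i])
      refine IsFactor.of_iso (f := pr i0) (g := g) (h.ext fun i => ?_)
      obtain rfl := (h1 i)
      rw [Category.assoc, hg, eqToHom_refl, Category.comp_id, Category.id_comp]
    exact h2.trans (IsFactor.snd _ _)

/-! ### The vanishing theorem -/

/-- **Products of one variety with all powers of another one.** -/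
theorem vanish_rel (hFr : IsFrobTheory H Fr p a) (ha : 0 < a) {b d t : ℕ}
    (hb : finrank K (H.A X) ≤ b) (hd : X.dim ≤ d) (ht : Y.dim ≤ t) {m : ℕ}
    (hm : relBound b d t ≤ m + 1) (hNY : Nilpotence H Y) (hN : Nilpotence H (pw X m))
    (hTt : StrongTate H Fr (p ^ a) (pw X m)) {T : CorrData C} (hT : IsPure T Fr (p ^ a))
    (hbase : ∀ r, T.gr ((pw X m).prod Y) r = ⊥) (n : ℕ) (r : ℤ) :
    T.gr ((pw X n).prod Y) r = ⊥ := by
  classical
  have hfin := hFr.finite X
  choose QQ hQ1 hQ2 hQ3 using hFr.weil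
  have hb' : ∑ i ∈ Finset.range (2 * X.dim + 1), (QQ X i).natDegree ≤ b := by
    rw [Finset.sum_congr rfl fun i _ => hQ2 X i]
    exact (sum_finrank_le (H.isInternal X) _).trans hb
  have hp1 : 1 < p ^ a := one_lt_pow_prime ha
  have hq : p ^ a ≠ 0 := by omega
  -- descent
  have hdesc : ∀ {V : 𝒱.Obj}, IsFactor C V (pw X m) →
      Nilpotence H V ∧ StrongTate H Fr (p ^ a) V := fun hV =>
    ⟨hV.nilpotence hN, hV.strong hFr.fam hq hFr.finite hTt⟩
  have hle : exactBound b d ≤ m + 1 := (exact_lt_rel b d t).le.trans hm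
  let 𝒜 : ∀ ι : Type, (ι → 𝒱.Obj) → Prop := fun ι X' => ∃ i0, X' i0 = Y ∧ ∀ i, i ≠ i0 → X' i = X
  have hadm : ∀ (ι : Type) (X' : ι → 𝒱.Obj), 𝒜 ι X' → ∀ i, X' i = Y ∨ X' i = X := by
    rintro ι X' ⟨i0, h0, h1⟩ i
    by_cases hi : i = i0
    · left; rw [hi, h0]
    · right; exact h1 i hi
  have hXf : ∀ l ≤ m, IsFactor C (pw X l) (pw X m) := fun l hl => pw_factor X hl
  obtain ⟨κ, hκ, hc, prn, hprn⟩ := exists_isProd_pw X n
  have hZ := IsProd.option (X := fun o : Option κ => o.elim Y fun _ => X) (Z := pw X n)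
    (pr := prn) hprn
  have hZ0 : T.gr Y 0 = ⊥ := hT.zero Y
  refine vanish_gen hT.corr hFr.nat hp1 hT.power (𝒜 := 𝒜)
    (R := fun V => eigSet (QQ V) (2 * V.dim)) ?_ ?_ (Z0 := Y) hZ0 _ (Option κ) rfl _
    ⟨none, rfl, fun i hi => ?_⟩ _ _ hZ r
  · -- blocks
    rintro ι _ _ X' ⟨i0, h0, h1⟩ α hα r hr
    by_cases hcard : Fintype.card ι ≤ m + 2
    · left
      intro Z' pr' h'
      exact (factor_of_rel h0 h1 hcard h').vanish hT.corr (hbase r)
    · right
      let S : Type := {i : ι // i ≠ i0}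
      have hcS : Fintype.card ι = Fintype.card S + 1 := by
        rw [← Fintype.card_option, Fintype.card_congr (Equiv.optionSubtypeNe i0)]
      have hαX : ∀ i : S, ∃ l ≤ 2 * X.dim, aeval (α i) (QQ X l) = 0 := by
        intro i
        have h2 := hα i
        rw [h1 i i.2] at h2
        exact h2
      choose l hl hlα using hαX
      let lab : S → Letter (QQ X) (2 * X.dim) := fun i => ⟨(l i, α i), hl i, hlα i⟩
      obtain ⟨l0, hl0, hl0α⟩ : ∃ l ≤ 2 * Y.dim, aeval (α i0) (QQ Y l) = 0 := by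
        have h2 := hα i0
        rw [h0] at h2
        exact h2
      have hprS : ∀ s : Multiset S, pr (s.map lab) = (s.map fun i : S => α i.1).prod := by
        intro s
        rw [pr, Multiset.map_map]
        rfl
      have htot : α i0 * pr ((Finset.univ : Finset S).val.map lab) = ((p ^ a : ℕ) : Qb) ^ r := by
        rw [hprS, ← hr]
        rw [← Fintype.prod_equiv (Equiv.optionSubtypeNe i0) (fun o => α (Equiv.optionSubtypeNe i0 o))
          α (fun _ => rfl), Fintype.prod_option]
        simp only [Equiv.optionSubtypeNe_none, Equiv.optionSubtypeNe_some]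
        rfl
      obtain ⟨j, hj1, hj2⟩ : ∃ j : ℕ, α i0 * pr ((Finset.univ : Finset S).val.map lab) =
          ((p ^ a : ℕ) : Qb) ^ j ∧ l0 + dg ((Finset.univ : Finset S).val.map lab) = 2 * j := by
        let τ : Qb →+* ℂ := (IsAlgClosed.lift : Qb →ₐ[ℚ] ℂ).toRingHom
        have h2 := pr_norm_sq (fun i _ => hQ1 X i) ((Finset.univ : Finset S).val.map lab) τ
        have h3 := norm_sq_root (hQ1 Y l0) hl0α τ
        have h4 : ‖τ (α i0 * pr ((Finset.univ : Finset S).val.map lab))‖ ^ 2 =
            ((p ^ a : ℕ) : ℝ) ^ (l0 + dg ((Finset.univ : Finset S).val.map lab)) := by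
          rw [map_mul, norm_mul, mul_pow, h2, h3, pow_add]
        rw [htot, map_zpow₀, map_natCast, norm_zpow, Complex.norm_natCast] at h4
        have h5 : ((p ^ a : ℕ) : ℝ) ^ (r * 2) =
            ((p ^ a : ℕ) : ℝ) ^ (((l0 + dg ((Finset.univ : Finset S).val.map lab)) : ℕ) : ℤ) := by
          rw [zpow_mul, zpow_natCast, ← h4]
          rfl
        have h6 : (1 : ℝ) < ((p ^ a : ℕ) : ℝ) := by exact_mod_cast hp1
        have h7 := zpow_right_injective₀ (by linarith) h6.ne' h5
        obtain ⟨j, rfl⟩ := Int.eq_ofNat_of_zero_le (show 0 ≤ r by omega)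
        refine ⟨j, ?_, by omega⟩
        rw [htot, zpow_natCast]
      obtain ⟨s', hs'le, hs'0, hs'card, hex⟩ := exists_exact_block_rel lab ha
        (fun i _ => hQ1 X i) hb' (by omega : 2 * X.dim ≤ 2 * d) (t := t)
        (Finset.univ : Finset S).val (by
          rw [Finset.card_val, Finset.card_univ]
          omega) (fun ι' => by
          refine (sum_cs_le ha (fun i _ => hQ1 X i) (hQ1 Y l0) hl0α hj1 hj2 ι').trans ?_
          exact_mod_cast (show l0 ≤ 2 * t by omega))
      obtain ⟨j', hj1', hj2'⟩ := hex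
      let B0 : Finset S := ⟨s', Multiset.nodup_of_le hs'le Finset.univ.nodup⟩
      have hB0ne : B0.Nonempty := by
        obtain ⟨c, hc⟩ := Multiset.exists_mem_of_ne_zero hs'0
        exact ⟨c, hc⟩
      let B : Finset ι := B0.map (Function.Embedding.subtype _)
      have hBmem : ∀ i ∈ B, i ≠ i0 := by
        intro i hi
        obtain ⟨c, -, rfl⟩ := Finset.mem_map.1 hi
        exact c.2
      have hBcard : B.card ≤ exactBound b d := by
        rw [Finset.card_map]
        exact hs'card
      refine ⟨B, hB0ne.map, ⟨j', ?_, ?_⟩, ?_⟩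
      · rw [Finset.prod_map]
        rw [hprS] at hj1'
        exact hj1'
      · intro A prA hA
        have hfam : (fun i : {i // i ∈ B} => X' i) = fun _ => X := by
          funext i
          exact h1 i (hBmem i i.2)
        have hne : Nonempty {i // i ∈ B} := by
          obtain ⟨i, hi⟩ := hB0ne.map (f := Function.Embedding.subtype _)
          exact ⟨⟨i, hi⟩⟩
        obtain ⟨m', hm'⟩ : ∃ m', Fintype.card {i // i ∈ B} = m' + 1 :=
          ⟨Fintype.card {i // i ∈ B} - 1, by have := Fintype.card_pos (α := {i // i ∈ B}); omega⟩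
        have hm'' : m' ≤ m := by
          rw [Fintype.card_coe] at hm'
          omega
        obtain ⟨pr', h'⟩ := isProd_pw X hm'
        have h2 : IsFactor C A (pw X m') := by
          obtain ⟨pr'', h3⟩ := exists_isProd_congr hfam h'
          exact factor_of_isProd hA h3
        obtain ⟨h4, h5⟩ := hdesc (h2.trans (hXf m' hm''))
        exact hFr.split ha h4 h5 j'
      · intro _
        exact ⟨⟨i0, fun h => hBmem i0 h rfl⟩, h0, fun i hi => h1 i fun h => hi (Subtype.ext h)⟩
  · intro ι X' hX' i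
    have h1 : Nilpotence H (X' i) := by
      rcases hadm ι X' hX' i with h | h
      · rw [h]
        exact hNY
      · rw [h]
        exact (hdesc (hXf 0 (Nat.zero_le _))).1
    obtain ⟨P, hP0, hP1, hP2⟩ := exists_relation (f := Fr (X' i)) h1
      (fun l _ => (hQ1 (X' i) l).monic.ne_zero) fun l _ => hQ3 (X' i) l
    exact ⟨P, hP0, hP1, fun α hα => hP2 α hα⟩
  · rcases i with _ | i
    · exact absurd rfl hi
    · rfl

end Pool.Agent.Q56.CP
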